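import Pool.Agent.H84.BR.Def

/-!
[H84 BR TRP]  BARRIER, chapter IV: existence of a trap around a sink.

`trap_top` (topology only). Construct closed sets `N_{m-1}, ..., N_1` downwards. `C_j = f^[j] '' D` compact. `f^[m] D ⊆ interior D`
and `C_{m-1} ⊆ f ⁻¹' (interior D)` (open): by normality (`normal_exists_closure_subset`, the space is compact and Hausdorff)
there is a closed `N_{m-1} ⊆ f ⁻¹' (interior D)` with `C_{m-1} ⊆ interior N_{m-1}`; then `C_{m-2} ⊆ f ⁻¹' (interior N_{m-1})`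
and so on. `A = D ∪ N_1 ∪ ... ∪ N_{m-1}`. As an induction: for `k ≤ m - 1` there is a closed set `B` (the union of the last `k`
sets) with `f '' B ⊆ interior (B ∪ D)`, `f^[m - k] '' D ⊆ interior B` if `k ≥ 1`, and every point of `B` has an iterate in `D`. A proof
by induction on `m` of the following statement is also possible: for all closed `D E` with `f^[m] '' D ⊆ interior E` (`m ≥ 1`) there
is a closed `A ⊇ D` with `f '' A ⊆ interior (A ∪ E)` and every point of `A` has an iterate `f^[j] x ∈ E`, `j ≥ 1` (`m = 1`: `A = D`;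
step: `f^[m] '' (f '' D) ⊆ interior E`, `U = (f^[m]) ⁻¹' (interior E)` open, `f '' D ⊆ U` compact, closed `D'` with `f '' D ⊆ interior D'`,
`D' ⊆ U`; `A'` for `D', E`; `A = D ∪ A'`). Use it with `E = D`.

`unif`: uniform attraction. For a closed (compact) set `D ⊆ U` of points attracted to the stable sink `z` under `f^[n]` and a neighbourhood
`N` of `z` there is `K0` with `f^[n * k] '' D ⊆ N` for all `k ≥ K0`: take the neighbourhood `V` of stability, every `w ∈ D` has `k_w` with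
`f^[n * k_w] w ∈ interior V`, the same in a neighbourhood of `w`, finitely many of them cover `D`; after entering `V` the orbit stays
in `N`.

`trap_of_sink`: `sink_stable`, `exists_not_att` (stability); `U` the attracted neighbourhood; closed neighbourhood `D ⊆ U` of `z` (regular
space); `unif` with `N = interior D` gives `m = n * K0` (`K0 ≥ 1`), `trap_top`; every point of `A` has an iterate in `D`, `att_iter`.
`trap_pre`: `A = f ⁻¹' A0`: `f x ∈ A0` for `x ∈ A`, and `A0 ⊆ f ⁻¹' (interior A0) ⊆ interior (f ⁻¹' A0)`.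
-/

set_option autoImplicit false

open Filter Topology Polynomial OnePoint Set

namespace Pool.Agent.H84.BR

open Pool.Agent.H44.Fatou Pool.Agent.H32.BT

private theorem trap_aux {X : Type*} [TopologicalSpace X] [CompactSpace X] [T2Space X] {f : X → X}
    (hf : Continuous f) {E : Set X} (m : ℕ) : ∀ {D : Set X}, IsClosed D →
    (∀ x ∈ D, f^[m + 1] x ∈ interior E) →
    ∃ A : Set X, IsClosed A ∧ D ⊆ A ∧ (∀ x ∈ A, f x ∈ interior (A ∪ E)) ∧
      ∀ x ∈ A, ∃ j, f^[j] x ∈ E := by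
  induction m with
  | zero =>
    intro D hD h
    refine ⟨D, hD, Subset.rfl, fun x hx => ?_, fun x hx => ⟨1, interior_subset (h x hx)⟩⟩
    exact interior_mono subset_union_right (h x hx)
  | succ m ih =>
    intro D hD h
    have hU : IsOpen (f^[m + 1] ⁻¹' interior E) := isOpen_interior.preimage (hf.iterate _)
    have hC : IsClosed (f '' D) := (hD.isCompact.image hf).isClosed
    have hsub : f '' D ⊆ f^[m + 1] ⁻¹' interior E := by
      rintro _ ⟨x, hx, rfl⟩
      have h1 := h x hx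
      rw [Function.iterate_succ_apply] at h1
      exact h1
    obtain ⟨V, hV, hCV, hVU⟩ := normal_exists_closure_subset hC hU hsub
    obtain ⟨A, hA, hDA, hm, hj⟩ := ih (D := closure V) isClosed_closure fun x hx => hVU hx
    refine ⟨D ∪ A, hD.union hA, subset_union_left, ?_, ?_⟩
    · rintro x (hx | hx)
      · have h1 : f x ∈ V := hCV ⟨x, hx, rfl⟩
        have h2 : V ⊆ D ∪ A ∪ E := fun y hy => Or.inl (Or.inr (hDA (subset_closure hy)))
        exact interior_maximal h2 hV h1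
      · refine interior_mono ?_ (hm x hx)
        exact union_subset_union_left E subset_union_right
    · rintro x (hx | hx)
      · exact ⟨m + 1 + 1, interior_subset (h x hx)⟩
      · exact hj x hx

theorem trap_top {X : Type*} [TopologicalSpace X] [CompactSpace X] [T2Space X] {f : X → X} (hf : Continuous f)
    {D : Set X} (hD : IsClosed D) {m : ℕ} (hm : 0 < m) (h : ∀ x ∈ D, f^[m] x ∈ interior D) :
    ∃ A : Set X, IsClosed A ∧ D ⊆ A ∧ (∀ x ∈ A, f x ∈ interior A) ∧ ∀ x ∈ A, ∃ j, f^[j] x ∈ D := by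
  obtain ⟨k, rfl⟩ : ∃ k, m = k + 1 := ⟨m - 1, by omega⟩
  obtain ⟨A, hA, hDA, hmap, hj⟩ := trap_aux hf k hD h
  rw [union_eq_self_of_subset_right hDA] at hmap
  exact ⟨A, hA, hDA, hmap, hj⟩

theorem unif {f : OnePoint ℂ → OnePoint ℂ} (hf : Continuous f) {z : OnePoint ℂ} {n : ℕ}
    (hst : ∀ N ∈ 𝓝 z, ∃ V ∈ 𝓝 z, ∀ w ∈ V, ∀ k : ℕ, f^[n * k] w ∈ N) {D : Set (OnePoint ℂ)} (hD : IsClosed D)
    (ha : ∀ w ∈ D, Tendsto (fun k : ℕ => f^[n * k] w) atTop (𝓝 z)) {N : Set (OnePoint ℂ)} (hN : N ∈ 𝓝 z) :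
    ∃ K0 : ℕ, ∀ k ≥ K0, ∀ w ∈ D, f^[n * k] w ∈ N := by
  obtain ⟨V, hV, hVN⟩ := hst N hN
  have hO : ∀ k : ℕ, IsOpen (f^[n * k] ⁻¹' interior V) := fun k =>
    isOpen_interior.preimage (hf.iterate _)
  have hcov : D ⊆ ⋃ k : ℕ, f^[n * k] ⁻¹' interior V := by
    intro w hw
    obtain ⟨k, hk⟩ := ((ha w hw).eventually_mem (interior_mem_nhds.2 hV)).exists
    exact mem_iUnion.2 ⟨k, hk⟩
  obtain ⟨t, ht⟩ := hD.isCompact.elim_finite_subcover _ hO hcov
  refine ⟨t.sup id, fun k hk w hw => ?_⟩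
  obtain ⟨k', hk', hwk⟩ := mem_iUnion₂.1 (ht hw)
  have h1 : k' ≤ k := (Finset.le_sup (f := id) hk').trans hk
  have h2 : n * k = n * (k - k') + n * k' := by
    rw [← mul_add, Nat.sub_add_cancel h1]
  rw [h2, Function.iterate_add_apply]
  exact hVN _ (interior_subset hwk) _

theorem trap_of_sink {P Q : ℂ[X]} (h : IsCoprime P Q) (hd : 2 ≤ max P.natDegree Q.natDegree) {z : OnePoint ℂ} {n : ℕ}
    (hs : IsSink (rat P Q) z n) : ∃ A : Set (OnePoint ℂ), Trap (rat P Q) A ∧ z ∈ interior A := by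
  have hf := rat_continuous h
  have hst := sink_stable h (by omega) (exists_not_att h hd) hs
  have hs' := hs
  obtain ⟨hn, -, U, hU, hUt⟩ := hs'
  obtain ⟨D, hDz, hD, hDU⟩ := exists_mem_nhds_isClosed_subset hU
  obtain ⟨K0, hK⟩ := unif hf hst hD (fun w hw => hUt w (hDU hw)) (interior_mem_nhds.2 hDz)
  obtain ⟨A, hA, hDA, hmap, hj⟩ := trap_top hf hD (m := n * (K0 + 1)) (by positivity)
    fun x hx => hK (K0 + 1) (by omega) x hx
  refine ⟨A, ⟨hA, hmap, fun x hx => ?_⟩, interior_mono hDA (mem_interior_iff_mem_nhds.2 hDz)⟩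
  obtain ⟨j, hj1⟩ := hj x hx
  exact (att_iter hf x j).1 ⟨z, n, hs, hUt _ (hDU hj1)⟩

theorem trap_pre {f : OnePoint ℂ → OnePoint ℂ} (hf : Continuous f) {A : Set (OnePoint ℂ)} (hA : Trap f A) :
    Trap f (f ⁻¹' A) ∧ A ⊆ interior (f ⁻¹' A) ∧ f ⁻¹' (interior A) ⊆ interior (f ⁻¹' A) := by
  have h1 : f ⁻¹' (interior A) ⊆ interior (f ⁻¹' A) :=
    preimage_interior_subset_interior_preimage hf
  have h2 : A ⊆ interior (f ⁻¹' A) := fun x hx => h1 (hA.maps x hx)
  exact ⟨⟨hA.closed.preimage hf, fun x hx => h2 hx,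
    fun x hx => (att_iter hf x 1).1 (hA.att (f x) hx)⟩, h2, h1⟩

theorem trap_conj (φ : OnePoint ℂ ≃ₜ OnePoint ℂ) {f g : OnePoint ℂ → OnePoint ℂ}
    (hfg : ∀ x, g (φ x) = φ (f x)) {A : Set (OnePoint ℂ)} (hA : Trap f A) : Trap g (φ '' A) := by
  refine ⟨φ.isClosed_image.2 hA.closed, ?_, ?_⟩
  · rintro _ ⟨x, hx, rfl⟩
    rw [hfg, ← φ.image_interior]
    exact mem_image_of_mem _ (hA.maps x hx)
  · rintro _ ⟨x, hx, rfl⟩
    exact (att_conj φ hfg x).2 (hA.att x hx)

end Pool.Agent.H84.BR
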