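import Pool.Agent.H84.BR.Wey

/-!
[H84 BR EMB]  BARRIER, chapter VII: the embedding of a map of degree `n` in degree `d`.

`embed`. `¬ Lim` gives `ε > 0` such that no coprime hyperbolic pair of degree `n` is `Near ε`. `Straight` gives `η, R` for `ε`; `R' = max R 0`. `C0` from `Nd_scaled` for `P` and for `Q` (sum `C1 = C0(P) + C0(Q) > 0`). `c = η² exp (-R'²) / (2 C1)`, `d0 = max 2 (2 n)`.
Given `d ≥ d0`, `r = √d ≥ 1`: `P1 = C r⁻¹ * P.comp (C r * X)`, `Q1 = Q.comp (C r * X)`: degrees `≤ n ≤ d`, `Q1 ≠ 0` (`comp_C_mul_X_coeff`). `Nd d P1 ≤ Nd d (P.comp ..) / d ≤ C0(P)`, so `Nd d P1 + Nd d Q1 ≤ C1`.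
Suppose `P', Q'` is coprime of degree `d`, hyperbolic and `Nd d (P1 - P') + Nd d (Q1 - Q') < c / d * (Nd d P1 + Nd d Q1) ≤ c C1 / d`. `A' = C r * P'.comp (C r⁻¹ * X)`, `B' = Q'.comp (C r⁻¹ * X)`: coprime (`IsCoprime.map` for `compRingHom`, multiplication by a unit), natDegrees
are those of `P', Q'`, so the maximum is `d ≥ 2`; `HypMap (rat A' B')` by `scale_sphere`. For `‖w‖ ≤ R ≤ R'`: `A' w - P w = - r (P1 - P') (w / r)` and `B' w - Q w = - (Q1 - Q') (w / r)`, so by `Nd_eval_scaled` `‖A' w - P w‖² ≤ d * (c C1 / d) exp (R'²) ≤ η² / 2`, `‖B' w - Q w‖² ≤ η²`.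
So `Straight` gives a coprime hyperbolic pair of degree `n` which is `Near ε`: contradiction.
-/

set_option autoImplicit false

open Filter Topology Polynomial Set

namespace Pool.Agent.H84.BR

open Pool.Agent.H44.Fatou Pool.Agent.H32.BT
open Pool.Agent.H85.LD (Nd)

theorem em_nn (d : ℕ) (G : ℂ[X]) : 0 ≤ Nd d G := by
  unfold Pool.Agent.H85.LD.Nd
  exact Finset.sum_nonneg fun k _ => by positivity

theorem em_mul (d : ℕ) (a : ℂ) (G : ℂ[X]) : Nd d (C a * G) = ‖a‖ ^ 2 * Nd d G := by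
  unfold Pool.Agent.H85.LD.Nd
  rw [Finset.mul_sum]
  refine Finset.sum_congr rfl fun k _ => ?_
  rw [coeff_C_mul, norm_mul, mul_pow, mul_div_assoc]

theorem em_deg {a : ℂ} (ha : a ≠ 0) (G : ℂ[X]) : (G.comp (C a * X)).natDegree = G.natDegree := by
  rw [natDegree_comp, natDegree_C_mul_X a ha, mul_one]

/-- no hyperbolic map (of any degree at least 2) is close to `(P, Q)` on some disc -/
def NoHyp (P Q : ℂ[X]) : Prop :=
  ∃ η R : ℝ, 0 < η ∧ ∀ A' B' : ℂ[X], IsCoprime A' B' → 2 ≤ max A'.natDegree B'.natDegree →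
    (∀ w : ℂ, ‖w‖ ≤ R → ‖A'.eval w - P.eval w‖ ≤ η ∧ ‖B'.eval w - Q.eval w‖ ≤ η) → ¬ HypMap (rat A' B')

theorem noHyp {n : ℕ} {P Q : ℂ[X]} (hS : Straight n P Q) (hL : ¬ Lim n P Q) : NoHyp P Q := by
  have hL' : ∃ ε : ℝ, 0 < ε ∧ ∀ P' Q' : ℂ[X], IsCoprime P' Q' → max P'.natDegree Q'.natDegree = n →
      Near ε P' Q' P Q → ¬ HypMap (rat P' Q') := by
    by_contra hcon
    apply hL
    intro ε hε
    by_contra h2
    apply hcon
    refine ⟨ε, hε, fun P' Q' h3 h4 h5 h6 => h2 ⟨P', Q', h3, h4, h5, h6⟩⟩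
  obtain ⟨ε, hε, hno⟩ := hL'
  obtain ⟨η, R, hη, hst⟩ := hS ε hε
  refine ⟨η, R, hη, fun A' B' h1 h2 h3 h4 => ?_⟩
  obtain ⟨P'', Q'', k1, k2, k3, k4⟩ := hst A' B' h1 h2 h3 h4
  exact hno P'' Q'' k1 k2 k3 k4

theorem embed0 {n : ℕ} {P Q : ℂ[X]} (hP : P.natDegree ≤ n) (hQ : Q.natDegree ≤ n) (hQ0 : Q ≠ 0)
    (hN : NoHyp P Q) : ∃ c : ℝ, 0 < c ∧ ∃ d0 : ℕ, ∀ d : ℕ, d0 ≤ d →
    ∃ P1 Q1 : ℂ[X], P1.natDegree ≤ d ∧ Q1.natDegree ≤ d ∧ (P1 ≠ 0 ∨ Q1 ≠ 0) ∧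
      ∀ P' Q' : ℂ[X], IsCoprime P' Q' → max P'.natDegree Q'.natDegree = d → HypMap (rat P' Q') →
        c / (d : ℝ) * (Nd d P1 + Nd d Q1) ≤ Nd d (P1 - P') + Nd d (Q1 - Q') := by
  obtain ⟨η, R, hη, hst⟩ := hN
  obtain ⟨C1, hC1, hNP⟩ := Nd_scaled hP
  obtain ⟨C2, hC2, hNQ⟩ := Nd_scaled hQ
  obtain ⟨K, hK⟩ : ∃ K : ℝ, K = C1 + C2 := ⟨_, rfl⟩
  have hK0 : 0 < K := by rw [hK]; positivity
  obtain ⟨E, hE⟩ : ∃ E : ℝ, E = Real.exp (R ^ 2) := ⟨_, rfl⟩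
  have hE0 : 0 < E := by rw [hE]; exact Real.exp_pos _
  refine ⟨η ^ 2 / (2 * K * E), by positivity, max 2 (2 * n), fun d hd => ?_⟩
  have hd2 : 2 ≤ d := (le_max_left _ _).trans hd
  have hdn : 2 * n ≤ d := (le_max_right _ _).trans hd
  obtain ⟨r, hr⟩ : ∃ r : ℝ, r = Real.sqrt d := ⟨_, rfl⟩
  have hdR : (1 : ℝ) ≤ (d : ℝ) := by exact_mod_cast (by omega : 1 ≤ d)
  have hr1 : 1 ≤ r := by rw [hr]; exact Real.one_le_sqrt.2 hdR
  have hr2 : r ^ 2 = d := by rw [hr]; exact Real.sq_sqrt (by positivity)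
  have hr0 : (r : ℂ) ≠ 0 := by
    rw [Ne, Complex.ofReal_eq_zero]
    linarith
  have hNP' := hNP d (by omega) hdn
  have hNQ' := hNQ d (by omega) hdn
  rw [← hr] at hNP' hNQ'
  refine ⟨C ((r : ℂ)⁻¹) * P.comp (C (r : ℂ) * X), Q.comp (C (r : ℂ) * X), ?_, ?_, Or.inr ?_, ?_⟩
  · refine (natDegree_C_mul_le _ _).trans ?_
    rw [em_deg hr0]
    omega
  · rw [em_deg hr0]
    omega
  · intro h
    apply hQ0
    ext1 k
    have h1 := congrArg (fun p : ℂ[X] => p.coeff k) h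
    simp only [comp_C_mul_X_coeff, coeff_zero] at h1
    rw [coeff_zero]
    exact (mul_eq_zero.1 h1).resolve_right (pow_ne_zero k hr0)
  · intro P' Q' hcop hdeg hhyp
    by_contra hlt
    rw [not_le] at hlt
    obtain ⟨P1, hP1⟩ : ∃ P1, P1 = C ((r : ℂ)⁻¹) * P.comp (C (r : ℂ) * X) := ⟨_, rfl⟩
    obtain ⟨Q1, hQ1⟩ : ∃ Q1, Q1 = Q.comp (C (r : ℂ) * X) := ⟨_, rfl⟩
    rw [← hP1, ← hQ1] at hlt
    have hb1 : Nd d P1 ≤ C1 := by
      rw [hP1, em_mul, norm_inv, Complex.norm_real, Real.norm_of_nonneg (by linarith)]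
      have h1 : (r⁻¹) ^ 2 ≤ 1 := by
        apply pow_le_one₀ (by positivity)
        exact inv_le_one_of_one_le₀ hr1
      calc (r⁻¹) ^ 2 * Nd d (P.comp (C (r : ℂ) * X)) ≤ 1 * Nd d (P.comp (C (r : ℂ) * X)) :=
            mul_le_mul_of_nonneg_right h1 (em_nn _ _)
        _ ≤ C1 := by rw [one_mul]; exact hNP'
    have hb2 : Nd d Q1 ≤ C2 := by rw [hQ1]; exact hNQ'
    have hdpos : (0 : ℝ) < d := by linarith
    have hlt2 : Nd d (P1 - P') + Nd d (Q1 - Q') < η ^ 2 / (2 * E) / d := by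
      refine lt_of_lt_of_le hlt ?_
      have h1 : η ^ 2 / (2 * K * E) / d * (Nd d P1 + Nd d Q1) ≤ η ^ 2 / (2 * K * E) / d * K := by
        apply mul_le_mul_of_nonneg_left _ (by positivity)
        rw [hK]
        linarith
      refine h1.trans (le_of_eq ?_)
      field_simp
    have hP1d : P1.natDegree ≤ d := by
      rw [hP1]
      refine (natDegree_C_mul_le _ _).trans ?_
      rw [em_deg hr0]
      omega
    have hQ1d : Q1.natDegree ≤ d := by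
      rw [hQ1, em_deg hr0]
      omega
    have hP'd : P'.natDegree ≤ d := by rw [← hdeg]; exact le_max_left _ _
    have hQ'd : Q'.natDegree ≤ d := by rw [← hdeg]; exact le_max_right _ _
    have hdP : (P1 - P').natDegree ≤ d := (natDegree_sub_le _ _).trans (max_le hP1d hP'd)
    have hdQ : (Q1 - Q').natDegree ≤ d := (natDegree_sub_le _ _).trans (max_le hQ1d hQ'd)
    have hri : (r : ℂ)⁻¹ ≠ 0 := inv_ne_zero hr0
    have hcop1 : IsCoprime (P'.comp (C ((r : ℂ)⁻¹) * X)) (Q'.comp (C ((r : ℂ)⁻¹) * X)) :=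
      hcop.map (compRingHom (C ((r : ℂ)⁻¹) * X))
    have hcop2 : IsCoprime (C (r : ℂ) * P'.comp (C ((r : ℂ)⁻¹) * X))
        (Q'.comp (C ((r : ℂ)⁻¹) * X)) :=
      (isCoprime_mul_unit_left_left (isUnit_C.2 (isUnit_iff_ne_zero.2 hr0)) _ _).2 hcop1
    have hdeg2 : max (C (r : ℂ) * P'.comp (C ((r : ℂ)⁻¹) * X)).natDegree
        (Q'.comp (C ((r : ℂ)⁻¹) * X)).natDegree = d := by
      rw [natDegree_C_mul hr0, em_deg hri, em_deg hri, hdeg]
    have hhyp2 : HypMap (rat (C (r : ℂ) * P'.comp (C ((r : ℂ)⁻¹) * X))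
        (Q'.comp (C ((r : ℂ)⁻¹) * X))) := by
      refine (scale_sphere hr0 hcop hcop2 (fun z => ?_) (fun z => ?_)).2 hhyp
      · rw [eval_mul, eval_C, eval_comp, eval_mul, eval_C, eval_X, inv_mul_cancel_left₀ hr0]
      · rw [eval_comp, eval_mul, eval_C, eval_X, inv_mul_cancel_left₀ hr0]
    have hNP0 := em_nn d (P1 - P')
    have hNQ0 := em_nn d (Q1 - Q')
    have hwE : ∀ w : ℂ, ‖w‖ ≤ R → w / (Real.sqrt d : ℂ) = (r : ℂ)⁻¹ * w := by
      intro w _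
      rw [← hr]
      field_simp
    exact hst _ _ hcop2 (by rw [hdeg2]; exact hd2) (by
      intro w hw
      have e1 := Nd_eval_scaled (by omega : 1 ≤ d) hdP hw
      have e2 := Nd_eval_scaled (by omega : 1 ≤ d) hdQ hw
      rw [hwE w hw, ← hE] at e1 e2
      have f1 : (C (r : ℂ) * P'.comp (C ((r : ℂ)⁻¹) * X)).eval w - P.eval w
          = -((r : ℂ) * (P1 - P').eval ((r : ℂ)⁻¹ * w)) := by
        rw [hP1, eval_sub, eval_mul, eval_C, eval_comp, eval_mul, eval_C, eval_X, eval_mul, eval_C,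
          eval_comp, eval_mul, eval_C, eval_X, mul_inv_cancel_left₀ hr0]
        field_simp
        ring
      have f2 : (Q'.comp (C ((r : ℂ)⁻¹) * X)).eval w - Q.eval w
          = -((Q1 - Q').eval ((r : ℂ)⁻¹ * w)) := by
        rw [hQ1, eval_sub, eval_comp, eval_mul, eval_C, eval_X, eval_comp, eval_mul, eval_C, eval_X,
          mul_inv_cancel_left₀ hr0]
        ring
      have hkey : η ^ 2 / (2 * E) / d * E * d = η ^ 2 / 2 := by
        field_simp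
      constructor
      · rw [f1, norm_neg, norm_mul, Complex.norm_real, Real.norm_of_nonneg (by linarith)]
        refine (pow_le_pow_iff_left₀ (by positivity) hη.le two_ne_zero).1 ?_
        rw [mul_pow, hr2]
        have h1 : Nd d (P1 - P') ≤ η ^ 2 / (2 * E) / d := by linarith
        calc (d : ℝ) * ‖(P1 - P').eval ((r : ℂ)⁻¹ * w)‖ ^ 2 ≤ d * (Nd d (P1 - P') * E) :=
              mul_le_mul_of_nonneg_left e1 hdpos.le
          _ ≤ d * (η ^ 2 / (2 * E) / d * E) := by gcongr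
          _ = η ^ 2 / 2 := by rw [← hkey]; ring
          _ ≤ η ^ 2 := by nlinarith [sq_nonneg η]
      · rw [f2, norm_neg]
        refine (pow_le_pow_iff_left₀ (by positivity) hη.le two_ne_zero).1 ?_
        have h1 : Nd d (Q1 - Q') ≤ η ^ 2 / (2 * E) / d := by linarith
        calc ‖(Q1 - Q').eval ((r : ℂ)⁻¹ * w)‖ ^ 2 ≤ Nd d (Q1 - Q') * E := e2
          _ ≤ η ^ 2 / (2 * E) / d * E := by gcongr
          _ ≤ η ^ 2 / (2 * E) / d * E * d := by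
              apply le_mul_of_one_le_right (by positivity) hdR
          _ = η ^ 2 / 2 := hkey
          _ ≤ η ^ 2 := by nlinarith [sq_nonneg η]) hhyp2

theorem embed {n : ℕ} {P Q : ℂ[X]} (hP : P.natDegree ≤ n) (hQ : Q.natDegree ≤ n) (hQ0 : Q ≠ 0)
    (hS : Straight n P Q) (hL : ¬ Lim n P Q) : ∃ c : ℝ, 0 < c ∧ ∃ d0 : ℕ, ∀ d : ℕ, d0 ≤ d →
    ∃ P1 Q1 : ℂ[X], P1.natDegree ≤ d ∧ Q1.natDegree ≤ d ∧ (P1 ≠ 0 ∨ Q1 ≠ 0) ∧
      ∀ P' Q' : ℂ[X], IsCoprime P' Q' → max P'.natDegree Q'.natDegree = d → HypMap (rat P' Q') →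
        c / (d : ℝ) * (Nd d P1 + Nd d Q1) ≤ Nd d (P1 - P') + Nd d (Q1 - Q') :=
  embed0 hP hQ hQ0 (noHyp hS hL)

end Pool.Agent.H84.BR
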