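import Pool.Agent.H84.BR.Exc
import Pool.Agent.H84.BR.Emb

/-!
[H84 BR PLA]  BARRIER, polynomial version: the trap at infinity, closeness of quotients on a disc.

`pol_trap`: `T` a polynomial of degree `n ≥ 2`: there is `ρ0 ≥ 1` with `‖T.eval z‖ ≥ 2 ‖z‖` for `‖z‖ ≥ ρ0` (`‖T z‖ / ‖z‖ → ∞`: `Polynomial.tendsto_norm_atTop` for the quotient, or `T = lead z^n + lower terms`, or
`Polynomial.isEquivalent_atTop_lead`). `A = {∞} ∪ (↑) '' {z | ρ0 ≤ ‖z‖}` = complement of `(↑) '' ball 0 ρ0`, closed (`isOpenEmbedding_coe.isOpenMap`). For `x ∈ A`: `rat T 1 ∞ = ∞` (`rat_infty`: the coefficients of degree `dg` are `lead ≠ 0` and `0`, `pt _ 0 = ∞`), for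
`‖z‖ ≥ ρ0` `rat T 1 z = T z` with `‖T z‖ ≥ 2 ρ0 > ρ0`: in the open set `{∞} ∪ {‖z‖ > ρ0}` (complement of the compact image of `closedBall 0 ρ0`), which is contained in `A`, so in `interior A`. `Att`: `IsSink (rat T 1) ∞ 1`: for all `x ∈ A` `(rat T 1)^[k] x → ∞`
(`‖T^[k] z‖ ≥ 2^k ρ0 → ∞`: `OnePoint.tendsto_coe_infty`/`tendsto_norm_atTop`; the constant sequence for `∞`), and `A` is a neighbourhood of `∞`. `GD0`: `IsCoprime T 1`, `max n 0 = n`, no poles (`eval 1 = 1 ≠ 0`).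

`disc_close`: `K ⊆ closedBall 0 R1`, `R = R1 + 1`, `f = Tf A' B' - Tf T 1` is holomorphic near every point of `closedBall 0 R` (`B' ≠ 0`), `‖f‖ ≤ η` there; Cauchy's estimate on circles of radius `1 / 2` gives `‖deriv f z‖ ≤ 2 η` for `z ∈ K`. `η = ε / 2`.
-/

set_option autoImplicit false

open Filter Topology Polynomial Set

namespace Pool.Agent.H84.BR

open Pool.Agent.H44.Fatou Pool.Agent.H32.BT

/-- a polynomial of degree at least two doubles the norm near infinity -/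
theorem pla_grow {T : ℂ[X]} (hT : 2 ≤ T.natDegree) :
    ∃ ρ0 : ℝ, 1 ≤ ρ0 ∧ ∀ z : ℂ, ρ0 ≤ ‖z‖ → 2 * ‖z‖ ≤ ‖T.eval z‖ := by
  have hdeg : 0 < T.divX.degree := by
    rw [← natDegree_pos_iff_degree_pos, natDegree_divX_eq_natDegree_tsub_one]
    omega
  have h1 : Tendsto (fun z : ℂ => ‖T.divX.eval z‖) (cocompact ℂ) atTop :=
    T.divX.tendsto_norm_atTop hdeg (tendsto_norm_cocompact_atTop (E := ℂ))
  have h2 : ∀ᶠ z in cocompact ℂ, 2 + ‖T.coeff 0‖ < ‖T.divX.eval z‖ := h1.eventually_gt_atTop _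
  obtain ⟨K, hK, hKs⟩ := mem_cocompact.1 h2
  obtain ⟨r, hr⟩ := hK.isBounded.exists_norm_le
  refine ⟨max 1 (r + 1), le_max_left _ _, fun z hz => ?_⟩
  have hz1 : 1 ≤ ‖z‖ := (le_max_left _ _).trans hz
  have hz2 : r + 1 ≤ ‖z‖ := (le_max_right _ _).trans hz
  have h3 : z ∉ K := fun h3 => by
    have h4 := hr z h3
    linarith
  have h4 : 2 + ‖T.coeff 0‖ < ‖T.divX.eval z‖ := hKs h3
  have h5 : T.eval z = T.divX.eval z * z + T.coeff 0 := by
    conv_lhs => rw [← T.divX_mul_X_add]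
    rw [eval_add, eval_mul, eval_X, eval_C]
  have h6 : ‖T.divX.eval z * z‖ ≤ ‖T.eval z‖ + ‖T.coeff 0‖ := by
    have h7 := norm_sub_le (T.eval z) (T.coeff 0)
    rw [h5, add_sub_cancel_right] at h7
    rw [h5]
    exact h7
  rw [norm_mul] at h6
  have h8 : 0 ≤ ‖T.coeff 0‖ := norm_nonneg _
  nlinarith

theorem pla_one (T : ℂ[X]) (z : ℂ) : rat T 1 (z : OnePoint ℂ) = ((T.eval z : ℂ) : OnePoint ℂ) := by
  have h : (1 : ℂ[X]).eval z ≠ 0 := by
    rw [eval_one]
    exact one_ne_zero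
  rw [rat_coe_of_ne h, eval_one, div_one]

theorem pla_iter (T : ℂ[X]) (z : ℂ) (k : ℕ) :
    (rat T 1)^[k] (z : OnePoint ℂ) = (((fun w : ℂ => T.eval w)^[k] z : ℂ) : OnePoint ℂ) := by
  induction k with
  | zero => rfl
  | succ k ih => rw [Function.iterate_succ_apply', Function.iterate_succ_apply', ih, pla_one]

theorem pol_trap {n : ℕ} (hn : 2 ≤ n) {T : ℂ[X]} (hT : T.natDegree = n) : ∃ A : Set (OnePoint ℂ), GD0 n T 1 A := by
  obtain ⟨ρ0, hρ, hg⟩ := pla_grow (T := T) (by omega)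
  set A : Set (OnePoint ℂ) := ((fun z : ℂ => (z : OnePoint ℂ)) '' Metric.ball 0 ρ0)ᶜ with hA
  set O : Set (OnePoint ℂ) := ((fun z : ℂ => (z : OnePoint ℂ)) '' Metric.closedBall 0 ρ0)ᶜ with hO
  have hOo : IsOpen O := by
    have h1 : IsCompact ((fun z : ℂ => (z : OnePoint ℂ)) '' Metric.closedBall 0 ρ0) :=
      (isCompact_closedBall (0 : ℂ) ρ0).image OnePoint.continuous_coe
    exact h1.isClosed.isOpen_compl
  have hOA : O ⊆ A := compl_subset_compl.2 (image_mono Metric.ball_subset_closedBall)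
  have hOi : O ⊆ interior A := interior_maximal hOA hOo
  have hAc : IsClosed A :=
    (OnePoint.isOpenEmbedding_coe.isOpenMap _ Metric.isOpen_ball).isClosed_compl
  have hinfO : (OnePoint.infty : OnePoint ℂ) ∈ O := OnePoint.infty_notMem_image_coe
  have hmemA : ∀ z : ℂ, (z : OnePoint ℂ) ∈ A → ρ0 ≤ ‖z‖ := by
    intro z hz
    by_contra h1
    exact hz ⟨z, mem_ball_zero_iff.2 (not_le.1 h1), rfl⟩
  have hmemO : ∀ z : ℂ, ρ0 < ‖z‖ → (z : OnePoint ℂ) ∈ O := by
    rintro z hz ⟨w, hw, hwz⟩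
    have h1 : w = z := OnePoint.coe_injective hwz
    rw [h1, mem_closedBall_zero_iff] at hw
    linarith
  have hfix : rat T 1 (OnePoint.infty : OnePoint ℂ) = OnePoint.infty := by
    rw [rat_infty, dg, natDegree_one, hT, Nat.max_zero, coeff_one, if_neg (by omega)]
    unfold pt
    rw [if_pos rfl]
  have hmaps : ∀ x ∈ A, rat T 1 x ∈ interior A := by
    intro x hx
    refine hOi ?_
    induction x using OnePoint.rec with
    | infty =>
      rw [hfix]
      exact hinfO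
    | coe z =>
      rw [pla_one]
      have h1 := hmemA z hx
      have h2 := hg z h1
      exact hmemO _ (by linarith)
  have hlim : ∀ x ∈ A, Tendsto (fun k : ℕ => (rat T 1)^[1 * k] x) atTop (𝓝 OnePoint.infty) := by
    intro x hx
    simp only [one_mul]
    induction x using OnePoint.rec with
    | infty =>
      have h1 : ∀ k : ℕ, (rat T 1)^[k] (OnePoint.infty : OnePoint ℂ) = OnePoint.infty := fun k =>
        Function.iterate_fixed hfix k
      simp only [h1]
      exact tendsto_const_nhds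
    | coe z =>
      simp only [pla_iter]
      have h1 := hmemA z hx
      have h2 : ∀ k : ℕ, 2 ^ k * ρ0 ≤ ‖(fun w : ℂ => T.eval w)^[k] z‖ := by
        intro k
        induction k with
        | zero => simpa using h1
        | succ k ih =>
          rw [Function.iterate_succ_apply']
          have h3 : (1 : ℝ) ≤ 2 ^ k := one_le_pow₀ (by norm_num)
          have h4 : ρ0 ≤ ‖(fun w : ℂ => T.eval w)^[k] z‖ := by nlinarith
          have h5 := hg _ h4
          have h6 : (2 : ℝ) ^ (k + 1) * ρ0 = 2 * (2 ^ k * ρ0) := by ring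
          rw [h6]
          exact (mul_le_mul_of_nonneg_left ih (by norm_num)).trans h5
      have h3 : Tendsto (fun k : ℕ => (2 : ℝ) ^ k * ρ0) atTop atTop :=
        (tendsto_pow_atTop_atTop_of_one_lt (by norm_num)).atTop_mul_const (by linarith)
      have h4 : Tendsto (fun k : ℕ => ‖(fun w : ℂ => T.eval w)^[k] z‖) atTop atTop :=
        tendsto_atTop_mono h2 h3
      have h5 : Tendsto (fun k : ℕ => (fun w : ℂ => T.eval w)^[k] z) atTop (coclosedCompact ℂ) := by
        rw [coclosedCompact_eq_cocompact, ← Metric.cobounded_eq_cocompact]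
        exact tendsto_norm_atTop_iff_cobounded.1 h4
      exact OnePoint.tendsto_coe_infty.comp h5
  have hsink : IsSink (rat T 1) OnePoint.infty 1 :=
    ⟨one_pos, hfix, A, mem_of_superset (hOo.mem_nhds hinfO) hOA, hlim⟩
  refine ⟨A, hn, isCoprime_one_right, ?_, ⟨hAc, hmaps, fun x hx => ⟨OnePoint.infty, 1, hsink,
    hlim x hx⟩⟩, hOi hinfO, ?_⟩
  · rw [natDegree_one, hT, Nat.max_zero]
  · intro b hb
    rw [eval_one] at hb
    exact absurd hb one_ne_zero

theorem disc_close {T : ℂ[X]} {K : Set ℂ} (hK : IsCompact K) {ε : ℝ} (hε : 0 < ε) :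
    ∃ η R : ℝ, 0 < η ∧ ∀ A' B' : ℂ[X],
      (∀ w : ℂ, ‖w‖ ≤ R → B'.eval w ≠ 0 ∧ ‖A'.eval w / B'.eval w - T.eval w‖ ≤ η) →
      ∀ z ∈ K, B'.eval z ≠ 0 ∧ ‖Tf A' B' z - Tf T 1 z‖ ≤ ε ∧ ‖deriv (Tf A' B') z - deriv (Tf T 1) z‖ ≤ ε := by
  obtain ⟨R0, hR0⟩ := hK.isBounded.exists_norm_le
  refine ⟨ε / 2, R0 + 1, by positivity, fun A' B' h z hz => ?_⟩
  have hzR := hR0 z hz
  have h1 := h z (by linarith)
  have hT1 : ∀ w : ℂ, Tf T 1 w = T.eval w := by
    intro w
    rw [Tf, eval_one, div_one]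
  have hdA : ∀ w : ℂ, ‖w‖ ≤ R0 + 1 → DifferentiableAt ℂ (Tf A' B') w := fun w hw =>
    (A'.differentiable.differentiableAt).div (B'.differentiable.differentiableAt) (h w hw).1
  have hdT : ∀ w : ℂ, DifferentiableAt ℂ (Tf T 1) w := fun w => by
    have h2 : Tf T 1 = fun w => T.eval w := funext hT1
    rw [h2]
    exact T.differentiable.differentiableAt
  refine ⟨h1.1, ?_, ?_⟩
  · rw [hT1]
    exact h1.2.trans (by linarith)
  · have hcl : ∀ w ∈ Metric.closedBall z (1 / 2 : ℝ), ‖w‖ ≤ R0 + 1 := by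
      intro w hw
      rw [Metric.mem_closedBall, dist_eq_norm] at hw
      have h2 := norm_add_le z (w - z)
      rw [add_sub_cancel] at h2
      linarith
    have h2 : DiffContOnCl ℂ (fun w => Tf A' B' w - Tf T 1 w) (Metric.ball z (1 / 2 : ℝ)) := by
      refine DifferentiableOn.diffContOnCl fun w hw => ?_
      have hw' : w ∈ Metric.closedBall z (1 / 2 : ℝ) := Metric.closure_ball_subset_closedBall hw
      exact ((hdA w (hcl w hw')).sub (hdT w)).differentiableWithinAt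
    have h3 : ∀ w ∈ Metric.sphere z (1 / 2 : ℝ), ‖Tf A' B' w - Tf T 1 w‖ ≤ ε / 2 := by
      intro w hw
      rw [hT1]
      exact (h w (hcl w (Metric.sphere_subset_closedBall hw))).2
    have h4 := Complex.norm_deriv_le_of_forall_mem_sphere_norm_le (by norm_num) h2 h3
    have h5 : deriv (fun w => Tf A' B' w - Tf T 1 w) z = deriv (Tf A' B') z - deriv (Tf T 1) z :=
      deriv_fun_sub (hdA z (by linarith)) (hdT z)
    rw [h5] at h4
    refine h4.trans (le_of_eq ?_)
    ring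

end Pool.Agent.H84.BR
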