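import Pool.Agent.H32.BT.Stable
import Pool.Agent.H32.BT.NotAtt
import Pool.Agent.H32.BT.Cj
import Pool.Agent.H32.BT.Crit

/-!
BARRIER (MP_8f2e1c_an), chapters IV to VI: definitions.

`Trap f A`: a closed set `A` which `f` maps into its interior, all points of `A` are attracted to sinks.
`GD n P Q A`: good coordinates for the rational map `T = P/Q` of degree `n` with the trap `A`: infinity and the poles of
`T` are in the interior of `A`, the poles are finite and simple.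
-/

set_option autoImplicit false

open Filter Topology Polynomial OnePoint Set

namespace Pool.Agent.H84.BR

open Pool.Agent.H44.Fatou Pool.Agent.H32.BT

/-- a trap -/
structure Trap (f : OnePoint ℂ → OnePoint ℂ) (A : Set (OnePoint ℂ)) : Prop where
  closed : IsClosed A
  maps : ∀ x ∈ A, f x ∈ interior A
  att : ∀ x ∈ A, Att f x

/-- weak form of good coordinates: infinity and the (finite) poles are in the trap -/
structure GD0 (n : ℕ) (P Q : ℂ[X]) (A : Set (OnePoint ℂ)) : Prop where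
  n2 : 2 ≤ n
  cop : IsCoprime P Q
  deg : max P.natDegree Q.natDegree = n
  trap : Trap (rat P Q) A
  inf : (∞ : OnePoint ℂ) ∈ interior A
  pole : ∀ b : ℂ, Q.eval b = 0 → (b : OnePoint ℂ) ∈ interior A

/-- good coordinates -/
structure GD (n : ℕ) (P Q : ℂ[X]) (A : Set (OnePoint ℂ)) : Prop where
  n2 : 2 ≤ n
  cop : IsCoprime P Q
  degQ : Q.natDegree = n
  degP : P.natDegree ≤ n
  sep : ∀ b : ℂ, Q.eval b = 0 → (derivative Q).eval b ≠ 0
  trap : Trap (rat P Q) A
  inf : (∞ : OnePoint ℂ) ∈ interior A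
  pole : ∀ b : ℂ, Q.eval b = 0 → (b : OnePoint ℂ) ∈ interior A

theorem GD.weak {n : ℕ} {P Q : ℂ[X]} {A : Set (OnePoint ℂ)} (h : GD n P Q A) : GD0 n P Q A :=
  ⟨h.n2, h.cop, by rw [h.degQ]; exact max_eq_right h.degP, h.trap, h.inf, h.pole⟩

/-- `P/Q` is a limit of hyperbolic maps of degree `n` -/
def Lim (n : ℕ) (P Q : ℂ[X]) : Prop :=
  ∀ ε : ℝ, 0 < ε → ∃ P' Q' : ℂ[X], IsCoprime P' Q' ∧ max P'.natDegree Q'.natDegree = n ∧
    Near ε P' Q' P Q ∧ HypMap (rat P' Q')

/-- the straightening theorem for one map: hyperbolic maps `A'/B'` of arbitrary degree near `P/Q` on a disc give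
hyperbolic maps of degree `n` near `P/Q` -/
def Straight (n : ℕ) (P Q : ℂ[X]) : Prop :=
  ∀ ε : ℝ, 0 < ε → ∃ η R : ℝ, 0 < η ∧ ∀ A' B' : ℂ[X], IsCoprime A' B' →
    2 ≤ max A'.natDegree B'.natDegree →
    (∀ w : ℂ, ‖w‖ ≤ R → ‖A'.eval w - P.eval w‖ ≤ η ∧ ‖B'.eval w - Q.eval w‖ ≤ η) →
    HypMap (rat A' B') → ∃ P' Q' : ℂ[X], IsCoprime P' Q' ∧ max P'.natDegree Q'.natDegree = n ∧
      Near ε P' Q' P Q ∧ HypMap (rat P' Q')

end Pool.Agent.H84.BR
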