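import Pool.Agent.H85.LD.ADefs
import Pool.Agent.H84.BR.Def

/-!
[H84 BR WEY]  BARRIER, chapter VII: Bombieri-Weyl norms of rescaled polynomials, conjugation by the scaling.

`Nd_eval`: Cauchy-Schwarz: `‖∑ e_k z^k‖² ≤ (∑ ‖e_k‖² / binom(d,k)) (∑ binom(d,k) ‖z‖^(2k))`, binomial theorem (`add_pow`, `Finset.sum_mul_sq_le_sq_mul_sq` with `‖e_k‖ / √binom` and `√binom ‖z‖^k`).
`Nd_eval_scaled`: `z = w / √d`, `(1 + x / d)^d ≤ exp x` (`Real.add_one_le_exp`, `Real.exp_nat_mul`), `x = ‖w‖² ≤ R²`.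
`Nd_scaled`: `(P.comp (C √d * X)).coeff k = P.coeff k * √d^k` (`comp_C_mul_X_coeff`), so `Nd d = ∑_{k ≤ n} ‖p_k‖² d^k / binom(d,k)`; for `d ≥ 2 n`, `k ≤ n`: `binom(d,k) ≥ (d + 1 - k)^k / k! ≥ (d / 2)^k / k!` (`Nat.pow_le_choose`): `d^k / binom(d,k) ≤ 2^k k!`.
`C0 = ∑_{k ≤ n} ‖p_k‖² 2^k k!`.
`scale_sphere`: `Φ = (Homeomorph.mulLeft₀ r hr).onePointCongr`; continuity and density (`Continuous.ext_on`, `OnePoint.denseRange_coe`); at `z : ℂ`: `rat A B (r z) = pt (A (r z)) (B (r z)) = pt (r P z) (Q z)`; if `Q z = 0` both sides are `∞`.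
-/

set_option autoImplicit false

open Filter Topology Polynomial Set

namespace Pool.Agent.H84.BR

open Pool.Agent.H44.Fatou Pool.Agent.H32.BT
open Pool.Agent.H85.LD (Nd)

theorem Nd_nonneg (d : ℕ) (E : ℂ[X]) : 0 ≤ Nd d E :=
  Finset.sum_nonneg fun _ _ => by positivity

theorem Nd_eval (d : ℕ) {E : ℂ[X]} (hE : E.natDegree ≤ d) (z : ℂ) :
    ‖E.eval z‖ ^ 2 ≤ Nd d E * (1 + ‖z‖ ^ 2) ^ d := by
  have h1 : ‖E.eval z‖ ≤ ∑ k ∈ Finset.range (d + 1), ‖E.coeff k‖ * ‖z‖ ^ k := by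
    rw [eval_eq_sum_range' (Nat.lt_succ_of_le hE)]
    refine (norm_sum_le _ _).trans (le_of_eq ?_)
    refine Finset.sum_congr rfl fun k _ => ?_
    rw [norm_mul, norm_pow]
  have h2 : (∑ k ∈ Finset.range (d + 1), ‖E.coeff k‖ * ‖z‖ ^ k) ^ 2 ≤
      (∑ k ∈ Finset.range (d + 1), ‖E.coeff k‖ ^ 2 / (d.choose k : ℝ)) *
        ∑ k ∈ Finset.range (d + 1), (‖z‖ ^ 2) ^ k * 1 ^ (d - k) * (d.choose k : ℝ) := by
    refine Finset.sum_sq_le_sum_mul_sum_of_sq_le_mul _ (fun k _ => by positivity)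
      (fun k _ => by positivity) fun k hk => ?_
    have h3 : (0 : ℝ) < (d.choose k : ℝ) := by
      exact_mod_cast Nat.choose_pos (Nat.lt_succ_iff.1 (Finset.mem_range.1 hk))
    refine le_of_eq ?_
    field_simp
    ring
  rw [← add_pow] at h2
  calc ‖E.eval z‖ ^ 2 ≤ (∑ k ∈ Finset.range (d + 1), ‖E.coeff k‖ * ‖z‖ ^ k) ^ 2 := by gcongr
    _ ≤ _ := h2
    _ = Nd d E * (1 + ‖z‖ ^ 2) ^ d := by rw [add_comm (‖z‖ ^ 2) 1]; rfl

theorem Nd_eval_scaled {d : ℕ} (hd : 1 ≤ d) {E : ℂ[X]} (hE : E.natDegree ≤ d) {R : ℝ} {w : ℂ} (hw : ‖w‖ ≤ R) :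
    ‖E.eval (w / (Real.sqrt d : ℂ))‖ ^ 2 ≤ Nd d E * Real.exp (R ^ 2) := by
  have hd0 : (0 : ℝ) < d := by exact_mod_cast hd
  refine (Nd_eval d hE _).trans (mul_le_mul_of_nonneg_left ?_ (Nd_nonneg d E))
  have h1 : ‖w / (Real.sqrt d : ℂ)‖ ^ 2 = ‖w‖ ^ 2 / d := by
    rw [norm_div, Complex.norm_real, Real.norm_of_nonneg (Real.sqrt_nonneg _), div_pow,
      Real.sq_sqrt hd0.le]
  rw [h1]
  have h2 : 1 + ‖w‖ ^ 2 / d ≤ Real.exp (‖w‖ ^ 2 / d) := by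
    rw [add_comm]
    exact Real.add_one_le_exp _
  calc (1 + ‖w‖ ^ 2 / d) ^ d ≤ Real.exp (‖w‖ ^ 2 / d) ^ d := by gcongr
    _ = Real.exp (‖w‖ ^ 2) := by
      rw [← Real.exp_nat_mul]
      congr 1
      field_simp
    _ ≤ Real.exp (R ^ 2) := by
      apply Real.exp_le_exp.2
      have := norm_nonneg w
      gcongr

theorem Nd_scaled {n : ℕ} {P : ℂ[X]} (hP : P.natDegree ≤ n) : ∃ C0 : ℝ, 0 < C0 ∧ ∀ d : ℕ, 1 ≤ d → 2 * n ≤ d →
    Nd d (P.comp (C (Real.sqrt d : ℂ) * X)) ≤ C0 := by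
  refine ⟨1 + ∑ k ∈ Finset.range (n + 1), ‖P.coeff k‖ ^ 2 * (2 ^ k * (k.factorial : ℝ)), ?_,
    fun d hd hnd => ?_⟩
  · have : 0 ≤ ∑ k ∈ Finset.range (n + 1), ‖P.coeff k‖ ^ 2 * (2 ^ k * (k.factorial : ℝ)) :=
      Finset.sum_nonneg fun _ _ => by positivity
    linarith
  have hd0 : (0 : ℝ) < d := by exact_mod_cast hd
  have h1 : Nd d (P.comp (C (Real.sqrt d : ℂ) * X)) =
      ∑ k ∈ Finset.range (d + 1), ‖P.coeff k‖ ^ 2 * ((d : ℝ) ^ k / (d.choose k : ℝ)) := by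
    refine Finset.sum_congr rfl fun k _ => ?_
    rw [comp_C_mul_X_coeff, norm_mul, norm_pow, Complex.norm_real,
      Real.norm_of_nonneg (Real.sqrt_nonneg _), mul_pow, ← pow_mul, mul_comm k 2, pow_mul,
      Real.sq_sqrt hd0.le, mul_div_assoc]
  have h2 : ∑ k ∈ Finset.range (d + 1), ‖P.coeff k‖ ^ 2 * ((d : ℝ) ^ k / (d.choose k : ℝ)) =
      ∑ k ∈ Finset.range (n + 1), ‖P.coeff k‖ ^ 2 * ((d : ℝ) ^ k / (d.choose k : ℝ)) := by
    symm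
    refine Finset.sum_subset (fun k hk => ?_) fun k _ hk => ?_
    · have := Finset.mem_range.1 hk
      exact Finset.mem_range.2 (by omega)
    · have h3 : n < k := by
        by_contra hc
        exact hk (Finset.mem_range.2 (by omega))
      rw [coeff_eq_zero_of_natDegree_lt (lt_of_le_of_lt hP h3)]
      simp
  rw [h1, h2]
  have h3 : ∑ k ∈ Finset.range (n + 1), ‖P.coeff k‖ ^ 2 * ((d : ℝ) ^ k / (d.choose k : ℝ)) ≤
      ∑ k ∈ Finset.range (n + 1), ‖P.coeff k‖ ^ 2 * (2 ^ k * (k.factorial : ℝ)) := by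
    refine Finset.sum_le_sum fun k hk => mul_le_mul_of_nonneg_left ?_ (by positivity)
    have hkn : k ≤ n := Nat.lt_succ_iff.1 (Finset.mem_range.1 hk)
    have hkd : k ≤ d := by omega
    have h4 : (0 : ℝ) < (d.choose k : ℝ) := by exact_mod_cast Nat.choose_pos hkd
    have h5 : ((d + 1 - k : ℕ) ^ k : ℝ) / (k.factorial : ℝ) ≤ (d.choose k : ℝ) :=
      Nat.pow_le_choose k d
    rw [div_le_iff₀ (by positivity)] at h5
    have h6 : (d : ℝ) ≤ 2 * ((d + 1 - k : ℕ) : ℝ) := by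
      have h7 : d ≤ 2 * (d + 1 - k) := by omega
      exact_mod_cast h7
    rw [div_le_iff₀ h4]
    calc (d : ℝ) ^ k ≤ (2 * ((d + 1 - k : ℕ) : ℝ)) ^ k := by gcongr
      _ = 2 ^ k * ((d + 1 - k : ℕ) : ℝ) ^ k := mul_pow _ _ _
      _ ≤ 2 ^ k * ((d.choose k : ℝ) * (k.factorial : ℝ)) := by
        apply mul_le_mul_of_nonneg_left h5 (by positivity)
      _ = 2 ^ k * (k.factorial : ℝ) * (d.choose k : ℝ) := by ring
  linarith

theorem scale_sphere {r : ℂ} (hr : r ≠ 0) {P Q A B : ℂ[X]} (h : IsCoprime P Q) (h' : IsCoprime A B)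
    (hA : ∀ z, A.eval (r * z) = r * P.eval z) (hB : ∀ z, B.eval (r * z) = Q.eval z) :
    HypMap (rat A B) ↔ HypMap (rat P Q) := by
  set Φ : OnePoint ℂ ≃ₜ OnePoint ℂ := (Homeomorph.mulLeft₀ r hr).onePointCongr with hΦ
  have hco : ∀ z : ℂ, Φ (z : OnePoint ℂ) = ((r * z : ℂ) : OnePoint ℂ) := fun z => rfl
  have hin : Φ OnePoint.infty = OnePoint.infty := rfl
  refine hypMap_conj Φ fun x => ?_
  have h1 : Continuous fun x => rat A B (Φ x) := (rat_continuous h').comp Φ.continuous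
  have h2 : Continuous fun x => Φ (rat P Q x) := Φ.continuous.comp (rat_continuous h)
  refine congrFun (Continuous.ext_on OnePoint.denseRange_coe h1 h2 ?_) x
  rintro _ ⟨z, rfl⟩
  show rat A B (Φ (z : OnePoint ℂ)) = Φ (rat P Q (z : OnePoint ℂ))
  rw [hco, rat_coe, rat_coe, hA, hB]
  unfold pt
  by_cases hq : Q.eval z = 0
  · rw [if_pos hq, if_pos hq, hin]
  · rw [if_neg hq, if_neg hq, hco, mul_div_assoc]

end Pool.Agent.H84.BR
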