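import Pool.Agent.H84.BR.Rat

/-!
[H84 BR CNJ]  BARRIER, chapter VI: the new rational map is conjugate to `Gs` on the sphere.

`conj_sphere`: both sides are continuous in `x` (`rat_continuous` for the coprime pair `(a, Bh φ Q)`, `Gs_cont`, `Homeomorph.onePointCongr`), so by `Continuous.ext_on` with the dense set `range (↑)` (`OnePoint.denseRange_coe`) it is
enough to consider `x = z : ℂ`. `φ.onePointCongr z = φ z` (definition, `rfl` or `OnePoint.map_some`). If `Q z = 0`: `Gs z = ∞`, `(Bh φ Q).eval (φ z) = 0` (`Bh_root`), so `rat .. (φ z) = pt _ 0 = ∞`. If `Q z ≠ 0`: `(Bh φ Q).eval (φ z) ≠ 0`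
(`Bh_root`, `φ` injective), so `φ (G z) = a (φ z) / Bh (φ z)` (the hypothesis at `w = φ z`, `φ.symm_apply_apply`), `rat_coe_of_ne`.
-/

set_option autoImplicit false

open Filter Topology Polynomial Set ComplexConjugate
open scoped ContDiff

namespace Pool.Agent.H84.BR

open Pool.Agent.H44.Fatou Pool.Agent.H32.BT Pool.Agent.H73.BR

variable {n : ℕ} {P Q A' B' : ℂ[X]} {A : Set (OnePoint ℂ)} {u : ℂ → ℝ} {s : ℝ → ℝ} {δ ρ : ℝ} {φ : ℂ ≃ₜ ℂ}

theorem conj_sphere (hG : GD n P Q A) (h : Cfg n P Q A u A' B' s δ) {a : ℂ[X]} (hcop : IsCoprime a (Bh φ Q))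
    (ha : ∀ w : ℂ, (Bh φ Q).eval w ≠ 0 → φ (Gf P Q A' B' u s (φ.symm w)) * (Bh φ Q).eval w = a.eval w)
    (x : OnePoint ℂ) : rat a (Bh φ Q) (φ.onePointCongr x) = φ.onePointCongr (Gs P Q A' B' u s x) := by
  have hc1 : Continuous fun x : OnePoint ℂ => rat a (Bh φ Q) (φ.onePointCongr x) :=
    (rat_continuous hcop).comp φ.onePointCongr.continuous
  have hc2 : Continuous fun x : OnePoint ℂ => φ.onePointCongr (Gs P Q A' B' u s x) :=
    φ.onePointCongr.continuous.comp (Gs_cont h)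
  have key : (fun x : OnePoint ℂ => rat a (Bh φ Q) (φ.onePointCongr x)) =
      fun x : OnePoint ℂ => φ.onePointCongr (Gs P Q A' B' u s x) := by
    refine Continuous.ext_on (OnePoint.denseRange_coe (X := ℂ)) hc1 hc2 ?_
    rintro _ ⟨z, rfl⟩
    show rat a (Bh φ Q) ((φ z : ℂ) : OnePoint ℂ) = φ.onePointCongr
      (if Q.eval z = 0 then OnePoint.infty else (Gf P Q A' B' u s z : OnePoint ℂ))
    by_cases hQ : Q.eval z = 0
    · have h1 : (Bh φ Q).eval (φ z) = 0 := (Bh_root hG φ (φ z)).2 ⟨z, hQ, rfl⟩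
      rw [if_pos hQ, rat_coe, pt, if_pos h1]
      rfl
    · have h1 : (Bh φ Q).eval (φ z) ≠ 0 := by
        intro h2
        obtain ⟨b, hb, hzb⟩ := (Bh_root hG φ (φ z)).1 h2
        exact hQ (by rw [φ.injective hzb]; exact hb)
      have h2 := ha (φ z) h1
      rw [φ.symm_apply_apply] at h2
      rw [if_neg hQ, rat_coe_of_ne h1, ← h2, mul_div_cancel_right₀ _ h1]
      rfl
  exact congrFun key x

end Pool.Agent.H84.BR
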