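import Pool.Agent.H84.BR.Cfg

/-!
[H84 BR GST]  BARRIER, chapter IV: first properties of the modified map `G = T + s(u) (g - T)`.

`U1_sub`: `closure (U1 u) ⊆ {u = 1} ⊆ support u ⊆ tsupport u` (`{u = 1}` is closed, `interior_subset`). `pole_off`: a zero of `Q` is in `interior A`
(`GD.pole`), points of `tsupport u` are not in `A`. `G_off`: near `z ∉ tsupport u` (open set) `u = 0` and `s 0 = 0` (`Cfg.s0.self_of_nhds`). `G_on`: on the
open set `U1 u` `u = 1`, `s 1 = 1`. `G_smooth`: at `z ∈ tsupport u` both quotients are smooth over `ℝ` (`B' ≠ 0` by `Cfg.den`, `Q ≠ 0`; `Polynomial.differentiable`,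
restriction of scalars: e.g. `ContDiff ℂ` of polynomial functions and `ContDiffAt.restrict_scalars`), `s ∘ u` smooth, `Complex.ofRealCLM`; at `z ∉ tsupport u` use
`G_off`. `G_holo`: at a point of `U1 u` `G` is differentiable over `ℂ` with derivative `deriv (Tf A' B') z`.
`Gs_ent`: `z ∉ U1 u`. If `z ∈ tsupport u`: `Q z ≠ 0` and `Cfg.ent`. If not: `G z = T z` (`Q z ≠ 0`), `Gs z = rat P Q z` in all cases (at a pole both are `∞`),
and `rat P Q z ∈ interior A`, because otherwise `u = 1` near `z` (`U0.one1`), so `z ∈ U1 u`. `Gs_A`: points of `A` are not in `tsupport u` (so `Gs = rat P Q` there; at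
`∞` by definition), `Trap.maps`.
`Gs_eq`: `Gs` agrees with `rat P Q` at all points which are not in `(↑) '' tsupport u`, an open set containing `∞` (`tsupport u` is compact).
`Gs_cont`: on that open set `Gs = rat P Q` (`rat_continuous`); at `z ∈ tsupport u`: `Q ≠ 0` near `z`, so `Gs = (↑) ∘ G` near `z`, `G_smooth` gives continuity;
`continuousAt_coe` for `OnePoint`.
-/

set_option autoImplicit false

open Filter Topology Polynomial Set ComplexConjugate
open scoped ContDiff

namespace Pool.Agent.H84.BR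

open Pool.Agent.H44.Fatou Pool.Agent.H32.BT Pool.Agent.H73.BR

theorem U1_sub (u : ℂ → ℝ) (hu : Continuous u) :
    U1 u ⊆ tsupport u ∧ closure (U1 u) ⊆ tsupport u ∧ ∀ z ∈ closure (U1 u), u z = 1 := by
  have hc : IsClosed {z | u z = 1} := isClosed_eq hu continuous_const
  have h1 : closure (U1 u) ⊆ {z | u z = 1} := closure_minimal interior_subset hc
  have h2 : {z | u z = 1} ⊆ tsupport u := fun z hz => subset_tsupport u (by
    rw [Function.mem_support, show u z = 1 from hz]; exact one_ne_zero)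
  exact ⟨interior_subset.trans h2, h1.trans h2, fun z hz => h1 hz⟩

variable {n : ℕ} {P Q A' B' : ℂ[X]} {A : Set (OnePoint ℂ)} {u : ℂ → ℝ} {s : ℝ → ℝ} {δ : ℝ}

theorem pole_off (h : Cfg n P Q A u A' B' s δ) {z : ℂ} (hz : z ∈ tsupport u) : Q.eval z ≠ 0 := by
  exact fun h0 => h.u0.off z hz (interior_subset (h.gd.pole z h0))

theorem G_off (h : Cfg n P Q A u A' B' s δ) {z : ℂ} (hz : z ∉ tsupport u) :
    Gf P Q A' B' u s =ᶠ[𝓝 z] Tf P Q := by
  have hs0 : s 0 = 0 := h.s0.self_of_nhds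
  filter_upwards [(isClosed_tsupport u).isOpen_compl.mem_nhds hz] with y hy
  have hy0 : u y = 0 := image_eq_zero_of_notMem_tsupport hy
  unfold Gf
  rw [hy0, hs0]
  simp

theorem G_one (h : Cfg n P Q A u A' B' s δ) {z : ℂ} (hz : u z = 1) : Gf P Q A' B' u s z = Tf A' B' z := by
  have hs1 : s 1 = 1 := h.s1.self_of_nhds
  unfold Gf
  rw [hz, hs1]
  simp

theorem G_on (h : Cfg n P Q A u A' B' s δ) {z : ℂ} (hz : z ∈ U1 u) :
    Gf P Q A' B' u s =ᶠ[𝓝 z] Tf A' B' := by
  filter_upwards [isOpen_interior.mem_nhds hz] with y hy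
  have hy1 : y ∈ {z | u z = 1} := interior_subset hy
  exact G_one h hy1

theorem Tf_holo {P Q : ℂ[X]} {z : ℂ} (hz : Q.eval z ≠ 0) : DifferentiableAt ℂ (Tf P Q) z ∧
    ContDiffAt ℝ ∞ (Tf P Q) z := by
  have hP : ContDiff ℂ ∞ (fun w : ℂ => P.eval w) := by
    simpa using (Polynomial.contDiff_aeval P ∞ : ContDiff ℂ ∞ fun x : ℂ => aeval x P)
  have hQ : ContDiff ℂ ∞ (fun w : ℂ => Q.eval w) := by
    simpa using (Polynomial.contDiff_aeval Q ∞ : ContDiff ℂ ∞ fun x : ℂ => aeval x Q)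
  have h1 : ContDiffAt ℂ ∞ (Tf P Q) z := hP.contDiffAt.div hQ.contDiffAt hz
  exact ⟨(P.differentiable.differentiableAt).div (Q.differentiable.differentiableAt) hz,
    h1.restrict_scalars ℝ⟩

theorem G_smooth (h : Cfg n P Q A u A' B' s δ) {z : ℂ} (hz : Q.eval z ≠ 0) :
    ContDiffAt ℝ ∞ (Gf P Q A' B' u s) z := by
  by_cases hzu : z ∈ tsupport u
  · have h1 : ContDiffAt ℝ ∞ (Tf P Q) z := (Tf_holo hz).2
    have h2 : ContDiffAt ℝ ∞ (Tf A' B') z := (Tf_holo (h.den z hzu)).2
    have h3 : ContDiff ℝ ∞ (fun w : ℂ => ((s (u w) : ℝ) : ℂ)) :=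
      Complex.ofRealCLM.contDiff.comp (h.ssm.comp h.u0.smooth)
    exact h1.add (h3.contDiffAt.mul (h2.sub h1))
  · exact (Tf_holo hz).2.congr_of_eventuallyEq (G_off h hzu)

/-- Wirtinger derivatives of a holomorphic function -/
theorem wirt_holo {f : ℂ → ℂ} {z : ℂ} (hf : DifferentiableAt ℂ f z) : dz f z = deriv f z ∧ dzb f z = 0 := by
  have h0 : fderiv ℝ f z = (fderiv ℂ f z).restrictScalars ℝ := hf.fderiv_restrictScalars ℝ
  have h1 : fderiv ℝ f z 1 = deriv f z := by
    rw [h0, ContinuousLinearMap.coe_restrictScalars', fderiv_apply_one_eq_deriv]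
  have h2 : fderiv ℝ f z Complex.I = Complex.I * deriv f z := by
    rw [h0, ContinuousLinearMap.coe_restrictScalars', fderiv_eq_smul_deriv, smul_eq_mul]
  unfold dz dzb
  rw [h1, h2, ← mul_assoc, Complex.I_mul_I]
  constructor <;> ring

theorem Gs_eq (h : Cfg n P Q A u A' B' s δ) {x : OnePoint ℂ} (hx : ∀ z ∈ tsupport u, x ≠ (z : OnePoint ℂ)) :
    Gs P Q A' B' u s x = rat P Q x := by
  induction x using OnePoint.rec with
  | infty => rfl
  | coe z =>
    have hz : z ∉ tsupport u := fun hz => hx z hz rfl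
    have h1 : Gf P Q A' B' u s z = Tf P Q z := (G_off h hz).self_of_nhds
    show (if Q.eval z = 0 then OnePoint.infty else (Gf P Q A' B' u s z : OnePoint ℂ)) = _
    by_cases hQ : Q.eval z = 0
    · rw [if_pos hQ, rat_coe, pt, if_pos hQ]
    · rw [if_neg hQ, h1, rat_coe, pt, if_neg hQ, Tf]

theorem Gs_coe (h : Cfg n P Q A u A' B' s δ) {z : ℂ} (hz : z ∈ tsupport u) :
    Gs P Q A' B' u s z = (Gf P Q A' B' u s z : OnePoint ℂ) := by
  show (if Q.eval z = 0 then OnePoint.infty else (Gf P Q A' B' u s z : OnePoint ℂ)) = _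
  rw [if_neg (pole_off h hz)]

theorem Gs_ent (h : Cfg n P Q A u A' B' s δ) {z : ℂ} (hz : z ∉ U1 u) : Gs P Q A' B' u s z ∈ interior A := by
  by_cases hzu : z ∈ tsupport u
  · rw [Gs_coe h hzu]
    exact h.ent z hzu hz
  · rw [Gs_eq h (fun w hw hzw => hzu (by rw [OnePoint.coe_injective hzw]; exact hw))]
    by_contra hcon
    exact hz (mem_interior_iff_mem_nhds.2 (h.u0.one1 z hcon))

theorem Gs_A (h : Cfg n P Q A u A' B' s δ) {x : OnePoint ℂ} (hx : x ∈ A) :
    Gs P Q A' B' u s x = rat P Q x ∧ Gs P Q A' B' u s x ∈ interior A := by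
  have h1 : Gs P Q A' B' u s x = rat P Q x :=
    Gs_eq h (fun w hw hxw => h.u0.off w hw (by rw [← hxw]; exact hx))
  exact ⟨h1, by rw [h1]; exact h.gd.trap.maps x hx⟩

theorem Gs_cont (h : Cfg n P Q A u A' B' s δ) : Continuous (Gs P Q A' B' u s) := by
  rw [continuous_iff_continuousAt]
  intro x
  by_cases hx : x ∈ (fun z : ℂ => (z : OnePoint ℂ)) '' tsupport u
  · obtain ⟨z, hz, rfl⟩ := hx
    have hQ : Q.eval z ≠ 0 := pole_off h hz
    show ContinuousAt (Gs P Q A' B' u s) (z : OnePoint ℂ)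
    rw [OnePoint.continuousAt_coe]
    have h1 : ContinuousAt (fun w : ℂ => (Gf P Q A' B' u s w : OnePoint ℂ)) z :=
      OnePoint.continuous_coe.continuousAt.comp (G_smooth h hQ).continuousAt
    refine h1.congr ?_
    filter_upwards [Q.continuous.continuousAt.eventually_ne hQ] with w hw
    show _ = (if Q.eval w = 0 then OnePoint.infty else (Gf P Q A' B' u s w : OnePoint ℂ))
    rw [if_neg hw]
  · have hc : IsClosed ((fun z : ℂ => (z : OnePoint ℂ)) '' tsupport u) :=
      (IsCompact.image h.u0.cpt OnePoint.continuous_coe).isClosed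
    refine ((rat_continuous h.gd.cop).continuousAt).congr ?_
    filter_upwards [hc.isOpen_compl.mem_nhds hx] with y hy
    exact (Gs_eq h (fun w hw hyw => hy ⟨w, hw, hyw.symm⟩)).symm

end Pool.Agent.H84.BR
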