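import Mathlib

/-!
[H84 BR SFN]  BARRIER, chapter IV: the smooth step function. Pure real analysis, independent of the rest.

`exists_s`. Proof. `F = insert 0 (insert 1 S)`, `N` its cardinality, `η = 1 / (8 N)`. For `p ∈ F` let `b p : ContDiffBump p` with `rIn = η`, `rOut = 2 η`: smooth, values in
`[0, 1]`, `1` on `closedBall p η`, `0` outside `ball p (2 η)` (an interval of length `4 η`). `w x = ∏ p ∈ F, (1 - b p x)`: smooth, values in `[0, 1]`, `0` near each `p ∈ F`, and
`w ≥ 1 - ∑ p ∈ F, b p` (`Finset.one_sub_sum_le_prod_one_sub` or induction), so `I = ∫ x in 0..1, w x ≥ 1 - N * 4 η = 1 / 2` (`∫ b p ≤ volume (ball p (2 η)) = 4 η`).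
`ρ x = if 0 < x ∧ x < 1 then w x else 0` is smooth: near `x` with `0 < x < 1` it is `w`; near `0` and `1` it is `0`; near other points `0`. `s x = (∫ t in 0..x, ρ t) / I`. `s` has the derivative
`ρ x / I` at every `x` (continuity of `ρ`, `intervalIntegral.integral_hasDerivAt_right` or `Continuous.deriv_integral`), so `s` is smooth (`contDiff_infty_iff_deriv`) and `0 ≤ deriv s ≤ 2`, monotone;
`s x = 0` for `x ≤ 0` (the integrand is zero), `s x = 1` for `x ≥ 1`; near `p ∈ F` the derivative is `0`, so `s` is constant near `p` (e.g. on a ball: `is_const_of_deriv_eq_zero` on a convex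
set, `Convex.is_const_of_fderivWithin_eq_zero`, or the integral over a small interval is `0`).
-/

set_option autoImplicit false

open Filter Topology Set MeasureTheory
open scoped ContDiff

namespace Pool.Agent.H84.BR

theorem sfn_prod_le {F : Finset ℝ} (g : ℝ → ℝ) (h0 : ∀ p, 0 ≤ g p) (h1 : ∀ p, g p ≤ 1) :
    1 - ∑ p ∈ F, g p ≤ ∏ p ∈ F, (1 - g p) ∧ 0 ≤ ∏ p ∈ F, (1 - g p) ∧ ∏ p ∈ F, (1 - g p) ≤ 1 := by
  classical
  induction F using Finset.induction_on with
  | empty => simp
  | insert a F ha ih =>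
    obtain ⟨i1, i2, i3⟩ := ih
    rw [Finset.sum_insert ha, Finset.prod_insert ha]
    have h2 := h0 a
    have h3 := h1 a
    refine ⟨by nlinarith, mul_nonneg (by linarith) i2, ?_⟩
    exact mul_le_one₀ (by linarith) i2 i3

theorem sfn_w (F : Finset ℝ) (hF : F.Nonempty) : ∃ w : ℝ → ℝ, ContDiff ℝ ∞ w ∧
    (∀ x, 0 ≤ w x ∧ w x ≤ 1) ∧ (∀ p ∈ F, ∀ᶠ y in 𝓝 p, w y = 0) ∧
    1 / 2 ≤ ∫ x in (0 : ℝ)..1, w x := by
  classical
  have hN : (0 : ℝ) < F.card := by exact_mod_cast hF.card_pos
  set η : ℝ := 1 / (8 * F.card) with hη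
  have hη0 : 0 < η := by positivity
  let b : (p : ℝ) → ContDiffBump p := fun p => ⟨η, 2 * η, hη0, by linarith⟩
  have hb0 : ∀ p x, 0 ≤ b p x := fun p x => (b p).nonneg
  have hb1 : ∀ p x, b p x ≤ 1 := fun p x => (b p).le_one
  have hsm : ∀ p, ContDiff ℝ ∞ (b p : ℝ → ℝ) := fun p => (b p).contDiff
  have hint : ∀ p, ∫ x in (0 : ℝ)..1, b p x ≤ 4 * η := by
    intro p
    rw [intervalIntegral.integral_of_le zero_le_one]
    have h1 : ∫ x in Set.Ioc (0 : ℝ) 1, b p x ≤ ∫ x, b p x :=
      setIntegral_le_integral (b p).integrable (Eventually.of_forall (hb0 p))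
    have h2 : ∫ x, b p x ≤ volume.real (Metric.closedBall p (b p).rOut) :=
      (b p).integral_le_measure_closedBall volume
    have h3 : volume.real (Metric.closedBall p (b p).rOut) = 4 * η := by
      rw [Measure.real, Real.volume_closedBall]
      show (ENNReal.ofReal (2 * (2 * η))).toReal = _
      rw [ENNReal.toReal_ofReal (by positivity)]
      ring
    linarith
  refine ⟨fun x => ∏ p ∈ F, (1 - b p x), ?_, ?_, ?_, ?_⟩
  · exact contDiff_prod fun p _ => contDiff_const.sub (hsm p)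
  · intro x
    have := sfn_prod_le (F := F) (fun p => b p x) (fun p => hb0 p x) (fun p => hb1 p x)
    exact ⟨this.2.1, this.2.2⟩
  · intro p hp
    filter_upwards [(b p).eventuallyEq_one] with y hy
    refine Finset.prod_eq_zero hp ?_
    rw [hy]
    simp
  · have hc : ∀ p, Continuous (b p : ℝ → ℝ) := fun p => (hsm p).continuous
    have h1 : ∫ x in (0 : ℝ)..1, (1 - ∑ p ∈ F, b p x) ≤ ∫ x in (0 : ℝ)..1, ∏ p ∈ F, (1 - b p x) := by
      refine intervalIntegral.integral_mono_on zero_le_one ?_ ?_ fun x _ =>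
        (sfn_prod_le (F := F) (fun p => b p x) (fun p => hb0 p x) (fun p => hb1 p x)).1
      · exact (continuous_const.sub (continuous_finsetSum _ fun p _ => hc p)).intervalIntegrable _ _
      · exact (continuous_finsetProd _ fun p _ => continuous_const.sub (hc p)).intervalIntegrable _ _
    have h2 : ∫ x in (0 : ℝ)..1, (1 - ∑ p ∈ F, b p x) = 1 - ∑ p ∈ F, ∫ x in (0 : ℝ)..1, b p x := by
      rw [intervalIntegral.integral_sub (by simp)
        ((continuous_finsetSum _ fun p _ => hc p).intervalIntegrable _ _)]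
      rw [intervalIntegral.integral_finsetSum fun p _ => (hc p).intervalIntegrable _ _]
      simp
    have h3 : ∑ p ∈ F, ∫ x in (0 : ℝ)..1, b p x ≤ ∑ _p ∈ F, 4 * η :=
      Finset.sum_le_sum fun p _ => hint p
    rw [Finset.sum_const, nsmul_eq_mul] at h3
    have h4 : (F.card : ℝ) * (4 * η) = 1 / 2 := by
      rw [hη]
      field_simp
      norm_num
    linarith

theorem exists_s (S : Finset ℝ) : ∃ s : ℝ → ℝ, ContDiff ℝ ∞ s ∧ (∀ x, x ≤ 0 → s x = 0) ∧ (∀ x, 1 ≤ x → s x = 1) ∧
    (∀ x, 0 ≤ s x ∧ s x ≤ 1) ∧ (∀ x, |deriv s x| ≤ 2) ∧ (∀ᶠ y in 𝓝 (0 : ℝ), s y = 0) ∧ (∀ᶠ y in 𝓝 (1 : ℝ), s y = 1) ∧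
    ∀ x ∈ S, ∀ᶠ y in 𝓝 x, s y = s x := by
  classical
  obtain ⟨w, hw, hw01, hwF, hwI⟩ := sfn_w (insert 0 (insert 1 S)) (Finset.insert_nonempty _ _)
  have hw0 : ∀ᶠ y in 𝓝 (0 : ℝ), w y = 0 := hwF 0 (by simp)
  have hw1 : ∀ᶠ y in 𝓝 (1 : ℝ), w y = 0 := hwF 1 (by simp)
  set ρ : ℝ → ℝ := fun x => if 0 < x ∧ x < 1 then w x else 0 with hρdef
  have hρw : ∀ x, w x = 0 → ρ x = 0 := by
    intro x hx
    simp only [hρdef]
    split_ifs
    · exact hx
    · rfl
  have hρF : ∀ p ∈ (insert 0 (insert 1 S) : Finset ℝ), ∀ᶠ y in 𝓝 p, ρ y = 0 := by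
    intro p hp
    filter_upwards [hwF p hp] with y hy using hρw y hy
  have hρ01 : ∀ x, 0 ≤ ρ x ∧ ρ x ≤ 1 := by
    intro x
    simp only [hρdef]
    split_ifs
    · exact hw01 x
    · exact ⟨le_rfl, zero_le_one⟩
  have hρout : ∀ x, x ≤ 0 ∨ 1 ≤ x → ρ x = 0 := by
    intro x hx
    simp only [hρdef]
    rw [if_neg]
    rintro ⟨h1, h2⟩
    rcases hx with h | h <;> linarith
  have hρs : ContDiff ℝ ∞ ρ := by
    rw [contDiff_iff_contDiffAt]
    intro x
    have hz : (ρ =ᶠ[𝓝 x] fun _ => 0) → ContDiffAt ℝ ∞ ρ x := fun h =>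
      contDiffAt_const.congr_of_eventuallyEq h
    rcases lt_trichotomy x 0 with h | h | h
    · refine hz ?_
      filter_upwards [gt_mem_nhds h] with y hy using hρout y (Or.inl hy.le)
    · subst h
      exact hz (hρF 0 (by simp))
    · rcases lt_trichotomy x 1 with h' | h' | h'
      · refine hw.contDiffAt.congr_of_eventuallyEq ?_
        filter_upwards [lt_mem_nhds h, gt_mem_nhds h'] with y hy hy'
        simp only [hρdef]
        rw [if_pos ⟨hy, hy'⟩]
      · subst h'
        exact hz (hρF 1 (by simp))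
      · refine hz ?_
        filter_upwards [lt_mem_nhds h'] with y hy using hρout y (Or.inr hy.le)
  have hρc : Continuous ρ := hρs.continuous
  have hρint : ∀ a b, IntervalIntegrable ρ volume a b := fun a b => hρc.intervalIntegrable a b
  set I := ∫ x in (0 : ℝ)..1, ρ x with hI
  have hI2 : 1 / 2 ≤ I := by
    refine hwI.trans (le_of_eq ?_)
    refine intervalIntegral.integral_congr fun x hx => ?_
    rw [Set.uIcc_of_le zero_le_one] at hx
    simp only [hρdef]
    split_ifs with h
    · rfl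
    · rcases eq_or_lt_of_le hx.1 with h1 | h1
      · rw [← h1]
        exact hw0.self_of_nhds
      · rcases eq_or_lt_of_le hx.2 with h2 | h2
        · rw [h2]
          exact hw1.self_of_nhds
        · exact absurd ⟨h1, h2⟩ h
  have hI0 : 0 < I := by linarith
  set s : ℝ → ℝ := fun x => (∫ t in (0 : ℝ)..x, ρ t) / I with hs
  have hder : ∀ x, HasDerivAt s (ρ x / I) x := fun x =>
    (hρc.integral_hasStrictDerivAt 0 x).hasDerivAt.div_const I
  have hderiv : deriv s = fun x => ρ x / I := funext fun x => (hder x).deriv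
  have hdiff : ∀ a b, s b - s a = (∫ t in a..b, ρ t) / I := by
    intro a b
    rw [hs]
    simp only
    rw [← sub_div, intervalIntegral.integral_interval_sub_left (hρint _ _) (hρint _ _)]
  have hs0 : s 0 = 0 := by simp [hs]
  have hs1 : s 1 = 1 := by
    simp only [hs]
    rw [← hI]
    exact div_self hI0.ne'
  have hzero : ∀ a b, (∀ t ∈ Set.uIcc a b, ρ t = 0) → s b = s a := by
    intro a b h
    have h1 := hdiff a b
    rw [intervalIntegral.integral_congr (g := fun _ => (0 : ℝ)) fun t ht => h t ht] at h1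
    simp only [intervalIntegral.integral_zero, zero_div] at h1
    linarith
  have hle0 : ∀ x, x ≤ 0 → s x = 0 := by
    intro x hx
    rw [← hs0]
    refine hzero 0 x fun t ht => ?_
    rw [Set.uIcc_of_ge hx] at ht
    exact hρout t (Or.inl ht.2)
  have hge1 : ∀ x, 1 ≤ x → s x = 1 := by
    intro x hx
    rw [← hs1]
    refine hzero 1 x fun t ht => ?_
    rw [Set.uIcc_of_le hx] at ht
    exact hρout t (Or.inr ht.1)
  have hmono : Monotone s := by
    refine monotone_of_deriv_nonneg (fun x => (hder x).differentiableAt) fun x => ?_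
    rw [hderiv]
    exact div_nonneg (hρ01 x).1 hI0.le
  have hloc : ∀ p ∈ (insert 0 (insert 1 S) : Finset ℝ), ∀ᶠ y in 𝓝 p, s y = s p := by
    intro p hp
    obtain ⟨r, hr, hr2⟩ := Metric.eventually_nhds_iff_ball.1 (hρF p hp)
    filter_upwards [Metric.ball_mem_nhds p hr] with y hy
    refine hzero p y fun t ht => hr2 t ?_
    have h1 : Set.uIcc p y ⊆ Metric.ball p r := by
      rw [Real.ball_eq_Ioo] at hy ⊢
      exact Set.OrdConnected.uIcc_subset Set.ordConnected_Ioo ⟨by linarith, by linarith⟩ hy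
    exact h1 ht
  refine ⟨s, ?_, hle0, hge1, ?_, ?_, ?_, ?_, ?_⟩
  · rw [contDiff_infty_iff_deriv]
    refine ⟨fun x => (hder x).differentiableAt, ?_⟩
    rw [hderiv]
    exact hρs.div_const I
  · intro x
    constructor
    · rw [← hle0 (min x 0) (min_le_right _ _)]
      exact hmono (min_le_left _ _)
    · rw [← hge1 (max x 1) (le_max_right _ _)]
      exact hmono (le_max_left _ _)
  · intro x
    rw [hderiv]
    simp only
    rw [abs_of_nonneg (div_nonneg (hρ01 x).1 hI0.le), div_le_iff₀ hI0]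
    have := (hρ01 x).2
    linarith
  · have := hloc 0 (by simp)
    rwa [hs0] at this
  · have := hloc 1 (by simp)
    rwa [hs1] at this
  · intro x hx
    exact hloc x (by simp [hx])

end Pool.Agent.H84.BR
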