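import Pool.Agent.H84.BR.Exa
import Pool.Agent.H84.BR.Sfn
import Pool.Agent.H84.BR.Gst

/-!
[H84 BR EXC]  BARRIER, chapter IV: the configuration `Cfg` exists if `A'/B'` is close to `P/Q` on a large disc.

`wirt_G`: Wirtinger derivatives of `G = T + s(u) (g - T)` at a point `z` where `Q ≠ 0`, `B' ≠ 0`, `u` and `s` differentiable:
`dz G = T' + s(u) (g' - T') + s'(u) ∂u (g - T)`, `dzb G = s'(u) ∂̄u (g - T)` with `∂u = dz (fun y => (u y : ℂ)) z`. Proof: `HasFDerivAt ℝ`: `T`, `g` are holomorphic at `z` (`HasDerivAt` restricted to `ℝ`: the real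
derivative is `v ↦ T' v`), `s ∘ u` has the real derivative `s' (u z) • fderiv ℝ u z`; product rule; evaluate at `1` and `I`.
`exists_cfg`. `K = tsupport u` compact, `Q ≠ 0` on `K` (`GD.pole`, `U0.off`). `K0 = K \ U1 u` is compact (`U1 u` open). On `K0`: `T' ≠ 0` (if `(Wr P Q).eval z = 0` then `U0.one2` (as `z ∉ A`) gives
`u = 1` near `z`, i.e. `z ∈ U1 u`; `deriv_Tf`), so `‖T'‖ ≥ τ > 0` by compactness (`K0` empty: trivial, or `τ = 1`). `T z ∈ interior A` for `z ∈ K0` (`U0.one1`, `rat_coe_of_ne`), so by compactness there is `r > 0` with: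
`z ∈ K0`, `‖y - T z‖ ≤ r → (y : OnePoint ℂ) ∈ interior A` (`T '' K0` compact in the open set `(↑) ⁻¹' interior A`: `IsCompact.exists_cthickening_subset_open`). `‖dz u‖, ‖dzb u‖ ≤ L` on `K` (continuity).
Choose `ε` with `ε ≤ r`, `ε + 2 L ε ≤ τ / 2`, `2 L ε ≤ δ τ / 2`, and `η, R` from `quot_close` for `K`, `ε`. Given `A', B'`: `flat_set` with `V = U1 u ⊆ K` gives `S`, `exists_s S` gives `s`. Then on `K0`:
`‖dz G‖ ≥ τ - ε - 2 L ε ≥ τ / 2`, `‖dzb G‖ ≤ 2 L ε ≤ δ τ / 2`, `‖G - T‖ ≤ ε ≤ r`.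
-/

set_option autoImplicit false

open Filter Topology Polynomial Set
open scoped ContDiff

namespace Pool.Agent.H84.BR

open Pool.Agent.H44.Fatou Pool.Agent.H32.BT Pool.Agent.H73.BR

theorem wirt_G {P Q A' B' : ℂ[X]} {u : ℂ → ℝ} {s : ℝ → ℝ} {z : ℂ} (hQ : Q.eval z ≠ 0) (hB : B'.eval z ≠ 0)
    (hu : DifferentiableAt ℝ u z) (hs : DifferentiableAt ℝ s (u z)) :
    dz (Gf P Q A' B' u s) z = deriv (Tf P Q) z + (s (u z) : ℂ) * (deriv (Tf A' B') z - deriv (Tf P Q) z) +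
      ((deriv s (u z) : ℝ) : ℂ) * dz (fun y => (u y : ℂ)) z * (Tf A' B' z - Tf P Q z) ∧
    dzb (Gf P Q A' B' u s) z = ((deriv s (u z) : ℝ) : ℂ) * dzb (fun y => (u y : ℂ)) z * (Tf A' B' z - Tf P Q z) := by
  have hT : HasFDerivAt (𝕜 := ℝ) (Tf P Q) (deriv (Tf P Q) z • (1 : ℂ →L[ℝ] ℂ)) z :=
    ((Tf_holo hQ).1.hasDerivAt).complexToReal_fderiv
  have hg : HasFDerivAt (𝕜 := ℝ) (Tf A' B') (deriv (Tf A' B') z • (1 : ℂ →L[ℝ] ℂ)) z :=
    ((Tf_holo hB).1.hasDerivAt).complexToReal_fderiv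
  have hS : HasFDerivAt (𝕜 := ℝ) (fun y => ((s (u y) : ℝ) : ℂ))
      (Complex.ofRealCLM.comp (deriv s (u z) • fderiv ℝ u z)) z := by
    have h1 : HasFDerivAt (s ∘ u) (deriv s (u z) • fderiv ℝ u z) z :=
      hs.hasDerivAt.comp_hasFDerivAt z hu.hasFDerivAt
    exact (Complex.ofRealCLM.hasFDerivAt (x := s (u z))).comp z h1
  have hU : HasFDerivAt (𝕜 := ℝ) (fun y => (u y : ℂ)) (Complex.ofRealCLM.comp (fderiv ℝ u z)) z :=
    (Complex.ofRealCLM.hasFDerivAt (x := u z)).comp z hu.hasFDerivAt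
  have hG := hT.add (hS.mul (hg.sub hT))
  have hGf : HasFDerivAt (𝕜 := ℝ) (Gf P Q A' B' u s) _ z := hG
  have e1 : ∀ v : ℂ, fderiv ℝ (Gf P Q A' B' u s) z v = deriv (Tf P Q) z * v +
      ((s (u z) : ℂ) * ((deriv (Tf A' B') z - deriv (Tf P Q) z) * v) +
      (Tf A' B' z - Tf P Q z) * (((deriv s (u z) : ℝ) : ℂ) * ((fderiv ℝ u z v : ℝ) : ℂ))) := by
    intro v
    rw [hGf.fderiv]
    simp only [ContinuousLinearMap.add_apply, ContinuousLinearMap.smul_apply,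
      ContinuousLinearMap.sub_apply, ContinuousLinearMap.one_apply, smul_eq_mul,
      ContinuousLinearMap.comp_apply, Complex.ofRealCLM_apply, Complex.ofReal_mul, Pi.sub_apply]
    ring
  have e2 : ∀ v : ℂ, fderiv ℝ (fun y => (u y : ℂ)) z v = ((fderiv ℝ u z v : ℝ) : ℂ) := by
    intro v
    rw [hU.fderiv]
    rfl
  have hI := Complex.I_mul_I
  constructor
  · unfold dz
    rw [e1, e1, e2, e2]
    linear_combination (-(1 / 2 : ℂ)) * (deriv (Tf P Q) z +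
      (s (u z) : ℂ) * (deriv (Tf A' B') z - deriv (Tf P Q) z)) * hI
  · unfold dzb
    rw [e1, e1, e2, e2]
    linear_combination ((1 / 2 : ℂ)) * (deriv (Tf P Q) z +
      (s (u z) : ℂ) * (deriv (Tf A' B') z - deriv (Tf P Q) z)) * hI

theorem exists_cfg0 {n : ℕ} {P Q : ℂ[X]} {A : Set (OnePoint ℂ)} (h : GD0 n P Q A) {u : ℂ → ℝ} (hu : U0 P Q A u) {δ : ℝ}
    (hδ : 0 < δ) (hδ1 : δ < 1) :
    ∃ ε : ℝ, 0 < ε ∧ ∀ A' B' : ℂ[X], IsCoprime A' B' → 2 ≤ max A'.natDegree B'.natDegree →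
      (∀ z ∈ tsupport u, B'.eval z ≠ 0 ∧ ‖Tf A' B' z - Tf P Q z‖ ≤ ε ∧
        ‖deriv (Tf A' B') z - deriv (Tf P Q) z‖ ≤ ε) →
      ∃ s : ℝ → ℝ, Cfg n P Q A u A' B' s δ := by
  have hK : IsCompact (tsupport u) := hu.cpt
  have hQ : ∀ z ∈ tsupport u, Q.eval z ≠ 0 := fun z hz h0 =>
    hu.off z hz (interior_subset (h.pole z h0))
  have hUo : IsOpen (U1 u) := isOpen_interior
  have hK0 : IsCompact (tsupport u \ U1 u) := hK.diff hUo
  have hUK : U1 u ⊆ tsupport u := (U1_sub u hu.smooth.continuous).1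
  -- the derivative of `T` on `K0`
  have hcd : ContinuousOn (fun z => ‖deriv (Tf P Q) z‖) (tsupport u \ U1 u) := by
    have h1 : ContinuousOn (fun z => ‖(Wr P Q).eval z / (Q.eval z) ^ 2‖) (tsupport u \ U1 u) := by
      refine ContinuousOn.norm (ContinuousOn.div (Wr P Q).continuous.continuousOn
        (Q.continuous.pow 2).continuousOn fun z hz => pow_ne_zero 2 (hQ z hz.1))
    refine h1.congr fun z hz => ?_
    show ‖deriv (Tf P Q) z‖ = _
    rw [deriv_Tf (hQ z hz.1)]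
  obtain ⟨τ, hτ, hτ2⟩ := hK0.exists_forall_le' (a := 0) hcd (fun z hz => by
    rw [norm_pos_iff]
    intro h0
    rw [deriv_Tf (hQ z hz.1), div_eq_zero_iff] at h0
    rcases h0 with h0 | h0
    · exact hz.2 (mem_interior_iff_mem_nhds.2 (hu.one2 z (hu.off z hz.1) h0))
    · exact pow_ne_zero 2 (hQ z hz.1) h0)
  -- the values of `T` on `K0`
  have hTc : ContinuousOn (Tf P Q) (tsupport u \ U1 u) :=
    ContinuousOn.div P.continuous.continuousOn Q.continuous.continuousOn fun z hz => hQ z hz.1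
  have hΩ : IsOpen ((fun y : ℂ => (y : OnePoint ℂ)) ⁻¹' interior A) :=
    isOpen_interior.preimage OnePoint.continuous_coe
  have hTK : Tf P Q '' (tsupport u \ U1 u) ⊆ (fun y : ℂ => (y : OnePoint ℂ)) ⁻¹' interior A := by
    rintro _ ⟨z, hz, rfl⟩
    show (Tf P Q z : OnePoint ℂ) ∈ interior A
    have h1 : rat P Q z = (Tf P Q z : OnePoint ℂ) := by
      rw [rat_coe, pt, if_neg (hQ z hz.1), Tf]
    rw [← h1]
    by_contra hcon
    exact hz.2 (mem_interior_iff_mem_nhds.2 (hu.one1 z hcon))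
  obtain ⟨r, hr, hr2⟩ := (hK0.image_of_continuousOn hTc).exists_cthickening_subset_open hΩ hTK
  -- bounds for the derivatives of `u`
  have hUs : ContDiff ℝ ∞ (fun y : ℂ => (u y : ℂ)) := Complex.ofRealCLM.contDiff.comp hu.smooth
  have hfc : ∀ v : ℂ, Continuous fun z => fderiv ℝ (fun y : ℂ => (u y : ℂ)) z v := fun v =>
    (hUs.continuous_fderiv (by simp)).clm_apply continuous_const
  have hdc : Continuous (dz (fun y : ℂ => (u y : ℂ))) := by
    unfold dz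
    exact ((hfc 1).sub (continuous_const.mul (hfc Complex.I))).div_const 2
  have hdbc : Continuous (dzb (fun y : ℂ => (u y : ℂ))) := by
    unfold dzb
    exact ((hfc 1).add (continuous_const.mul (hfc Complex.I))).div_const 2
  obtain ⟨L1, hL1⟩ := hK.exists_bound_of_continuousOn hdc.continuousOn
  obtain ⟨L2, hL2⟩ := hK.exists_bound_of_continuousOn hdbc.continuousOn
  obtain ⟨L, hL⟩ : ∃ L : ℝ, L = |L1| + |L2| := ⟨_, rfl⟩
  have hL0 : 0 ≤ L := by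
    rw [hL]
    positivity
  have hLa : ∀ z ∈ tsupport u, ‖dz (fun y : ℂ => (u y : ℂ)) z‖ ≤ L := fun z hz => by
    have h1 := hL1 z hz
    have h2 := le_abs_self L1
    have h3 := abs_nonneg L2
    rw [hL]
    linarith
  have hLb : ∀ z ∈ tsupport u, ‖dzb (fun y : ℂ => (u y : ℂ)) z‖ ≤ L := fun z hz => by
    have h1 := hL2 z hz
    have h2 := le_abs_self L2
    have h3 := abs_nonneg L1
    rw [hL]
    linarith
  obtain ⟨ε, hε⟩ : ∃ ε : ℝ, ε = min r (δ * τ / (2 * (2 * L + 1))) := ⟨_, rfl⟩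
  have hε0 : 0 < ε := by
    rw [hε]
    exact lt_min hr (by positivity)
  have hεr : ε ≤ r := by
    rw [hε]
    exact min_le_left _ _
  have hε2 : (2 * L + 1) * ε ≤ δ * τ / 2 := by
    have h1 : ε ≤ δ * τ / (2 * (2 * L + 1)) := by
      rw [hε]
      exact min_le_right _ _
    calc (2 * L + 1) * ε ≤ (2 * L + 1) * (δ * τ / (2 * (2 * L + 1))) :=
          mul_le_mul_of_nonneg_left h1 (by positivity)
      _ = δ * τ / 2 := by
          field_simp
  have hδτ : δ * τ / 2 ≤ τ / 2 := by nlinarith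
  refine ⟨ε, hε0, ?_⟩
  intro A' B' hcop hdeg hc
  obtain ⟨S, hS⟩ := flat_set hcop hdeg (V := U1 u) (fun z hz => (hc z (hUK hz)).1) u
  obtain ⟨s, hs1, hs2, hs3, hs4, hs5, hs6, hs7, hs8⟩ := exists_s S
  have hsb : ∀ x, ‖((s x : ℝ) : ℂ)‖ ≤ 1 := by
    intro x
    rw [Complex.norm_real, Real.norm_eq_abs, abs_le]
    have := hs4 x
    constructor <;> linarith
  refine ⟨s, ⟨h, hu, hcop, hdeg, hs1, hs6, hs7, hδ, hδ1, fun z hz => (hc z hz).1, ?_, ?_, ?_⟩⟩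
  · intro z hz hz1
    obtain ⟨hB, hg1, hg2⟩ := hc z hz
    obtain ⟨e1, e2⟩ := wirt_G (P := P) (A' := A') (hQ z hz) hB
      (hu.smooth.differentiable (by simp) z) (hs1.differentiable (by simp) (u z))
    have hds : ‖((deriv s (u z) : ℝ) : ℂ)‖ ≤ 2 := by
      rw [Complex.norm_real, Real.norm_eq_abs]
      exact hs5 _
    have hcross : ∀ a : ℂ, ‖a‖ ≤ L →
        ‖((deriv s (u z) : ℝ) : ℂ) * a * (Tf A' B' z - Tf P Q z)‖ ≤ 2 * L * ε := by
      intro a ha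
      rw [norm_mul, norm_mul]
      exact mul_le_mul (mul_le_mul hds ha (norm_nonneg _) (by norm_num)) hg1 (norm_nonneg _)
        (by positivity)
    have h1 := hcross _ (hLa z hz)
    have h2 := hcross _ (hLb z hz)
    have h3 : ‖(s (u z) : ℂ) * (deriv (Tf A' B') z - deriv (Tf P Q) z)‖ ≤ ε := by
      rw [norm_mul]
      calc ‖(s (u z) : ℂ)‖ * ‖deriv (Tf A' B') z - deriv (Tf P Q) z‖ ≤ 1 * ε :=
            mul_le_mul (hsb _) hg2 (norm_nonneg _) zero_le_one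
        _ = ε := one_mul _
    have h4 : τ ≤ ‖deriv (Tf P Q) z‖ := hτ2 z ⟨hz, hz1⟩
    have h5 : τ / 2 ≤ ‖dz (Gf P Q A' B' u s) z‖ := by
      rw [e1]
      have h6 := norm_sub_le_norm_add (deriv (Tf P Q) z)
        ((s (u z) : ℂ) * (deriv (Tf A' B') z - deriv (Tf P Q) z) +
          ((deriv s (u z) : ℝ) : ℂ) * dz (fun y => (u y : ℂ)) z * (Tf A' B' z - Tf P Q z))
      have h7 := norm_add_le ((s (u z) : ℂ) * (deriv (Tf A' B') z - deriv (Tf P Q) z))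
        (((deriv s (u z) : ℝ) : ℂ) * dz (fun y => (u y : ℂ)) z * (Tf A' B' z - Tf P Q z))
      rw [← add_assoc] at h6
      linarith
    have h8 : ‖dzb (Gf P Q A' B' u s) z‖ ≤ δ * τ / 2 := by
      rw [e2]
      linarith
    refine ⟨?_, ?_⟩
    · rw [← norm_pos_iff]
      linarith
    · refine h8.trans ?_
      have h9 := mul_le_mul_of_nonneg_left h5 hδ.le
      linarith
  · intro z hz hz1
    obtain ⟨hB, hg1, -⟩ := hc z hz
    refine hr2 (Metric.mem_cthickening_of_dist_le _ (Tf P Q z) _ _ ⟨z, ⟨hz, hz1⟩, rfl⟩ ?_)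
    rw [dist_eq_norm]
    have h1 : Gf P Q A' B' u s z - Tf P Q z = (s (u z) : ℂ) * (Tf A' B' z - Tf P Q z) := by
      unfold Gf
      ring
    rw [h1, norm_mul]
    calc ‖(s (u z) : ℂ)‖ * ‖Tf A' B' z - Tf P Q z‖ ≤ 1 * ε :=
          mul_le_mul (hsb _) hg1 (norm_nonneg _) zero_le_one
      _ ≤ r := by linarith
  · intro c hc1 hc2 k hk1 hk2
    exact hs8 _ (hS c hc1 hc2 k hk1 hk2)

theorem exists_cfg {n : ℕ} {P Q : ℂ[X]} {A : Set (OnePoint ℂ)} (h : GD0 n P Q A) {u : ℂ → ℝ} (hu : U0 P Q A u) {δ : ℝ}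
    (hδ : 0 < δ) (hδ1 : δ < 1) :
    ∃ η R : ℝ, 0 < η ∧ ∀ A' B' : ℂ[X], IsCoprime A' B' → 2 ≤ max A'.natDegree B'.natDegree →
      (∀ w : ℂ, ‖w‖ ≤ R → ‖A'.eval w - P.eval w‖ ≤ η ∧ ‖B'.eval w - Q.eval w‖ ≤ η) →
      ∃ s : ℝ → ℝ, Cfg n P Q A u A' B' s δ := by
  obtain ⟨ε, hε, H⟩ := exists_cfg0 h hu hδ hδ1
  obtain ⟨η, R, hη, hcl⟩ := quot_close (show IsCompact (tsupport u) from hu.cpt) (fun z hz h0 =>
    hu.off z hz (interior_subset (h.pole z h0))) hε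
  exact ⟨η, R, hη, fun A' B' hcop hdeg hclose => H A' B' hcop hdeg (hcl A' B' hclose)⟩

end Pool.Agent.H84.BR
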