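import Pool.Agent.H84.BR.Gst

/-!
[H84 BR HYP]  BARRIER, chapter VI: the modified map `Gs` is hyperbolic.

`att_trap` (topology only): `T`, `G` continuous, `Trap T A`, `G = T` on `A`. For `x ∈ A`: `Att T x` gives a sink `z`, `n` of `T` with `T^[n * k] x → z`. The `T`-orbit of `x` stays in `A` and `G^[j] x = T^[j] x` for all `j` (induction). `z ∈ A` (closed),
`z = T^[n] z ∈ interior A` (`n ≥ 1`, `Trap.maps`, all `T^[j] z ∈ A`). `IsSink G z n`: `G^[n] z = T^[n] z = z`; on the neighbourhood `U ∩ interior A` (`U` from `IsSink T z n`) `G^[n * k] w = T^[n * k] w → z`.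
`hyp_glue` (topology only): `f`, `G` continuous, `V` open; (1) `G x = f x` for `x ∈ closure V`; (2) `G x ∈ interior A` for `x ∉ V`; (3) `V ∩ A = ∅`; (4) all `x ∈ A` satisfy `Att G x`; (5) stability of the sinks of `f`; `HypMap f`. Then `HypMap G`.
Proof. Let `c` be critical for `G`. If some `G^[j] c ∉ V` then `G^[j + 1] c ∈ A`, `Att G (G^[j + 1] c)`, so `Att G c` (`att_iter`). Otherwise all `G^[j] c ∈ V`, so `G^[j] c = f^[j] c` for all `j`; `c ∈ V` open and `G = f` on `V`, so `c` is critical for `f`;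
`HypMap f` gives `IsSink f z n`, `f^[n * k] c → z`. Claim: `p_i = f^[i] z ∈ V` for all `i`: `f^[n * k + i] c → p_i` (continuity of `f^[i]`), all terms in `V`, so `p_i ∈ closure V`. If `p_i ∉ V` then `f p_i = G p_i ∈ interior A` by (1), (2), but `f p_i = lim f^[n * k + i + 1] c`
is a limit of points of `V`, and `V ∩ interior A = ∅` with `interior A` open: contradiction. So `N = {w | ∀ i < n, f^[i] w ∈ V}` is a neighbourhood of `z` (finite intersection); stability (5) gives `W ∈ 𝓝 z` with `f^[n * k] w ∈ N` for all `w ∈ W`, `k`: all `f^[j] w ∈ V`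
(`j = n * k + i`), so `G^[j] w = f^[j] w` for all `j`. With `U` from `IsSink f z n`: on `U ∩ W` `G^[n * k] w = f^[n * k] w → z`; `G^[n] z = f^[n] z = z` (as `f^[i] z ∈ V`). So `IsSink G z n`, and `G^[n * k] c = f^[n * k] c → z`.
`hyp_Gs`: `f = rat A' B'` (`rat_continuous`), `V = (↑) '' U1 u` open (`isOpenEmbedding_coe`). (1) `closure V ⊆ (↑) '' closure (U1 u)` (`closure (U1 u)` is compact, so its image is closed), and for `z ∈ closure (U1 u)`: `z ∈ tsupport u`, `u z = 1` (`U1_sub`), `Gs z = G z = g z` (`Gs_coe`, `G_one`) and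
`rat A' B' z = g z` (`Cfg.den`, `rat_coe_of_ne`). (2) `x = z`, `z ∉ U1 u`: `Gs_ent`; `x = ∞`: `∞ ∈ A`, `Gs_A`. (3) `U1 u ⊆ tsupport u`, `U0.off`. (4) `att_trap` with `T = rat P Q`, `Gs_A`. (5) `sink_stable`, `exists_not_att` for the coprime pair `A', B'` of degree `≥ 2`.
-/

set_option autoImplicit false

open Filter Topology Polynomial Set ComplexConjugate
open scoped ContDiff

namespace Pool.Agent.H84.BR

open Pool.Agent.H44.Fatou Pool.Agent.H32.BT Pool.Agent.H73.BR

theorem att_trap {T G : OnePoint ℂ → OnePoint ℂ} (hT : Continuous T) (hG : Continuous G) {A : Set (OnePoint ℂ)}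
    (hA : Trap T A) (he : ∀ x ∈ A, G x = T x) {x : OnePoint ℂ} (hx : x ∈ A) : Att G x := by
  have hit : ∀ y ∈ A, ∀ j : ℕ, T^[j] y ∈ A ∧ G^[j] y = T^[j] y := by
    intro y hy j
    induction j with
    | zero => exact ⟨hy, rfl⟩
    | succ j ih =>
      rw [Function.iterate_succ_apply', Function.iterate_succ_apply', ih.2]
      exact ⟨interior_subset (hA.maps _ ih.1), he _ ih.1⟩
  obtain ⟨z, n, ⟨hn, hz, U, hU, hU2⟩, ht⟩ := hA.att x hx
  have hzA : z ∈ A := hA.closed.mem_of_tendsto ht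
    (Eventually.of_forall fun k => (hit x hx (n * k)).1)
  have hzi : z ∈ interior A := by
    have h1 : T (T^[n - 1] z) = z := by
      rw [← Function.iterate_succ_apply' T]
      have h2 : (n - 1).succ = n := by omega
      rw [h2, hz]
    rw [← h1]
    exact hA.maps _ (hit z hzA (n - 1)).1
  refine ⟨z, n, ⟨hn, by rw [(hit z hzA n).2, hz], U ∩ interior A,
    inter_mem hU (isOpen_interior.mem_nhds hzi), fun w hw => ?_⟩, ?_⟩
  · refine (hU2 w hw.1).congr fun k => ?_
    rw [(hit w (interior_subset hw.2) (n * k)).2]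
  · refine ht.congr fun k => ?_
    rw [(hit x hx (n * k)).2]

theorem hyp_glue {f G : OnePoint ℂ → OnePoint ℂ} (hf : Continuous f) (hG : Continuous G) {V A : Set (OnePoint ℂ)}
    (hV : IsOpen V) (h1 : ∀ x ∈ closure V, G x = f x) (h2 : ∀ x ∉ V, G x ∈ interior A) (h3 : ∀ x ∈ V, x ∉ A)
    (h4 : ∀ x ∈ A, Att G x)
    (h5 : ∀ (z : OnePoint ℂ) (n : ℕ), IsSink f z n → ∀ N ∈ 𝓝 z, ∃ W ∈ 𝓝 z, ∀ w ∈ W, ∀ k : ℕ, f^[n * k] w ∈ N)
    (hyp : HypMap f) : HypMap G := by
  intro c hc
  by_cases hcase : ∃ j : ℕ, G^[j] c ∉ V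
  · obtain ⟨j, hj⟩ := hcase
    have h6 : G^[j + 1] c ∈ A := by
      rw [Function.iterate_succ_apply']
      exact interior_subset (h2 _ hj)
    exact (att_iter hG c (j + 1)).1 (h4 _ h6)
  · push Not at hcase
    have hit : ∀ w : OnePoint ℂ, (∀ j : ℕ, f^[j] w ∈ V) → ∀ j : ℕ, G^[j] w = f^[j] w := by
      intro w hw j
      induction j with
      | zero => rfl
      | succ j ih =>
        rw [Function.iterate_succ_apply', Function.iterate_succ_apply', ih]
        exact h1 _ (subset_closure (hw j))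
    have hcf : ∀ j : ℕ, f^[j] c = G^[j] c := by
      intro j
      induction j with
      | zero => rfl
      | succ j ih =>
        rw [Function.iterate_succ_apply', Function.iterate_succ_apply', ih]
        exact (h1 _ (subset_closure (hcase j))).symm
    have hcV : ∀ j : ℕ, f^[j] c ∈ V := fun j => by
      rw [hcf]
      exact hcase j
    have hcr : IsCrit f c := by
      rintro ⟨U, hU, hinj⟩
      refine hc ⟨U ∩ V, inter_mem hU (hV.mem_nhds (hcase 0)), ?_⟩
      intro a ha b hb hab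
      rw [h1 a (subset_closure ha.2), h1 b (subset_closure hb.2)] at hab
      exact hinj ha.1 hb.1 hab
    obtain ⟨z, n, hs, ht⟩ := hyp c hcr
    have hti : ∀ i : ℕ, Tendsto (fun k : ℕ => f^[i] (f^[n * k] c)) atTop (𝓝 (f^[i] z)) := fun i =>
      ((hf.iterate i).tendsto z).comp ht
    have hmemV : ∀ i k : ℕ, f^[i] (f^[n * k] c) ∈ V := fun i k => by
      rw [← Function.iterate_add_apply]
      exact hcV _
    have hp : ∀ i : ℕ, f^[i] z ∈ V := by
      intro i
      by_contra hcon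
      have hcl : f^[i] z ∈ closure V :=
        mem_closure_of_tendsto (hti i) (Eventually.of_forall fun k => hmemV i k)
      have h6 : f (f^[i] z) ∈ interior A := by
        rw [← h1 _ hcl]
        exact h2 _ hcon
      rw [← Function.iterate_succ_apply' f] at h6
      obtain ⟨k, hk⟩ := ((hti (i + 1)).eventually (isOpen_interior.mem_nhds h6)).exists
      exact h3 _ (hmemV (i + 1) k) (interior_subset hk)
    have hN : ∀ᶠ w in 𝓝 z, ∀ i ∈ Finset.range n, f^[i] w ∈ V :=
      (Filter.eventually_all_finset _).2 fun i _ =>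
        (hf.iterate i).continuousAt.preimage_mem_nhds (hV.mem_nhds (hp i))
    obtain ⟨W, hW, hW2⟩ := h5 z n hs _ hN
    have hWV : ∀ w ∈ W, ∀ j : ℕ, f^[j] w ∈ V := by
      intro w hw j
      have h6 := hW2 w hw (j / n) (j % n) (Finset.mem_range.2 (Nat.mod_lt _ hs.1))
      rw [← Function.iterate_add_apply, Nat.mod_add_div] at h6
      exact h6
    obtain ⟨hn, hz, U, hU, hU2⟩ := hs
    refine ⟨z, n, ⟨hn, ?_, U ∩ W, inter_mem hU hW, fun w hw => ?_⟩, ?_⟩
    · rw [hit z (hWV z (mem_of_mem_nhds hW)) n, hz]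
    · refine (hU2 w hw.1).congr fun k => ?_
      rw [hit w (hWV w hw.2) (n * k)]
    · refine ht.congr fun k => ?_
      rw [hcf]

theorem hyp_Gs {n : ℕ} {P Q A' B' : ℂ[X]} {A : Set (OnePoint ℂ)} {u : ℂ → ℝ} {s : ℝ → ℝ} {δ : ℝ}
    (h : Cfg n P Q A u A' B' s δ) (hyp : HypMap (rat A' B')) : HypMap (Gs P Q A' B' u s) := by
  obtain ⟨hU1, hU2, hU3⟩ := U1_sub u h.u0.smooth.continuous
  have hVo : IsOpen ((fun z : ℂ => (z : OnePoint ℂ)) '' U1 u) :=
    OnePoint.isOpenEmbedding_coe.isOpenMap _ isOpen_interior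
  refine hyp_glue (rat_continuous h.cop') (Gs_cont h) hVo ?_ ?_ ?_ ?_ ?_ hyp (A := A)
  · intro x hx
    have hcl : IsClosed ((fun z : ℂ => (z : OnePoint ℂ)) '' closure (U1 u)) :=
      ((h.u0.cpt.of_isClosed_subset isClosed_closure hU2).image OnePoint.continuous_coe).isClosed
    obtain ⟨z, hz, rfl⟩ := closure_minimal (image_mono subset_closure) hcl hx
    show Gs P Q A' B' u s (z : OnePoint ℂ) = rat A' B' (z : OnePoint ℂ)
    rw [Gs_coe h (hU2 hz), G_one h (hU3 z hz)]
    exact (rat_coe_of_ne (h.den z (hU2 hz))).symm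
  · intro x hx
    induction x using OnePoint.rec with
    | infty => exact (Gs_A h (interior_subset h.gd.inf)).2
    | coe z => exact Gs_ent h fun hz => hx ⟨z, hz, rfl⟩
  · rintro _ ⟨z, hz, rfl⟩
    exact h.u0.off z (hU1 hz)
  · intro x hx
    exact att_trap (rat_continuous h.gd.cop) (Gs_cont h) h.gd.trap (fun y hy => (Gs_A h hy).1) hx
  · intro z m hs
    exact sink_stable h.cop' (le_trans (by norm_num) h.deg') (exists_not_att h.cop' h.deg') hs

end Pool.Agent.H84.BR
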