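import Pool.Agent.H84.BR.Cfg
import Pool.Agent.H44.Fatou.Coset

/-!
[H84 BR UCU]  BARRIER, chapter IV: existence of the fixed cut-off `u`.

`exists_u`. Proof. `C = {x : OnePoint ℂ | rat P Q x ∉ interior A}` is closed (`rat_continuous`), disjoint from `A` (`Trap.maps`), `∞ ∈ A`, so `K0 = {z : ℂ | rat P Q z ∉ interior A}` is closed and compact
in `ℂ` (`OnePoint.isOpen_compl_image_coe`: `C = (↑) '' K0` as `∞ ∉ C`). `K1 = {z : ℂ | (z : OnePoint ℂ) ∉ A ∧ (Wr P Q).eval z = 0}` is finite (`wr_ne_zero` in H44/Fatou/Coset.lean). `O = {z : ℂ | (z : OnePoint ℂ) ∉ A}`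
is open (`A` closed, `continuous_coe`) and contains the compact set `K0 ∪ K1`. `exists_compact_between`: compact `K2` with `K0 ∪ K1 ⊆ interior K2`, `K2 ⊆ O`. A smooth `u : ℂ → [0, 1]`, `u = 1` near `K0 ∪ K1`,
`u = 0` outside `K2`: `exists_contMDiffMap_one_nhds_of_subset_interior` (with the model `𝓘(ℝ, ℂ)`, `contMDiff_iff_contDiff`). `tsupport u ⊆ K2` (closed), compact.
`u_disc`: the roots of `Q` are in `interior A`; `tsupport u` is compact: a common bound for both sets.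
-/

set_option autoImplicit false

open Filter Topology Polynomial Set
open scoped ContDiff

namespace Pool.Agent.H84.BR

open Pool.Agent.H44.Fatou Pool.Agent.H32.BT

theorem exists_u {n : ℕ} {P Q : ℂ[X]} {A : Set (OnePoint ℂ)} (h : GD0 n P Q A) : ∃ u : ℂ → ℝ, U0 P Q A u := by
  have hcont : Continuous (rat P Q) := rat_continuous h.cop
  have hccoe : Continuous (fun z : ℂ => (z : OnePoint ℂ)) := OnePoint.continuous_coe
  set C : Set (OnePoint ℂ) := {x | rat P Q x ∉ interior A} with hC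
  have hCcl : IsClosed C := by
    have : C = (rat P Q ⁻¹' interior A)ᶜ := rfl
    rw [this]
    exact (isOpen_interior.preimage hcont).isClosed_compl
  have hCcpt : IsCompact C := hCcl.isCompact
  have hinfC : (OnePoint.infty : OnePoint ℂ) ∉ C := by
    rw [hC, Set.mem_ofPred_eq, not_not]
    exact h.trap.maps _ (interior_subset h.inf)
  set K0 : Set ℂ := {z : ℂ | rat P Q (z : OnePoint ℂ) ∉ interior A} with hK0
  have hK0cpt : IsCompact K0 := by
    have e1 : K0 = (fun z : ℂ => (z : OnePoint ℂ)) ⁻¹' C := rfl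
    rw [e1]
    refine (OnePoint.isOpenEmbedding_coe (X := ℂ)).isInducing.isCompact_preimage_iff ?_ |>.2 hCcpt
    intro x hx
    induction x using OnePoint.rec with
    | infty => exact absurd hx hinfC
    | coe z => exact ⟨z, rfl⟩
  have hW : Wr P Q ≠ 0 := wr_ne_zero h.cop (by
    have := h.n2
    rw [h.deg]
    omega)
  set K1 : Set ℂ := {z : ℂ | (z : OnePoint ℂ) ∉ A ∧ (Wr P Q).eval z = 0} with hK1
  have hK1fin : K1.Finite := (Polynomial.finite_setOfPred_isRoot hW).subset fun z hz => hz.2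
  set O : Set ℂ := {z : ℂ | (z : OnePoint ℂ) ∉ A} with hO
  have hOo : IsOpen O := by
    have : O = (fun z : ℂ => (z : OnePoint ℂ)) ⁻¹' Aᶜ := rfl
    rw [this]
    exact h.trap.closed.isOpen_compl.preimage hccoe
  have hsub : K0 ∪ K1 ⊆ O := by
    rintro z (hz | hz)
    · intro hzA
      exact hz (h.trap.maps _ hzA)
    · exact hz.1
  have hcpt : IsCompact (K0 ∪ K1) := hK0cpt.union hK1fin.isCompact
  obtain ⟨K2, hK2, hK2a, hK2b⟩ := exists_compact_between hcpt hOo hsub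
  obtain ⟨f, hf1, hf0, hf01⟩ := exists_contMDiffMap_one_nhds_of_subset_interior
    (n := (⊤ : ℕ∞)) (modelWithCornersSelf ℝ ℂ) hcpt.isClosed hK2a
  have hts : tsupport (f : ℂ → ℝ) ⊆ K2 := by
    refine closure_minimal ?_ hK2.isClosed
    intro x hx
    by_contra hxK
    exact hx (hf0 x hxK)
  refine ⟨f, ?_, ?_, fun z => (hf01 z).1, fun z => (hf01 z).2, fun z hz => hK2b (hts hz), ?_, ?_⟩
  · exact contMDiff_iff_contDiff.1 f.contMDiff
  · exact hK2.of_isClosed_subset (isClosed_tsupport _) hts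
  · intro z hz
    have hz2 : z ∈ K0 ∪ K1 := Or.inl hz
    exact hf1.filter_mono (nhds_le_nhdsSet hz2)
  · intro z hz hz'
    have hz2 : z ∈ K0 ∪ K1 := Or.inr ⟨hz, hz'⟩
    exact hf1.filter_mono (nhds_le_nhdsSet hz2)

theorem u_disc {n : ℕ} {P Q : ℂ[X]} {A : Set (OnePoint ℂ)} (h : GD0 n P Q A) {u : ℂ → ℝ} (hu : U0 P Q A u) :
    ∃ R0 : ℝ, 1 ≤ R0 ∧ (∀ z ∈ tsupport u, ‖z‖ ≤ R0) ∧ ∀ b : ℂ, Q.eval b = 0 → ‖b‖ ≤ R0 := by
  have hQ : Q ≠ 0 := den_ne_zero h.cop (by
    have := h.n2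
    rw [h.deg]
    omega)
  obtain ⟨C1, hC1⟩ := (show IsCompact (tsupport u) from hu.cpt).isBounded.exists_norm_le
  obtain ⟨C2, hC2⟩ := (Polynomial.finite_setOfPred_isRoot hQ).isBounded.exists_norm_le
  refine ⟨max 1 (max C1 C2), le_max_left _ _, fun z hz => ?_, fun b hb => ?_⟩
  · exact (hC1 z hz).trans ((le_max_left _ _).trans (le_max_right _ _))
  · exact (hC2 b hb).trans ((le_max_right _ _).trans (le_max_right _ _))

end Pool.Agent.H84.BR
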