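import Pool.Agent.H84.BR.Coe
import Pool.Agent.H84.BR.Cnj
import Pool.Agent.H84.BR.Hyp
import Pool.Agent.H84.BR.Exc
import Pool.Agent.H84.BR.Ucu

/-!
[H84 BR STG]  BARRIER, chapter VI: the straightening theorem in good coordinates.

`straight`. Given `ε`. `exists_u` gives `u`, `u_disc` gives `R0 ≥ 1`; `R1 = R0 + 2`; `coe_close` with `R1`, `ε` gives `ρ ≤ 1`; `exists_phi` gives `K`. `δ = min (1/2) (min (1 / K) (ρ / (K * R0)))`: `0 < δ < 1`, `K δ ≤ 1`, `K δ R0 ≤ ρ`. `exists_cfg` with `δ` gives `η, R`.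
Given `A', B'` (coprime, degree at least 2, close, hyperbolic): `s` with `Cfg`, `φ` with `Str .. φ (K δ R0)` (`exists_phi`), `a` from `exists_num`. `P' = a`, `Q' = Bh φ Q`: coprime, `natDegree` of `Bh φ Q` is `n`, of `a` at most `n`. `Near`: `coe_close` with `φ` (`‖φ z - z‖ ≤ K δ R0 ≤ ρ`) and: for
`‖w‖ = R1`: `z = φ.symm w` has `‖z‖ ≥ R1 - 1 > R0`, so `z ∉ tsupport u`, `Gf .. z = Tf P Q z` (`G_off`), and `(Bh φ Q).eval w ≠ 0` (`Bh_root`: `w = φ b` gives `z = b`, `‖b‖ ≤ R0`), so the equation of `exists_num` applies.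
`HypMap (rat a (Bh φ Q))`: `hypMap_conj φ.onePointCongr` with `conj_sphere` and `hyp_Gs`.
-/

set_option autoImplicit false

open Filter Topology Polynomial Set ComplexConjugate
open scoped ContDiff

namespace Pool.Agent.H84.BR

open Pool.Agent.H44.Fatou Pool.Agent.H32.BT Pool.Agent.H73.BR

theorem straight {n : ℕ} {P Q : ℂ[X]} {A : Set (OnePoint ℂ)} (h : GD n P Q A) : Straight n P Q := by
  intro ε hε
  obtain ⟨u, hu⟩ := exists_u h.weak
  obtain ⟨R0, hR0, hR0u, hR0b⟩ := u_disc h.weak hu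
  obtain ⟨ρ, hρ, hρ1, hclose⟩ := coe_close h (R1 := R0 + 2) (by linarith)
    (fun b hb => by
      have h1 := hR0b b hb
      linarith) hε
  obtain ⟨K, hK, hphi⟩ := exists_phi
  obtain ⟨δ, hδ⟩ : ∃ δ : ℝ, δ = min (1 / 2) (min (1 / K) (ρ / (K * R0))) := ⟨_, rfl⟩
  have hR00 : 0 < R0 := by linarith
  have hδ0 : 0 < δ := by
    rw [hδ]
    exact lt_min (by norm_num) (lt_min (by positivity) (by positivity))
  have hδ1 : δ < 1 := by
    have h1 : δ ≤ 1 / 2 := by
      rw [hδ]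
      exact min_le_left _ _
    linarith
  have hδK : K * δ ≤ 1 := by
    have h1 : δ ≤ 1 / K := by
      rw [hδ]
      exact (min_le_right _ _).trans (min_le_left _ _)
    rw [le_div_iff₀ hK] at h1
    linarith
  have hδρ : K * δ * R0 ≤ ρ := by
    have h1 : δ ≤ ρ / (K * R0) := by
      rw [hδ]
      exact (min_le_right _ _).trans (min_le_right _ _)
    rw [le_div_iff₀ (by positivity)] at h1
    linarith
  obtain ⟨η, R, hη, hcfg⟩ := exists_cfg h.weak hu hδ0 hδ1
  refine ⟨η, R, hη, fun A' B' hcop hdeg hcl hyp => ?_⟩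
  obtain ⟨s, hs⟩ := hcfg A' B' hcop hdeg hcl
  obtain ⟨φ, hφ⟩ := hphi hs R0 hR00 hR0u hδK
  obtain ⟨a, ha1, ha2, ha3⟩ := exists_num h hs hφ
  refine ⟨a, Bh φ Q, ha2, ?_, ?_, ?_⟩
  · rw [Bh_deg h φ]
    exact max_eq_right ha1
  · refine hclose φ a (fun z => (hφ.near z).trans hδρ) (fun w hw => ?_)
    have hz : R0 < ‖φ.symm w‖ := by
      have h1 := hφ.near (φ.symm w)
      rw [φ.apply_symm_apply] at h1
      have h2 := norm_sub_norm_le w (φ.symm w)
      linarith
    have hzt : φ.symm w ∉ tsupport u := fun hc => absurd (hR0u _ hc) (not_le.2 hz)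
    have hG := (G_off hs hzt).self_of_nhds
    have hB : (Bh φ Q).eval w ≠ 0 := by
      intro h0
      obtain ⟨b, hb, hwb⟩ := (Bh_root h φ w).1 h0
      have h3 : φ.symm w = b := by rw [hwb, φ.symm_apply_apply]
      rw [h3] at hz
      exact absurd (hR0b b hb) (not_le.2 hz)
    have h4 := ha3 w hB
    rw [hG] at h4
    exact h4
  · exact (hypMap_conj φ.onePointCongr (conj_sphere h hs ha2 ha3)).2 (hyp_Gs hs hyp)

end Pool.Agent.H84.BR
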