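import Pool.Agent.H84.BR.Rat

/-!
[H84 BR COE]  BARRIER, chapter V: the new pair `(a, Bh φ Q)` is close to `(P, Q)`.

`prod_near`: the coefficients of `∏ b ∈ S, (X - C (ψ b))` depend continuously on `ψ`: induction on the finite set `S`; `((X - C x) * p).coeff i = p.coeff (i - 1) - x * p.coeff i` (`i ≥ 1`), `- x * p.coeff 0` (`i = 0`); the coefficients of
`p = ∏ b ∈ S, (X - C b)` are bounded. `Bh_near` follows with `Q = Bh id Q` (`Q_prod`): note `id b = b`.
`coeff_circle`: `‖p.coeff k‖ ≤ M / R^k` if `‖p.eval w‖ ≤ M` on `‖w‖ = R`, `R > 0`: Cauchy's estimate (`Complex.norm_iteratedDeriv_le_of_forall_mem_sphere_norm_le` and `coeff k = iteratedDeriv k / k!`), or the discrete mean `∑_j p (R ζ^j) ζ^(-jk) = N R^k p_k`.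
`coe_close`: `R1 ≥ 2`, all roots of `Q` have `‖b‖ ≤ R1 - 2`. `T` is uniformly continuous on the compact annulus `R1 - 1 ≤ ‖z‖ ≤ R1 + 1` (no roots of `Q`). For `ρ ≤ 1` small: on `‖w‖ = R1`, `z = φ.symm w` has `‖z - w‖ ≤ ρ` (`hφ` at `z`), so
`‖φ (T z) - T w‖ ≤ ρ + ‖T z - T w‖ ≤ ε'`; `‖(Bh φ Q).eval w - Q.eval w‖ ≤ ε'` (`Bh_near`, finitely many coefficients); `a w - P w = φ (T z) Bh w - T w Q w` has norm `≤ ε' M + (M + 1) ε'` on the circle; `coeff_circle` for `a - P`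
(`R1 ≥ 1`, so all coefficients are `≤` the maximum on the circle).
-/

set_option autoImplicit false

open Filter Topology Polynomial Set ComplexConjugate
open scoped ContDiff

namespace Pool.Agent.H84.BR

open Pool.Agent.H44.Fatou Pool.Agent.H32.BT Pool.Agent.H73.BR

/-- the coefficients of a polynomial are bounded -/
theorem coe_bd (p : ℂ[X]) : ∃ M : ℝ, 0 ≤ M ∧ ∀ i : ℕ, ‖p.coeff i‖ ≤ M := by
  refine ⟨∑ i ∈ p.support, ‖p.coeff i‖, Finset.sum_nonneg fun _ _ => norm_nonneg _, fun i => ?_⟩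
  by_cases hi : i ∈ p.support
  · exact Finset.single_le_sum (f := fun i => ‖p.coeff i‖) (fun _ _ => norm_nonneg _) hi
  · rw [notMem_support_iff.1 hi, norm_zero]
    exact Finset.sum_nonneg fun _ _ => norm_nonneg _

theorem prod_near (S : Finset ℂ) {ε : ℝ} (hε : 0 < ε) : ∃ ρ : ℝ, 0 < ρ ∧ ∀ ψ : ℂ → ℂ, (∀ b ∈ S, ‖ψ b - b‖ ≤ ρ) →
    ∀ i : ℕ, ‖(∏ b ∈ S, (X - C (ψ b))).coeff i - (∏ b ∈ S, (X - C b)).coeff i‖ < ε := by
  classical
  induction S using Finset.induction_on generalizing ε with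
  | empty => exact ⟨1, one_pos, fun ψ _ i => by simpa using hε⟩
  | insert a S ha ih =>
    obtain ⟨M, hM0, hM⟩ := coe_bd (∏ b ∈ S, (X - C b))
    have hna : 0 ≤ ‖a‖ := norm_nonneg a
    have hε1 : 0 < ε / (3 * (‖a‖ + 2)) := by positivity
    obtain ⟨ρ1, hρ1, h1⟩ := ih hε1
    have hρ2 : 0 < ε / (3 * (M + 1)) := by positivity
    refine ⟨min ρ1 (min 1 (ε / (3 * (M + 1)))), lt_min hρ1 (lt_min one_pos hρ2), ?_⟩
    intro ψ hψ i
    have h2 := h1 ψ fun b hb => (hψ b (Finset.mem_insert_of_mem hb)).trans (min_le_left _ _)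
    have h3 : ‖ψ a - a‖ ≤ min 1 (ε / (3 * (M + 1))) :=
      (hψ a (Finset.mem_insert_self _ _)).trans (min_le_right _ _)
    have h4 : ‖ψ a - a‖ ≤ 1 := h3.trans (min_le_left _ _)
    have h5 : ‖ψ a - a‖ ≤ ε / (3 * (M + 1)) := h3.trans (min_le_right _ _)
    have h6 : ‖ψ a‖ ≤ ‖a‖ + 1 := by
      have h7 : ψ a = a + (ψ a - a) := by ring
      rw [h7]
      exact (norm_add_le _ _).trans (by linarith)
    rw [Finset.prod_insert ha, Finset.prod_insert ha]
    set q : ℂ[X] := ∏ b ∈ S, (X - C (ψ b)) with hq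
    set p : ℂ[X] := ∏ b ∈ S, (X - C b) with hp
    have key : ∀ x : ℂ, ∀ k : ℕ, ‖x‖ < ε / (3 * (‖a‖ + 2)) →
        ‖x - ψ a * (q.coeff k - p.coeff k) - (ψ a - a) * p.coeff k‖ < ε := by
      intro x k hx
      have e1 : ‖ψ a * (q.coeff k - p.coeff k)‖ ≤ (‖a‖ + 1) * (ε / (3 * (‖a‖ + 2))) := by
        rw [norm_mul]
        exact mul_le_mul h6 (h2 k).le (norm_nonneg _) (by positivity)
      have e2 : ‖(ψ a - a) * p.coeff k‖ ≤ ε / (3 * (M + 1)) * M := by
        rw [norm_mul]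
        exact mul_le_mul h5 (hM k) (norm_nonneg _) hρ2.le
      have e3 : ε / (3 * (M + 1)) * M ≤ ε / 3 := by
        rw [div_mul_eq_mul_div, div_le_div_iff₀ (by positivity) (by norm_num)]
        nlinarith
      have e4 : ε / (3 * (‖a‖ + 2)) + (‖a‖ + 1) * (ε / (3 * (‖a‖ + 2))) = ε / 3 := by
        field_simp
        ring
      have e5 := norm_sub_le (x - ψ a * (q.coeff k - p.coeff k)) ((ψ a - a) * p.coeff k)
      have e6 := norm_sub_le x (ψ a * (q.coeff k - p.coeff k))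
      linarith
    cases i with
    | zero =>
      have e : ((X - C (ψ a)) * q).coeff 0 - ((X - C a) * p).coeff 0 =
          0 - ψ a * (q.coeff 0 - p.coeff 0) - (ψ a - a) * p.coeff 0 := by
        rw [sub_mul, sub_mul, coeff_sub, coeff_sub, coeff_X_mul_zero, coeff_X_mul_zero,
          coeff_C_mul, coeff_C_mul]
        ring
      rw [e]
      exact key 0 0 (by rw [norm_zero]; exact hε1)
    | succ k =>
      have e : ((X - C (ψ a)) * q).coeff (k + 1) - ((X - C a) * p).coeff (k + 1) =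
          (q.coeff k - p.coeff k) - ψ a * (q.coeff (k + 1) - p.coeff (k + 1)) -
            (ψ a - a) * p.coeff (k + 1) := by
        rw [sub_mul, sub_mul, coeff_sub, coeff_sub, coeff_X_mul, coeff_X_mul,
          coeff_C_mul, coeff_C_mul]
        ring
      rw [e]
      exact key _ (k + 1) (h2 k)

theorem Bh_near {n : ℕ} {P Q : ℂ[X]} {A : Set (OnePoint ℂ)} (h : GD n P Q A) {ε : ℝ} (hε : 0 < ε) :
    ∃ ρ : ℝ, 0 < ρ ∧ ∀ ψ : ℂ → ℂ, (∀ b, ‖ψ b - b‖ ≤ ρ) → ∀ i : ℕ, ‖(Bh ψ Q).coeff i - Q.coeff i‖ < ε := by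
  have hl : 0 ≤ ‖Q.leadingCoeff‖ := norm_nonneg _
  have hε1 : 0 < ε / (‖Q.leadingCoeff‖ + 1) := by positivity
  obtain ⟨ρ, hρ, h1⟩ := prod_near Q.roots.toFinset hε1
  refine ⟨ρ, hρ, fun ψ hψ i => ?_⟩
  have h2 := h1 ψ (fun b _ => hψ b) i
  have h3 : Q.coeff i = Q.leadingCoeff * (∏ b ∈ Q.roots.toFinset, (X - C b)).coeff i := by
    have h4 : (Bh id Q).coeff i = Q.leadingCoeff * (∏ b ∈ Q.roots.toFinset, (X - C b)).coeff i := by
      rw [Bh, coeff_C_mul]
      rfl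
    rw [← h4, Q_prod h]
  have h5 : (Bh ψ Q).coeff i = Q.leadingCoeff * (∏ b ∈ Q.roots.toFinset, (X - C (ψ b))).coeff i := by
    rw [Bh, coeff_C_mul]
  have h6 : (Bh ψ Q).coeff i - Q.coeff i = Q.leadingCoeff *
      ((∏ b ∈ Q.roots.toFinset, (X - C (ψ b))).coeff i - (∏ b ∈ Q.roots.toFinset, (X - C b)).coeff i) := by
    rw [h5, mul_sub, ← h3]
  rw [h6, norm_mul]
  calc ‖Q.leadingCoeff‖ * ‖(∏ b ∈ Q.roots.toFinset, (X - C (ψ b))).coeff i -
        (∏ b ∈ Q.roots.toFinset, (X - C b)).coeff i‖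
      ≤ ‖Q.leadingCoeff‖ * (ε / (‖Q.leadingCoeff‖ + 1)) := mul_le_mul_of_nonneg_left h2.le hl
    _ < ε := by
        rw [mul_div_assoc', div_lt_iff₀ (by positivity)]
        nlinarith

theorem it_poly (p : ℂ[X]) (k : ℕ) :
    iteratedDeriv k (fun z : ℂ => p.eval z) = fun z => (derivative^[k] p).eval z := by
  induction k with
  | zero => simp [iteratedDeriv_zero]
  | succ k ih =>
    rw [iteratedDeriv_succ, ih]
    funext z
    rw [Polynomial.deriv, Function.iterate_succ_apply']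

theorem coeff_circle {p : ℂ[X]} {R M : ℝ} (hR : 1 ≤ R) (hp : ∀ w : ℂ, ‖w‖ = R → ‖p.eval w‖ ≤ M) (k : ℕ) :
    ‖p.coeff k‖ ≤ M := by
  have hR0 : 0 < R := by linarith
  have hM : 0 ≤ M := by
    refine (norm_nonneg _).trans (hp (R : ℂ) ?_)
    rw [Complex.norm_real, Real.norm_of_nonneg hR0.le]
  have h1 : ‖iteratedDeriv k (fun z : ℂ => p.eval z) 0‖ ≤ k.factorial * M / R ^ k := by
    refine Complex.norm_iteratedDeriv_le_of_forall_mem_sphere_norm_le k hR0
      p.differentiable.diffContOnCl fun z hz => hp z ?_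
    rwa [mem_sphere_zero_iff_norm] at hz
  have h2 : iteratedDeriv k (fun z : ℂ => p.eval z) 0 = (k.factorial : ℂ) * p.coeff k := by
    rw [it_poly]
    show (derivative^[k] p).eval 0 = _
    rw [← coeff_zero_eq_eval_zero, coeff_iterate_derivative, zero_add, Nat.descFactorial_self,
      nsmul_eq_mul]
  have hk : (0 : ℝ) < k.factorial := by exact_mod_cast k.factorial_pos
  have h3 : (k.factorial : ℝ) * ‖p.coeff k‖ ≤ k.factorial * M := by
    rw [h2, norm_mul, Complex.norm_natCast] at h1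
    refine h1.trans (div_le_self (by positivity) ?_)
    exact one_le_pow₀ hR
  exact le_of_mul_le_mul_left h3 hk

theorem coe_close {n : ℕ} {P Q : ℂ[X]} {A : Set (OnePoint ℂ)} (h : GD n P Q A) {R1 : ℝ} (hR1 : 2 ≤ R1)
    (hroot : ∀ b : ℂ, Q.eval b = 0 → ‖b‖ ≤ R1 - 2) {ε : ℝ} (hε : 0 < ε) :
    ∃ ρ : ℝ, 0 < ρ ∧ ρ ≤ 1 ∧ ∀ (φ : ℂ ≃ₜ ℂ) (a : ℂ[X]), (∀ z, ‖φ z - z‖ ≤ ρ) →
      (∀ w : ℂ, ‖w‖ = R1 → φ (Tf P Q (φ.symm w)) * (Bh φ Q).eval w = a.eval w) → Near ε a (Bh φ Q) P Q := by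
  set K : Set ℂ := Metric.closedBall 0 (R1 + 1) \ Metric.ball 0 (R1 - 1) with hK
  have hKc : IsCompact K := (isCompact_closedBall _ _).diff Metric.isOpen_ball
  have hmem : ∀ z : ℂ, R1 - 1 ≤ ‖z‖ → ‖z‖ ≤ R1 + 1 → z ∈ K := by
    intro z h1 h2
    refine ⟨mem_closedBall_zero_iff.2 h2, fun h3 => ?_⟩
    rw [mem_ball_zero_iff] at h3
    linarith
  have hQK : ∀ z ∈ K, Q.eval z ≠ 0 := by
    intro z hz h0
    have h1 := hroot z h0
    have h2 : R1 - 1 ≤ ‖z‖ := by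
      by_contra h3
      exact hz.2 (mem_ball_zero_iff.2 (not_le.1 h3))
    linarith
  have hTc : ContinuousOn (Tf P Q) K :=
    P.continuous.continuousOn.div Q.continuous.continuousOn hQK
  obtain ⟨Mt, hMt⟩ := hKc.exists_bound_of_continuousOn hTc
  obtain ⟨Mq, hMq⟩ := hKc.exists_bound_of_continuousOn Q.continuous.continuousOn
  have hR1K : (R1 : ℂ) ∈ K := by
    have h1 : ‖(R1 : ℂ)‖ = R1 := by rw [Complex.norm_real, Real.norm_of_nonneg (by linarith)]
    exact hmem _ (by linarith) (by linarith)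
  have hMt0 : 0 ≤ Mt := (norm_nonneg _).trans (hMt _ hR1K)
  have hMq0 : 0 ≤ Mq := (norm_nonneg _).trans (hMq _ hR1K)
  set e : ℝ := min (ε / (4 * (Mq + Mt + 2))) 1 with he
  have he0 : 0 < e := lt_min (by positivity) one_pos
  have he1 : e ≤ 1 := min_le_right _ _
  have he2 : 2 * e * (Mq + Mt + 2) ≤ ε / 2 := by
    have h1 : e ≤ ε / (4 * (Mq + Mt + 2)) := min_le_left _ _
    rw [le_div_iff₀ (by positivity)] at h1
    linarith
  obtain ⟨δ0, hδ0, hu⟩ := Metric.uniformContinuousOn_iff.1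
    (hKc.uniformContinuousOn_of_continuous hTc) e he0
  set S : ℝ := ∑ i ∈ Finset.range (n + 1), R1 ^ i with hS
  have hR10 : 0 ≤ R1 := by linarith
  have hS0 : 0 ≤ S := Finset.sum_nonneg fun i _ => pow_nonneg hR10 i
  obtain ⟨ρ0, hρ0, hBn⟩ := Bh_near h (ε := min ε (e / (S + 1))) (lt_min hε (by positivity))
  refine ⟨min (min ρ0 1) (min e (δ0 / 2)), lt_min (lt_min hρ0 one_pos) (lt_min he0 (by positivity)),
    (min_le_left _ _).trans (min_le_right _ _), ?_⟩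
  intro φ a hφ ha
  have hφ0 : ∀ z, ‖φ z - z‖ ≤ ρ0 := fun z => (hφ z).trans ((min_le_left _ _).trans (min_le_left _ _))
  have hφ1 : ∀ z, ‖φ z - z‖ ≤ 1 := fun z => (hφ z).trans ((min_le_left _ _).trans (min_le_right _ _))
  have hφe : ∀ z, ‖φ z - z‖ ≤ e := fun z => (hφ z).trans ((min_le_right _ _).trans (min_le_left _ _))
  have hφd : ∀ z, ‖φ z - z‖ ≤ δ0 / 2 := fun z =>
    (hφ z).trans ((min_le_right _ _).trans (min_le_right _ _))
  have hB := hBn φ hφ0
  have hBdeg : (Bh φ Q).natDegree = n := Bh_deg h φ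
  have hcirc : ∀ w : ℂ, ‖w‖ = R1 → ‖(Bh φ Q).eval w - Q.eval w‖ ≤ e := by
    intro w hw
    have h1 : (Bh φ Q - Q).natDegree < n + 1 := by
      have h2 := natDegree_sub_le (Bh φ Q) Q
      rw [hBdeg, h.degQ, max_self] at h2
      omega
    rw [← eval_sub, eval_eq_sum_range' h1]
    have h3 : ‖∑ i ∈ Finset.range (n + 1), (Bh φ Q - Q).coeff i * w ^ i‖ ≤
        ∑ i ∈ Finset.range (n + 1), e / (S + 1) * R1 ^ i := by
      refine norm_sum_le_of_le _ fun i _ => ?_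
      rw [norm_mul, norm_pow, hw, coeff_sub]
      exact mul_le_mul_of_nonneg_right ((hB i).le.trans (min_le_right _ _)) (pow_nonneg hR10 i)
    refine h3.trans ?_
    rw [← Finset.mul_sum, ← hS, div_mul_eq_mul_div, div_le_iff₀ (by positivity)]
    nlinarith
  have hdiff : ∀ w : ℂ, ‖w‖ = R1 → ‖(a - P).eval w‖ ≤ ε / 2 := by
    intro w hw
    have hwK : w ∈ K := hmem w (by linarith) (by linarith)
    have hz : ‖w - φ.symm w‖ ≤ 1 := by
      have := hφ1 (φ.symm w)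
      rwa [φ.apply_symm_apply] at this
    have hzd : ‖w - φ.symm w‖ ≤ δ0 / 2 := by
      have := hφd (φ.symm w)
      rwa [φ.apply_symm_apply] at this
    have hzK : φ.symm w ∈ K := by
      have h1 : ‖w‖ ≤ ‖φ.symm w‖ + ‖w - φ.symm w‖ := by
        have := norm_add_le (φ.symm w) (w - φ.symm w)
        rwa [add_sub_cancel] at this
      have h2 : ‖φ.symm w‖ ≤ ‖w‖ + ‖w - φ.symm w‖ := by
        have := norm_sub_le w (w - φ.symm w)
        rwa [sub_sub_cancel] at this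
      exact hmem _ (by linarith) (by linarith)
    have hT : ‖Tf P Q (φ.symm w) - Tf P Q w‖ ≤ e := by
      have h1 := hu _ hzK _ hwK (by rw [dist_comm, dist_eq_norm]; linarith)
      rw [dist_eq_norm] at h1
      exact h1.le
    have hFT : ‖φ (Tf P Q (φ.symm w)) - Tf P Q w‖ ≤ 2 * e := by
      have h1 := norm_add_le (φ (Tf P Q (φ.symm w)) - Tf P Q (φ.symm w))
        (Tf P Q (φ.symm w) - Tf P Q w)
      rw [sub_add_sub_cancel] at h1
      have h2 := hφe (Tf P Q (φ.symm w))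
      linarith
    have hBw : ‖(Bh φ Q).eval w‖ ≤ Mq + 1 := by
      have h1 := norm_add_le (Q.eval w) ((Bh φ Q).eval w - Q.eval w)
      rw [add_sub_cancel] at h1
      have h2 := hMq w hwK
      have h3 := hcirc w hw
      linarith
    have hPw : P.eval w = Tf P Q w * Q.eval w := by
      rw [Tf, div_mul_cancel₀ _ (hQK w hwK)]
    have hid : (a - P).eval w = (φ (Tf P Q (φ.symm w)) - Tf P Q w) * (Bh φ Q).eval w +
        Tf P Q w * ((Bh φ Q).eval w - Q.eval w) := by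
      rw [eval_sub, ← ha w hw, hPw]
      ring
    rw [hid]
    refine (norm_add_le _ _).trans ?_
    rw [norm_mul, norm_mul]
    have h1 : ‖φ (Tf P Q (φ.symm w)) - Tf P Q w‖ * ‖(Bh φ Q).eval w‖ ≤ 2 * e * (Mq + 1) :=
      mul_le_mul hFT hBw (norm_nonneg _) (by positivity)
    have h2 : ‖Tf P Q w‖ * ‖(Bh φ Q).eval w - Q.eval w‖ ≤ Mt * e :=
      mul_le_mul (hMt w hwK) (hcirc w hw) (norm_nonneg _) hMt0
    nlinarith
  intro i
  refine ⟨?_, (hB i).trans_le (min_le_left _ _)⟩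
  have h1 := coeff_circle (by linarith) hdiff i
  rw [coeff_sub] at h1
  linarith

end Pool.Agent.H84.BR
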