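import Mathlib

/-!
[H84 BR PGR]  BARRIER, chapter V: removable singularities and polynomial growth (pure complex analysis, independent of the rest).

`entire_ext`: `H` holomorphic off a finite set `S`, bounded near each point of `S`: there is an entire function equal to `H` off `S`. Proof: induction on the finite set `S`: for `insert c S` use
`Complex.differentiableOn_update_limUnder_of_bddAbove` on a neighbourhood of `c`: `H1 = update H c (limUnder (𝓝[≠] c) H)` is differentiable at all points not in `S`: at `c` (if `c ∉ S`) by this theorem on a small ball `s` around `c` with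
`s \ {c}` disjoint from `S` and `H` bounded on `s \ {c}`; at other points `H1 = H` nearby. Boundedness near points of `S` is preserved (`H1 = H` in a punctured neighbourhood). Then `H1` equals `H` off `insert c S`.
`poly_growth`: `F` entire with `‖F w‖ ≤ C * ‖w‖^n` for `‖w‖ ≥ R`: `F` is a polynomial of degree `≤ n`. Proof: `iteratedDeriv k F 0 = 0` for `k > n` by `Complex.norm_iteratedDeriv_le_of_forall_mem_sphere_norm_le` on circles of radius `r → ∞`
(`k! C r^n / r^k → 0`), and `F` is the sum of its Taylor series (`Differentiable.hasFPowerSeriesOnBall`, `Complex.taylorSeries_eq_of_entire`), a finite sum. Or induction on `n` with `dslope F 0` and Liouville's theorem.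
-/

set_option autoImplicit false

open Filter Topology Polynomial Set

namespace Pool.Agent.H84.BR

theorem entire_ext {S : Set ℂ} (hS : S.Finite) {H : ℂ → ℂ} (hd : ∀ w ∉ S, DifferentiableAt ℂ H w)
    (hb : ∀ b ∈ S, ∃ C : ℝ, ∀ᶠ w in 𝓝[≠] b, ‖H w‖ ≤ C) :
    ∃ F : ℂ → ℂ, Differentiable ℂ F ∧ ∀ w ∉ S, F w = H w := by
  classical
  induction S, hS using Set.Finite.induction_on generalizing H with
  | empty => exact ⟨H, fun w => hd w (Set.notMem_empty w), fun w _ => rfl⟩
  | @insert c S hc hS ih =>
    have hcS : Sᶜ ∈ 𝓝 c := hS.isClosed.isOpen_compl.mem_nhds hc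
    obtain ⟨C, hC⟩ := hb c (Set.mem_insert _ _)
    rw [eventually_nhdsWithin_iff] at hC
    obtain ⟨s, hs, hs1, hs2⟩ : ∃ s ∈ 𝓝 c, (∀ w ∈ s, w ≠ c → ‖H w‖ ≤ C) ∧ ∀ w ∈ s, w ∉ S := by
      refine ⟨{w | w ∈ ({c} : Set ℂ)ᶜ → ‖H w‖ ≤ C} ∩ Sᶜ, inter_mem hC hcS, ?_, fun w hw => hw.2⟩
      exact fun w hw hwc => hw.1 hwc
    have h1 : DifferentiableOn ℂ (Function.update H c (limUnder (𝓝[≠] c) H)) s := by
      refine Complex.differentiableOn_update_limUnder_of_bddAbove hs ?_ ?_
      · intro w hw
        refine (hd w ?_).differentiableWithinAt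
        rintro (h | h)
        · exact hw.2 h
        · exact hs2 w hw.1 h
      · refine ⟨C, ?_⟩
        rintro _ ⟨w, hw, rfl⟩
        exact hs1 w hw.1 hw.2
    set H1 := Function.update H c (limUnder (𝓝[≠] c) H) with hH1
    have hne : ∀ w, w ≠ c → H1 w = H w := fun w hw => Function.update_of_ne hw _ _
    have hev : ∀ w, w ≠ c → H1 =ᶠ[𝓝 w] H := by
      intro w hw
      filter_upwards [isOpen_ne.mem_nhds hw] with y hy using hne y hy
    obtain ⟨F, hF, hF2⟩ := ih (H := H1) (fun w hw => by
      by_cases hwc : w = c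
      · subst hwc
        exact h1.differentiableAt hs
      · refine (hd w ?_).congr_of_eventuallyEq (hev w hwc)
        rintro (h | h)
        · exact hwc h
        · exact hw h) (fun b hbS => by
      obtain ⟨C', hC'⟩ := hb b (Set.mem_insert_of_mem _ hbS)
      refine ⟨C', ?_⟩
      have hbc : b ≠ c := by
        rintro rfl
        exact hc hbS
      filter_upwards [hC', (hev b hbc).filter_mono nhdsWithin_le_nhds] with y hy1 hy2
      rw [hy2]
      exact hy1)
    refine ⟨F, hF, fun w hw => ?_⟩
    rw [Set.mem_insert_iff] at hw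
    push Not at hw
    rw [hF2 w hw.2, hne w hw.1]

theorem poly_growth {F : ℂ → ℂ} (hF : Differentiable ℂ F) {n : ℕ} {C R : ℝ}
    (hg : ∀ w : ℂ, R ≤ ‖w‖ → ‖F w‖ ≤ C * ‖w‖ ^ n) : ∃ p : ℂ[X], p.natDegree ≤ n ∧ ∀ w, F w = p.eval w := by
  have hz : ∀ k, n < k → iteratedDeriv k F 0 = 0 := by
    intro k hk
    have hb : ∀ r : ℝ, max R 1 ≤ r → ‖iteratedDeriv k F 0‖ ≤ (k.factorial * |C|) / r := by
      intro r hr
      have hr1 : 1 ≤ r := (le_max_right _ _).trans hr
      have hr0 : 0 < r := by linarith
      have h1 := Complex.norm_iteratedDeriv_le_of_forall_mem_sphere_norm_le (n := k) (c := 0)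
        (f := F) (C := |C| * r ^ n) hr0 hF.diffContOnCl (by
          intro z hz
          have hz' : ‖z‖ = r := by simpa using hz
          have h2 := hg z (by rw [hz']; exact (le_max_left _ _).trans hr)
          rw [hz'] at h2
          exact h2.trans (mul_le_mul_of_nonneg_right (le_abs_self C) (by positivity)))
      refine h1.trans ?_
      rw [div_le_div_iff₀ (by positivity) hr0]
      have h2 : r ^ n * r ≤ r ^ k := by
        rw [← pow_succ]
        exact pow_le_pow_right₀ hr1 hk
      calc (k.factorial : ℝ) * (|C| * r ^ n) * r = (k.factorial * |C|) * (r ^ n * r) := by ring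
        _ ≤ (k.factorial * |C|) * r ^ k := by gcongr
    have h3 : Tendsto (fun r : ℝ => (k.factorial * |C|) / r) atTop (𝓝 0) :=
      tendsto_const_nhds.div_atTop tendsto_id
    have h4 : ‖iteratedDeriv k F 0‖ ≤ 0 := by
      refine ge_of_tendsto h3 ?_
      filter_upwards [eventually_ge_atTop (max R 1)] with r hr using hb r hr
    exact norm_le_zero_iff.1 h4
  refine ⟨∑ k ∈ Finset.range (n + 1), Polynomial.C ((k.factorial : ℂ)⁻¹ * iteratedDeriv k F 0) * X ^ k,
    ?_, fun w => ?_⟩
  · refine Polynomial.natDegree_sum_le_of_forall_le _ _ fun k hk => ?_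
    exact (Polynomial.natDegree_C_mul_X_pow_le _ _).trans (Nat.lt_succ_iff.1 (Finset.mem_range.1 hk))
  · have h5 := Complex.hasSum_taylorSeries_of_entire hF 0 w
    have h6 : HasSum (fun k : ℕ => (k.factorial : ℂ)⁻¹ • (w - 0) ^ k • iteratedDeriv k F 0)
        (∑ k ∈ Finset.range (n + 1), (k.factorial : ℂ)⁻¹ • (w - 0) ^ k • iteratedDeriv k F 0) := by
      refine hasSum_sum_of_ne_finset_zero fun k hk => ?_
      rw [hz k (by simpa using hk)]
      simp
    rw [h5.unique h6, Polynomial.eval_finsetSum]
    refine Finset.sum_congr rfl fun k _ => ?_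
    simp only [smul_eq_mul, sub_zero, Polynomial.eval_mul, Polynomial.eval_C, Polynomial.eval_pow,
      Polynomial.eval_X]
    ring

end Pool.Agent.H84.BR
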