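import Pool.Agent.H84.BR.Phi
import Pool.Agent.H84.BR.Pgr
import Pool.Agent.H84.BR.Coe
import Pool.Agent.H84.BR.Hyp

/-!
[H84 BR PLB]  BARRIER, polynomial version: the straightened map is a polynomial, conjugate to `Gs`, close to `T`.

`pol_num`: `F w = φ (G (φ.symm w))` is entire: `Str.con` with `{z | (1 : ℂ[X]).eval z ≠ 0} = univ`, `φ '' univ = univ`. Growth: `‖F w‖ ≤ ‖G z‖ + ρ` with `z = φ.symm w`, `‖z‖ ≤ ‖w‖ + ρ` (`Str.near` at `z`); for large `‖w‖` `z ∉ tsupport u` (compact), `G z = T z` (`G_off`), `‖T z‖ ≤ C (1 + ‖z‖)^n`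
(`T.natDegree ≤ n` by `h.gd.deg`). `poly_growth`.
`pol_conj`: as `conj_sphere` in Cnj.lean, simpler (no finite poles): `Continuous.ext_on` with `OnePoint.denseRange_coe`; `isCoprime_one_right`, `rat_continuous`, `Gs_cont`; at `z : ℂ`: `Gs z = (G z : OnePoint ℂ)` (`1 ≠ 0`), `rat a 1 (φ z) = a (φ z)`.
`pol_close`: as `coe_close` in Coe.lean, simpler: `T` is uniformly continuous on `closedBall 0 (R1 + 1)`; on `‖w‖ = R1`, `z = φ.symm w`, `‖z - w‖ ≤ ρ`: `‖a w - T w‖ ≤ ‖φ (T z) - T z‖ + ‖T z - T w‖ < ε`; `coeff_circle` for `a - T` (bound by something `< ε`).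
-/

set_option autoImplicit false

open Filter Topology Polynomial Set ComplexConjugate
open scoped ContDiff

namespace Pool.Agent.H84.BR

open Pool.Agent.H44.Fatou Pool.Agent.H32.BT Pool.Agent.H73.BR

variable {n : ℕ} {T A' B' : ℂ[X]} {A : Set (OnePoint ℂ)} {u : ℂ → ℝ} {s : ℝ → ℝ} {δ ρ : ℝ} {φ : ℂ ≃ₜ ℂ}

theorem pol_num (h : Cfg n T 1 A u A' B' s δ) (hφ : Str T 1 A' B' u s φ ρ) :
    ∃ a : ℂ[X], a.natDegree ≤ n ∧ ∀ w : ℂ, φ (Gf T 1 A' B' u s (φ.symm w)) = a.eval w := by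
  have hset : φ '' {z : ℂ | (1 : ℂ[X]).eval z ≠ 0} = Set.univ := by
    have h1 : {z : ℂ | (1 : ℂ[X]).eval z ≠ 0} = Set.univ := by
      ext z
      simp
    rw [h1, Set.image_univ_of_surjective φ.surjective]
  have hdiff : Differentiable ℂ (fun w => φ (Gf T 1 A' B' u s (φ.symm w))) := by
    have h1 := hφ.con
    rw [hset] at h1
    exact differentiableOn_univ.1 h1
  have hdeg : T.natDegree ≤ n := by
    rw [← h.gd.deg]
    exact le_max_left _ _
  have hcpt : IsCompact (tsupport u) := h.u0.cpt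
  obtain ⟨R0, hR0⟩ := hcpt.isBounded.subset_closedBall (0 : ℂ)
  have hρ : 0 ≤ ρ := (norm_nonneg _).trans (hφ.near 0)
  obtain ⟨S, hS⟩ : ∃ S : ℝ, S = ∑ i ∈ Finset.range (n + 1), ‖T.coeff i‖ := ⟨_, rfl⟩
  have hS0 : 0 ≤ S := by
    rw [hS]
    exact Finset.sum_nonneg fun _ _ => norm_nonneg _
  refine poly_growth hdiff (C := ρ + S * 2 ^ n) (R := max (R0 + ρ + 1) (max ρ 1)) ?_
  intro w hw
  have hw1 : R0 + ρ + 1 ≤ ‖w‖ := (le_max_left _ _).trans hw
  have hw2 : ρ ≤ ‖w‖ := ((le_max_left _ _).trans (le_max_right _ _)).trans hw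
  have hw3 : 1 ≤ ‖w‖ := ((le_max_right _ _).trans (le_max_right _ _)).trans hw
  obtain ⟨z, hz⟩ : ∃ z, z = φ.symm w := ⟨_, rfl⟩
  have hzw : ‖w - z‖ ≤ ρ := by
    have h1 := hφ.near z
    rw [hz, φ.apply_symm_apply] at h1
    rw [hz]
    exact h1
  have hz1 : ‖w‖ ≤ ‖z‖ + ρ := by
    have h1 := norm_add_le z (w - z)
    rw [add_sub_cancel] at h1
    linarith
  have hz2 : ‖z‖ ≤ 2 * ‖w‖ := by
    have h1 := norm_sub_le w (w - z)
    rw [sub_sub_cancel] at h1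
    linarith
  have hzu : z ∉ tsupport u := by
    intro h1
    have h2 := hR0 h1
    rw [mem_closedBall_zero_iff] at h2
    linarith
  have hG : Gf T 1 A' B' u s z = T.eval z := by
    have h1 : Gf T 1 A' B' u s z = Tf T 1 z := (G_off h hzu).self_of_nhds
    rw [h1, Tf, eval_one, div_one]
  have hT : ‖T.eval z‖ ≤ S * 2 ^ n * ‖w‖ ^ n := by
    rw [eval_eq_sum_range' (Nat.lt_succ_of_le hdeg), hS, mul_assoc, ← mul_pow, Finset.sum_mul]
    refine norm_sum_le_of_le _ fun i hi => ?_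
    rw [norm_mul, norm_pow]
    refine mul_le_mul_of_nonneg_left ?_ (norm_nonneg _)
    refine (pow_le_pow_left₀ (norm_nonneg _) hz2 i).trans ?_
    exact pow_le_pow_right₀ (by linarith) (Nat.lt_succ_iff.1 (Finset.mem_range.1 hi))
  show ‖φ (Gf T 1 A' B' u s (φ.symm w))‖ ≤ _
  rw [← hz, hG]
  have h1 := norm_add_le (T.eval z) (φ (T.eval z) - T.eval z)
  rw [add_sub_cancel] at h1
  have h2 := hφ.near (T.eval z)
  have h3 : ρ ≤ ρ * ‖w‖ ^ n := le_mul_of_one_le_right hρ (one_le_pow₀ hw3)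
  rw [add_mul]
  linarith

theorem pol_conj (h : Cfg n T 1 A u A' B' s δ) {a : ℂ[X]}
    (ha : ∀ w : ℂ, φ (Gf T 1 A' B' u s (φ.symm w)) = a.eval w) (hd : 1 ≤ a.natDegree)
    (x : OnePoint ℂ) : rat a 1 (φ.onePointCongr x) = φ.onePointCongr (Gs T 1 A' B' u s x) := by
  have hc1 : Continuous fun x : OnePoint ℂ => rat a 1 (φ.onePointCongr x) :=
    (rat_continuous isCoprime_one_right).comp φ.onePointCongr.continuous
  have hc2 : Continuous fun x : OnePoint ℂ => φ.onePointCongr (Gs T 1 A' B' u s x) :=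
    φ.onePointCongr.continuous.comp (Gs_cont h)
  have key : (fun x : OnePoint ℂ => rat a 1 (φ.onePointCongr x)) =
      fun x : OnePoint ℂ => φ.onePointCongr (Gs T 1 A' B' u s x) := by
    refine Continuous.ext_on (OnePoint.denseRange_coe (X := ℂ)) hc1 hc2 ?_
    rintro _ ⟨z, rfl⟩
    show rat a 1 ((φ z : ℂ) : OnePoint ℂ) = φ.onePointCongr
      (if (1 : ℂ[X]).eval z = 0 then OnePoint.infty else (Gf T 1 A' B' u s z : OnePoint ℂ))
    have h1 : (1 : ℂ[X]).eval z ≠ 0 := by rw [eval_one]; exact one_ne_zero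
    have h1' : (1 : ℂ[X]).eval (φ z) ≠ 0 := by rw [eval_one]; exact one_ne_zero
    have h2 := ha (φ z)
    rw [φ.symm_apply_apply] at h2
    rw [if_neg h1, rat_coe_of_ne h1', ← h2, eval_one, div_one]
    rfl
  exact congrFun key x

theorem pol_close (T : ℂ[X]) {R1 : ℝ} (hR1 : 2 ≤ R1) {ε : ℝ} (hε : 0 < ε) :
    ∃ ρ : ℝ, 0 < ρ ∧ ρ ≤ 1 ∧ ∀ (φ : ℂ ≃ₜ ℂ) (a : ℂ[X]), (∀ z, ‖φ z - z‖ ≤ ρ) →
      (∀ w : ℂ, ‖w‖ = R1 → φ (T.eval (φ.symm w)) = a.eval w) → ∀ i : ℕ, ‖a.coeff i - T.coeff i‖ < ε := by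
  have hKc : IsCompact (Metric.closedBall (0 : ℂ) (R1 + 1)) := isCompact_closedBall _ _
  obtain ⟨δ0, hδ0, hu⟩ := Metric.uniformContinuousOn_iff.1
    (hKc.uniformContinuousOn_of_continuous T.continuous.continuousOn) (ε / 4) (by positivity)
  refine ⟨min (min 1 (ε / 4)) (δ0 / 2), by positivity, (min_le_left _ _).trans (min_le_left _ _), ?_⟩
  intro φ a hφ ha i
  have hφ1 : ∀ z, ‖φ z - z‖ ≤ 1 := fun z => (hφ z).trans ((min_le_left _ _).trans (min_le_left _ _))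
  have hφe : ∀ z, ‖φ z - z‖ ≤ ε / 4 := fun z =>
    (hφ z).trans ((min_le_left _ _).trans (min_le_right _ _))
  have hφd : ∀ z, ‖φ z - z‖ ≤ δ0 / 2 := fun z => (hφ z).trans (min_le_right _ _)
  have hdiff : ∀ w : ℂ, ‖w‖ = R1 → ‖(a - T).eval w‖ ≤ ε / 2 := by
    intro w hw
    have hz : ‖w - φ.symm w‖ ≤ 1 := by
      have := hφ1 (φ.symm w)
      rwa [φ.apply_symm_apply] at this
    have hzd : ‖w - φ.symm w‖ ≤ δ0 / 2 := by
      have := hφd (φ.symm w)
      rwa [φ.apply_symm_apply] at this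
    have hwK : w ∈ Metric.closedBall (0 : ℂ) (R1 + 1) := by
      rw [mem_closedBall_zero_iff]
      linarith
    have hzK : φ.symm w ∈ Metric.closedBall (0 : ℂ) (R1 + 1) := by
      rw [mem_closedBall_zero_iff]
      have := norm_sub_le w (w - φ.symm w)
      rw [sub_sub_cancel] at this
      linarith
    have hT : ‖T.eval (φ.symm w) - T.eval w‖ ≤ ε / 4 := by
      have h1 := hu _ hzK _ hwK (by rw [dist_comm, dist_eq_norm]; linarith)
      rw [dist_eq_norm] at h1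
      exact h1.le
    rw [eval_sub, ← ha w hw]
    have h1 := norm_add_le (φ (T.eval (φ.symm w)) - T.eval (φ.symm w))
      (T.eval (φ.symm w) - T.eval w)
    rw [sub_add_sub_cancel] at h1
    have h2 := hφe (T.eval (φ.symm w))
    linarith
  have h1 := coeff_circle (by linarith) hdiff i
  rw [coeff_sub] at h1
  linarith

end Pool.Agent.H84.BR
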