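import Pool.Agent.H84.BR.Pla
import Pool.Agent.H84.BR.Plb
import Pool.Agent.H84.BR.Ucu

/-!
[H84 BR PLC]  BARRIER, polynomial version: the straightening theorem for polynomials and the barrier.

`straightP`. Given `ε`; `ε' = min ε ‖T.coeff n‖ > 0` (`T.natDegree = n`, `T ≠ 0`). `pol_trap` gives `A`, `exists_u` gives `u`, `u_disc` gives `R0 ≥ 1`; `R1 = R0 + 2`; `pol_close T` with `R1`, `ε'` gives `ρ ≤ 1`; `exists_phi` gives `K`; `δ` as in `straight` (Stg.lean);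
`exists_cfg0` gives `ε1`, `disc_close` with `K = tsupport u`, `ε1` gives `η, R`. Given `A', B'`: `s` with `Cfg`, `φ` with `Str .. φ (K δ R0)`, `a` from `pol_num`. For `‖w‖ = R1`: `z = φ.symm w` has `‖z‖ > R0`, `z ∉ tsupport u`, `G z = T z` (`G_off`, `Tf T 1 z = T z`), so `pol_close` gives
`‖a.coeff i - T.coeff i‖ < ε'`; so `a.coeff n ≠ 0`, `a.natDegree = n`. `HypMap (rat a 1)`: `hypMap_conj φ.onePointCongr` with `pol_conj` and `hyp_Gs`.
`noHypP`: `StraightP` and `¬ LimP` give `ε`, then `η, R`. For `(A', B')` within `η1` of `(T, 1)` on `‖w‖ ≤ R`: `‖B' - 1‖ ≤ η1 ≤ 1 / 2`, so `B' ≠ 0`, `‖A' / B' - T‖ = ‖(A' - T) - T (B' - 1)‖ / ‖B'‖ ≤ 2 (1 + M) η1` with `M` a bound of `‖T‖` on the disc: choose `η1` small.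
-/

set_option autoImplicit false

open Filter Topology Polynomial Set ComplexConjugate
open scoped ContDiff

namespace Pool.Agent.H84.BR

open Pool.Agent.H44.Fatou Pool.Agent.H32.BT Pool.Agent.H73.BR
open Pool.Agent.H85.LD (Nd)

/-- the polynomial `T` is a limit of hyperbolic polynomials of degree `n` -/
def LimP (n : ℕ) (T : ℂ[X]) : Prop :=
  ∀ ε : ℝ, 0 < ε → ∃ T' : ℂ[X], T'.natDegree = n ∧ (∀ i : ℕ, ‖T'.coeff i - T.coeff i‖ < ε) ∧ HypMap (rat T' 1)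

/-- hyperbolic rational maps of arbitrary degree near the polynomial `T` on a disc give hyperbolic polynomials near `T` -/
def StraightP (n : ℕ) (T : ℂ[X]) : Prop :=
  ∀ ε : ℝ, 0 < ε → ∃ η R : ℝ, 0 < η ∧ ∀ A' B' : ℂ[X], IsCoprime A' B' →
    2 ≤ max A'.natDegree B'.natDegree →
    (∀ w : ℂ, ‖w‖ ≤ R → B'.eval w ≠ 0 ∧ ‖A'.eval w / B'.eval w - T.eval w‖ ≤ η) →
    HypMap (rat A' B') → ∃ T' : ℂ[X], T'.natDegree = n ∧ (∀ i : ℕ, ‖T'.coeff i - T.coeff i‖ < ε) ∧ HypMap (rat T' 1)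

theorem straightP {n : ℕ} (hn : 2 ≤ n) {T : ℂ[X]} (hT : T.natDegree = n) : StraightP n T := by
  intro ε0 hε0
  have hT0 : T ≠ 0 := by
    rintro rfl
    rw [natDegree_zero] at hT
    omega
  have hTn : T.coeff n ≠ 0 := by
    rw [← hT]
    exact leadingCoeff_ne_zero.2 hT0
  obtain ⟨ε, hεd⟩ : ∃ ε : ℝ, ε = min ε0 ‖T.coeff n‖ := ⟨_, rfl⟩
  have hε : 0 < ε := by
    rw [hεd]
    exact lt_min hε0 (norm_pos_iff.2 hTn)
  obtain ⟨A, hA⟩ := pol_trap hn hT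
  obtain ⟨u, hu⟩ := exists_u hA
  obtain ⟨R0, hR0, hR0u, -⟩ := u_disc hA hu
  obtain ⟨ρ, hρ, hρ1, hclose⟩ := pol_close T (R1 := R0 + 2) (by linarith) hε
  obtain ⟨K, hK, hphi⟩ := exists_phi
  obtain ⟨δ, hδ⟩ : ∃ δ : ℝ, δ = min (1 / 2) (min (1 / K) (ρ / (K * R0))) := ⟨_, rfl⟩
  have hR00 : 0 < R0 := by linarith
  have hδ0 : 0 < δ := by
    rw [hδ]
    exact lt_min (by norm_num) (lt_min (by positivity) (by positivity))
  have hδ1 : δ < 1 := by
    have h1 : δ ≤ 1 / 2 := by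
      rw [hδ]
      exact min_le_left _ _
    linarith
  have hδK : K * δ ≤ 1 := by
    have h1 : δ ≤ 1 / K := by
      rw [hδ]
      exact (min_le_right _ _).trans (min_le_left _ _)
    rw [le_div_iff₀ hK] at h1
    linarith
  have hδρ : K * δ * R0 ≤ ρ := by
    have h1 : δ ≤ ρ / (K * R0) := by
      rw [hδ]
      exact (min_le_right _ _).trans (min_le_right _ _)
    rw [le_div_iff₀ (by positivity)] at h1
    linarith
  obtain ⟨ε1, hε1, hcfg⟩ := exists_cfg0 hA hu hδ0 hδ1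
  have hKc : IsCompact (tsupport u) := hu.cpt
  obtain ⟨η, R, hη, hdc⟩ := disc_close (T := T) hKc hε1
  refine ⟨η, R, hη, fun A' B' hcop hdeg hcl hyp => ?_⟩
  obtain ⟨s, hs⟩ := hcfg A' B' hcop hdeg (hdc A' B' hcl)
  obtain ⟨φ, hφ⟩ := hphi hs R0 hR00 hR0u hδK
  obtain ⟨a, ha1, ha2⟩ := pol_num hs hφ
  have hcf : ∀ i : ℕ, ‖a.coeff i - T.coeff i‖ < ε := by
    refine hclose φ a (fun z => (hφ.near z).trans hδρ) (fun w hw => ?_)
    have hz : R0 < ‖φ.symm w‖ := by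
      have h1 := hφ.near (φ.symm w)
      rw [φ.apply_symm_apply] at h1
      have h2 := norm_sub_norm_le w (φ.symm w)
      linarith
    have hzt : φ.symm w ∉ tsupport u := fun hc => absurd (hR0u _ hc) (not_le.2 hz)
    have hG := (G_off hs hzt).self_of_nhds
    have h4 := ha2 w
    rw [hG, Tf, eval_one, div_one] at h4
    exact h4
  have han : a.coeff n ≠ 0 := by
    intro h0
    have h1 := hcf n
    rw [h0, zero_sub, norm_neg] at h1
    have h2 : ε ≤ ‖T.coeff n‖ := by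
      rw [hεd]
      exact min_le_right _ _
    linarith
  have hadeg : a.natDegree = n := le_antisymm ha1 (le_natDegree_of_ne_zero han)
  refine ⟨a, hadeg, fun i => (hcf i).trans_le ?_, ?_⟩
  · rw [hεd]
    exact min_le_left _ _
  · exact (hypMap_conj φ.onePointCongr (pol_conj hs ha2 (by rw [hadeg]; omega))).2 (hyp_Gs hs hyp)

theorem noHypP {n : ℕ} {T : ℂ[X]} (hS : StraightP n T) (hL : ¬ LimP n T) : NoHyp T 1 := by
  have hL' : ∃ ε : ℝ, 0 < ε ∧ ∀ T' : ℂ[X], T'.natDegree = n → (∀ i : ℕ, ‖T'.coeff i - T.coeff i‖ < ε) →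
      ¬ HypMap (rat T' 1) := by
    by_contra hcon
    apply hL
    intro ε hε
    by_contra hcon2
    exact hcon ⟨ε, hε, fun T' h1 h2 h3 => hcon2 ⟨T', h1, h2, h3⟩⟩
  obtain ⟨ε, hε, hno⟩ := hL'
  obtain ⟨η, R, hη, hst⟩ := hS ε hε
  obtain ⟨M, hM⟩ := (isCompact_closedBall (0 : ℂ) R).exists_bound_of_continuousOn
    (f := fun w => T.eval w) T.continuous.continuousOn
  obtain ⟨M', hM'⟩ : ∃ M' : ℝ, M' = max M 0 := ⟨_, rfl⟩
  have hM'0 : 0 ≤ M' := by
    rw [hM']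
    exact le_max_right _ _
  obtain ⟨η1, hη1⟩ : ∃ η1 : ℝ, η1 = min (1 / 2) (η / (2 * (1 + M'))) := ⟨_, rfl⟩
  have hη10 : 0 < η1 := by
    rw [hη1]
    exact lt_min (by norm_num) (by positivity)
  have hη1h : η1 ≤ 1 / 2 := by
    rw [hη1]
    exact min_le_left _ _
  have hη1m : η1 * (2 * (1 + M')) ≤ η := by
    have h1 : η1 ≤ η / (2 * (1 + M')) := by
      rw [hη1]
      exact min_le_right _ _
    rwa [le_div_iff₀ (by positivity)] at h1
  refine ⟨η1, R, hη10, fun A' B' hcop hdeg hcl hyp => ?_⟩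
  have hclose : ∀ w : ℂ, ‖w‖ ≤ R → B'.eval w ≠ 0 ∧ ‖A'.eval w / B'.eval w - T.eval w‖ ≤ η := by
    intro w hw
    obtain ⟨hA1, hB1⟩ := hcl w hw
    rw [eval_one] at hB1
    have hTw : ‖T.eval w‖ ≤ M' := by
      refine (hM w ?_).trans ?_
      · rw [mem_closedBall_zero_iff]
        exact hw
      · rw [hM']
        exact le_max_left _ _
    have hBn : 1 / 2 ≤ ‖B'.eval w‖ := by
      have h4 : ‖(1 : ℂ)‖ - ‖B'.eval w‖ ≤ ‖1 - B'.eval w‖ := norm_sub_norm_le _ _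
      rw [norm_one, norm_sub_rev] at h4
      linarith
    have hB0 : B'.eval w ≠ 0 := by
      intro h0
      rw [h0, norm_zero] at hBn
      linarith
    refine ⟨hB0, ?_⟩
    have e1 : A'.eval w / B'.eval w - T.eval w =
        ((A'.eval w - T.eval w) - T.eval w * (B'.eval w - 1)) / B'.eval w := by
      field_simp
      ring
    rw [e1, norm_div, div_le_iff₀ (by linarith)]
    have h5 : ‖(A'.eval w - T.eval w) - T.eval w * (B'.eval w - 1)‖ ≤ η1 + M' * η1 := by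
      refine (norm_sub_le _ _).trans (add_le_add hA1 ?_)
      rw [norm_mul]
      exact mul_le_mul hTw hB1 (norm_nonneg _) hM'0
    have h6 : η * (1 / 2) ≤ η * ‖B'.eval w‖ := mul_le_mul_of_nonneg_left hBn hη.le
    have h7 : η1 + M' * η1 ≤ η * (1 / 2) := by nlinarith
    linarith
  obtain ⟨T', h1, h2, h3⟩ := hst A' B' hcop hdeg hclose hyp
  exact hno T' h1 h2 h3

/-- if some polynomial of degree `n ≥ 2` is not a limit of hyperbolic polynomials of degree `n`, then the rate `1/d` cannot be improved -/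
theorem barrierP {n : ℕ} (hn : 2 ≤ n) {T : ℂ[X]} (hT : T.natDegree = n) (hL : ¬ LimP n T) :
    ∃ c : ℝ, 0 < c ∧ ∃ d0 : ℕ, ∀ d : ℕ, d0 ≤ d →
    ∃ P1 Q1 : ℂ[X], P1.natDegree ≤ d ∧ Q1.natDegree ≤ d ∧ (P1 ≠ 0 ∨ Q1 ≠ 0) ∧
      ∀ P' Q' : ℂ[X], IsCoprime P' Q' → max P'.natDegree Q'.natDegree = d → HypMap (rat P' Q') →
        c / (d : ℝ) * (Nd d P1 + Nd d Q1) ≤ Nd d (P1 - P') + Nd d (Q1 - Q') :=
  embed0 hT.le (by rw [natDegree_one]; exact Nat.zero_le n) one_ne_zero (noHypP (straightP hn hT) hL)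

end Pool.Agent.H84.BR
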