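import Pool.Agent.H84.BR.Fin
import Pool.Agent.H84.BR.Plc
import Pool.Agent.H91.SR.Top

/-!
BARRIER (MP_8f2e1c_an): the rate theorem and its converse, in the words of the hand-in ExactRate.
-/

set_option autoImplicit false

open Polynomial Filter Topology

namespace Pool.Agent.H84.BR

open Pool.Agent.H44.Fatou Pool.Agent.H32.BT
open Pool.Agent.H85.LD (Nd)

/-- every nonzero pair of polynomials of degree at most `d` is within relative squared Bombieri-Weyl error `κ` of a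
hyperbolic pair of degree exactly `d` -/
def App (d : ℕ) (κ : ℝ) : Prop := ∀ P Q : ℂ[X],
  P.natDegree ≤ d → Q.natDegree ≤ d → (P ≠ 0 ∨ Q ≠ 0) →
    ∃ P' Q' : ℂ[X], IsCoprime P' Q' ∧ max P'.natDegree Q'.natDegree = d ∧ Hyp P' Q' ∧
      Nd d (P - P') + Nd d (Q - Q') ≤ κ * (Nd d P + Nd d Q)

theorem no_app {c : ℝ} (hc : 0 < c) {d0 : ℕ} (H : ∀ d : ℕ, d0 ≤ d →
    ∃ P1 Q1 : ℂ[X], P1.natDegree ≤ d ∧ Q1.natDegree ≤ d ∧ (P1 ≠ 0 ∨ Q1 ≠ 0) ∧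
      ∀ P' Q' : ℂ[X], IsCoprime P' Q' → max P'.natDegree Q'.natDegree = d → Hyp P' Q' →
        c / (d : ℝ) * (Nd d P1 + Nd d Q1) ≤ Nd d (P1 - P') + Nd d (Q1 - Q'))
    (hA : ∀ c : ℝ, 0 < c → ∀ d0 : ℕ, ∃ d : ℕ, d0 ≤ d ∧ App d (c / d)) : False := by
  obtain ⟨d, hd, hAd⟩ := hA (c / 2) (by linarith) (max d0 1)
  obtain ⟨P1, Q1, h1, h2, h3, h4⟩ := H d (le_of_max_le_left hd)
  obtain ⟨P', Q', k1, k2, k3, k4⟩ := hAd P1 Q1 h1 h2 h3
  have h5 := h4 P' Q' k1 k2 k3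
  have hd0 : (0 : ℝ) < d := by exact_mod_cast le_of_max_le_right hd
  have hN : 0 < Nd d P1 + Nd d Q1 := by
    have e1 := Pool.H91.SR.Nd_nonneg d P1
    have e2 := Pool.H91.SR.Nd_nonneg d Q1
    rcases h3 with h | h
    · have := Pool.H91.SR.Nd_pos d h1 h
      linarith
    · have := Pool.H91.SR.Nd_pos d h2 h
      linarith
  have h6 : c / 2 / (d : ℝ) * (Nd d P1 + Nd d Q1) < c / (d : ℝ) * (Nd d P1 + Nd d Q1) := by
    apply mul_lt_mul_of_pos_right _ hN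
    apply div_lt_div_of_pos_right _ hd0
    linarith
  linarith

theorem exact_rate :
    (∀ ε : ℝ, 0 < ε → ∃ C : ℝ, ∀ d : ℕ, 1 ≤ d → App d (C * (d : ℝ) ^ (-1 + ε))) ∧
    ((∀ c : ℝ, 0 < c → ∀ d0 : ℕ, ∃ d : ℕ, d0 ≤ d ∧ App d (c / d)) →
      (∀ (n : ℕ) (T : ℂ[X]), 2 ≤ n → T.natDegree = n → LimP n T) ∧
      ∀ (n : ℕ) (P Q : ℂ[X]), 2 ≤ n → IsCoprime P Q → max P.natDegree Q.natDegree = n →
        (∃ z m, IsSink (rat P Q) z m) → Lim n P Q) := by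
  refine ⟨fun ε hε => Pool.H91.SR.sharp_rate hε, fun hA => ⟨fun n T hn hT => ?_, fun n P Q hn h hd hs => ?_⟩⟩
  · by_contra hL
    obtain ⟨c, hc, d0, H⟩ := barrierP hn hT hL
    refine no_app hc (d0 := max d0 1) (fun d hd => ?_) hA
    obtain ⟨P1, Q1, h1, h2, h3, h4⟩ := H d (le_of_max_le_left hd)
    exact ⟨P1, Q1, h1, h2, h3, fun P' Q' k1 k2 k3 => h4 P' Q' k1 k2
      ((hyp_iff k1 (by rw [k2]; exact le_of_max_le_right hd)).1 k3)⟩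
  · by_contra hL
    obtain ⟨c, hc, d0, H⟩ := barrier hn h hd hs hL
    exact no_app hc H hA

end Pool.Agent.H84.BR
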