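import Pool.Agent.H84.BR.Def
import Pool.Agent.H73.BR.Exp

/-!
BARRIER (MP_8f2e1c_an), chapter IV: the modified map `G` and the sequence of Beltrami coefficients (definitions).

`T = P/Q` in good coordinates (`GD0 n P Q A`), `u` a fixed cut-off (`U0 P Q A u`), `U1 u` the interior of `{u = 1}`; `g = A'/B'` a rational
map of arbitrary degree, close to `T` on the support of `u`; `G = T + s(u) (g - T)`. The structure `Cfg` lists what is used.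
-/

set_option autoImplicit false

open Filter Topology Polynomial Set ComplexConjugate
open scoped ContDiff

namespace Pool.Agent.H84.BR

open Pool.Agent.H44.Fatou Pool.Agent.H32.BT Pool.Agent.H73.BR

/-- the fixed cut-off -/
structure U0 (P Q : ℂ[X]) (A : Set (OnePoint ℂ)) (u : ℂ → ℝ) : Prop where
  smooth : ContDiff ℝ ∞ u
  cpt : HasCompactSupport u
  nn : ∀ z, 0 ≤ u z
  le1 : ∀ z, u z ≤ 1
  off : ∀ z ∈ tsupport u, (z : OnePoint ℂ) ∉ A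
  one1 : ∀ z : ℂ, rat P Q z ∉ interior A → ∀ᶠ y in 𝓝 z, u y = 1
  one2 : ∀ z : ℂ, (z : OnePoint ℂ) ∉ A → (Wr P Q).eval z = 0 → ∀ᶠ y in 𝓝 z, u y = 1

/-- the interior of the set `{u = 1}` -/
def U1 (u : ℂ → ℝ) : Set ℂ := interior {z | u z = 1}

/-- a rational map in the finite chart -/
noncomputable def Tf (P Q : ℂ[X]) (z : ℂ) : ℂ := P.eval z / Q.eval z

/-- the modified map in the finite chart -/
noncomputable def Gf (P Q A' B' : ℂ[X]) (u : ℂ → ℝ) (s : ℝ → ℝ) (z : ℂ) : ℂ :=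
  Tf P Q z + (s (u z) : ℂ) * (Tf A' B' z - Tf P Q z)

/-- the modified map on the sphere -/
noncomputable def Gs (P Q A' B' : ℂ[X]) (u : ℂ → ℝ) (s : ℝ → ℝ) : OnePoint ℂ → OnePoint ℂ := fun x =>
  open Classical in x.elim (rat P Q OnePoint.infty) (fun z => if Q.eval z = 0 then OnePoint.infty else (Gf P Q A' B' u s z : OnePoint ℂ))

/-- the Beltrami coefficient of `G` -/
noncomputable def muG (P Q A' B' : ℂ[X]) (u : ℂ → ℝ) (s : ℝ → ℝ) (z : ℂ) : ℂ :=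
  dzb (Gf P Q A' B' u s) z / dz (Gf P Q A' B' u s) z

open Classical in
/-- the sequence of pulled back coefficients -/
noncomputable def mu (P Q A' B' : ℂ[X]) (u : ℂ → ℝ) (s : ℝ → ℝ) : ℕ → ℂ → ℂ
  | 0, z => muG P Q A' B' u s z
  | m + 1, z => if z ∈ U1 u then mu P Q A' B' u s m (Tf A' B' z) *
      (conj (deriv (Tf A' B') z) / deriv (Tf A' B') z) else muG P Q A' B' u s z

/-- everything that is used of `G` -/
structure Cfg (n : ℕ) (P Q : ℂ[X]) (A : Set (OnePoint ℂ)) (u : ℂ → ℝ) (A' B' : ℂ[X]) (s : ℝ → ℝ) (δ : ℝ) :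
    Prop where
  gd : GD0 n P Q A
  u0 : U0 P Q A u
  cop' : IsCoprime A' B'
  deg' : 2 ≤ max A'.natDegree B'.natDegree
  ssm : ContDiff ℝ ∞ s
  s0 : ∀ᶠ y in 𝓝 (0 : ℝ), s y = 0
  s1 : ∀ᶠ y in 𝓝 (1 : ℝ), s y = 1
  dpos : 0 < δ
  dlt : δ < 1
  den : ∀ z ∈ tsupport u, B'.eval z ≠ 0
  dil : ∀ z ∈ tsupport u, z ∉ U1 u → dz (Gf P Q A' B' u s) z ≠ 0 ∧
    ‖dzb (Gf P Q A' B' u s) z‖ ≤ δ * ‖dz (Gf P Q A' B' u s) z‖
  ent : ∀ z ∈ tsupport u, z ∉ U1 u → (Gf P Q A' B' u s z : OnePoint ℂ) ∈ interior A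
  flat : ∀ c ∈ U1 u, deriv (Tf A' B') c = 0 → ∀ k : ℕ, (∀ i < k, (Tf A' B')^[i] c ∈ U1 u) →
    (Tf A' B')^[k] c ∉ U1 u → ∀ᶠ y in 𝓝 (u ((Tf A' B')^[k] c)), s y = s (u ((Tf A' B')^[k] c))

end Pool.Agent.H84.BR
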