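import Pool.Agent.H84.BR.Trp
import Pool.Agent.H44.Fatou.Coset

/-!
[H84 BR CHR]  BARRIER, chapter IV: good coordinates.

`gen_s`: for all `s` outside a finite set: `P - C s * Q` has degree `n`, no double root, `P.eval s ≠ s * Q.eval s`. Double root `w`:
`P w = s Q w`, `P' w = s Q' w`, so `(Wr P Q).eval w = 0` (finitely many `w`, `wr_ne_zero` in H44/Fatou/Coset.lean), `Q w ≠ 0` (`coprime_eval`: `Q w = 0`
would give `P w = 0`), so `s = P w / Q w`: finitely many. Degree: `P.coeff n - s Q.coeff n = 0` for at most one `s` (`coeff_dg`: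
not both coefficients are zero). `P s = s Q s`: finitely many `s` (`fixed_finite` in H32/BT/Conv.lean).

`good_chart`: `trap_of_sink` gives `A0`, `interior A0` is open and not empty, so it contains infinitely many finite points (a nonempty open set
of `OnePoint ℂ` contains a nonempty open set of `ℂ`, `isOpenEmbedding_coe`, `continuous_coe`, density of `ℂ` in `OnePoint ℂ`: `denseRange_coe`): choose
`s` in it outside the finite set. `exists_mob s` gives `φ`, `P1 = cj1 s n P Q`, `Q1 = cj2 s n P Q` coprime of degree `n`, `rat P1 Q1` conjugate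
to `rat P Q`, `φ s = ∞`. `Q1.coeff n = P s - s Q s ≠ 0` (`mob_cj2_coeff`), so `Q1.natDegree = n`. Roots of `Q1 = reflect n ((P - C s * Q).comp (X + C s))`:
`0` is no root (the coefficient of degree `n` of `P - C s * Q` is not zero, `mob_coeff_comp`, `eval_reflect_zero`); for `u ≠ 0`, with `R = P - C s * Q`:
`R.eval z = Q1.eval ((z - s)⁻¹) * (z - s)^n` for `z ≠ s` (`mob_eval`), so a double root `u` of `Q1` gives the double root `s + u⁻¹` of `R` (differentiate at
`z = s + u⁻¹`). Trap: `A = (rat P1 Q1) ⁻¹' (φ '' A0)` (`trap_conj`, `trap_pre`); `∞ = φ s ∈ interior (φ '' A0) ⊆ A0' ⊆ interior A`; a pole `b` is mapped to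
`∞ ∈ interior (φ '' A0)`, so `b ∈ (rat P1 Q1) ⁻¹' interior (φ '' A0) ⊆ interior A`.

`lim_cj`: `Lim` for the conjugated pair gives `Lim` for the pair: `near_sj`, `sj1_cj`, `sj2_cj`, `cj1_sj`, `cj2_sj`, `cj_back` in H32/BT/Cj.lean and
`hypMap_conj` with the homeomorphism of `exists_mob s` (compare the proof of `robust_cj` there).
-/

set_option autoImplicit false

open Filter Topology Polynomial OnePoint Set

namespace Pool.Agent.H84.BR

open Pool.Agent.H44.Fatou Pool.Agent.H32.BT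

theorem gen_s {n : ℕ} (hn : 2 ≤ n) {P Q : ℂ[X]} (h : IsCoprime P Q) (hd : max P.natDegree Q.natDegree = n) :
    ∃ F : Finset ℂ, ∀ s : ℂ, s ∉ F → P.coeff n - s * Q.coeff n ≠ 0 ∧ P.eval s - s * Q.eval s ≠ 0 ∧
      ∀ w : ℂ, P.eval w = s * Q.eval w → (derivative P).eval w ≠ s * (derivative Q).eval w := by
  classical
  obtain ⟨E, hE, hE2⟩ := pencil_good h (by omega) hd
  have hne : P - X * Q ≠ 0 := by
    intro h0
    have hPQ : P = X * Q := sub_eq_zero.1 h0
    have hu : IsUnit Q := h.symm.isUnit_of_dvd' (dvd_refl _) (hPQ ▸ dvd_mul_left Q X)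
    have hQ : Q.natDegree = 0 := natDegree_eq_zero_of_isUnit hu
    have hP : P.natDegree ≤ 1 := by
      rw [hPQ]
      refine natDegree_mul_le.trans ?_
      rw [hQ]
      simp
    rw [hQ] at hd
    have h1 : max P.natDegree 0 ≤ 1 := max_le hP (Nat.zero_le _)
    omega
  refine ⟨hE.toFinset ∪ (P - X * Q).roots.toFinset, fun s hs => ?_⟩
  rw [Finset.mem_union, not_or, Set.Finite.mem_toFinset, Multiset.mem_toFinset, mem_roots hne, IsRoot.def] at hs
  obtain ⟨h1, h2⟩ := hE2 s hs.1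
  refine ⟨?_, ?_, fun w hw hw' => ?_⟩
  · have h3 : (P - C s * Q).coeff n ≠ 0 := by
      have h4 : (P - C s * Q) ≠ 0 := by
        intro h5
        rw [h5, natDegree_zero] at h1
        omega
      have h5 : (P - C s * Q).leadingCoeff ≠ 0 := leadingCoeff_ne_zero.2 h4
      rw [leadingCoeff, h1] at h5
      exact h5
    rwa [coeff_sub, coeff_C_mul] at h3
  · have h3 := hs.2
    rwa [eval_sub, eval_mul, eval_X] at h3
  · rcases coprime_eval h2 w with h3 | h3
    · apply h3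
      rw [eval_sub, eval_mul, eval_C, hw, sub_self]
    · apply h3
      rw [derivative_sub, derivative_C_mul, eval_sub, eval_mul, eval_C, hw', sub_self]

theorem good_chart {n : ℕ} (hn : 2 ≤ n) {P Q : ℂ[X]} (h : IsCoprime P Q) (hd : max P.natDegree Q.natDegree = n)
    {z : OnePoint ℂ} {m : ℕ} (hs : IsSink (rat P Q) z m) :
    ∃ (s : ℂ) (A : Set (OnePoint ℂ)), GD n (cj1 s n P Q) (cj2 s n P Q) A := by
  classical
  obtain ⟨A0, hA0, hz⟩ := trap_of_sink h (by omega) hs
  obtain ⟨F, hF⟩ := gen_s hn h hd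
  have hP : P.natDegree ≤ n := by rw [← hd]; exact le_max_left _ _
  have hQ : Q.natDegree ≤ n := by rw [← hd]; exact le_max_right _ _
  obtain ⟨c, hc⟩ : ∃ c : ℂ, (c : OnePoint ℂ) ∈ interior A0 := by
    have h1 : (interior A0 ∩ Set.range ((↑) : ℂ → OnePoint ℂ)).Nonempty :=
      (OnePoint.denseRange_coe (X := ℂ)).inter_open_nonempty _ isOpen_interior ⟨z, hz⟩
    obtain ⟨_, hx, c, rfl⟩ := h1
    exact ⟨c, hx⟩
  have hopen : IsOpen {c : ℂ | (c : OnePoint ℂ) ∈ interior A0} :=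
    isOpen_interior.preimage OnePoint.continuous_coe
  have hinf : {c : ℂ | (c : OnePoint ℂ) ∈ interior A0}.Infinite :=
    infinite_of_mem_nhds c (hopen.mem_nhds hc)
  obtain ⟨s, hs1, hs2⟩ := hinf.exists_notMem_finset F
  obtain ⟨g1, g2, g3⟩ := hF s hs2
  obtain ⟨φ, -, hφs, -, hφ⟩ := exists_mob s
  obtain ⟨k1, k2, k3⟩ := hφ n P Q h hd (by omega)
  have hinfA : (∞ : OnePoint ℂ) ∈ interior (φ '' A0) := by
    rw [← φ.image_interior, ← hφs]
    exact ⟨_, hs1, rfl⟩
  have hT := trap_conj φ k3 hA0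
  obtain ⟨t1, t2, t3⟩ := trap_pre (rat_continuous k1) hT
  refine ⟨s, (rat (cj1 s n P Q) (cj2 s n P Q)) ⁻¹' (φ '' A0), hn, k1, ?_, ?_, ?_, t1, ?_, ?_⟩
  · refine le_antisymm (natDegree_reflect_le' (mob_deg1 s (mob_deg2 s hP hQ))) (le_natDegree_of_ne_zero ?_)
    rw [mob_cj2_coeff]
    exact g2
  · exact natDegree_reflect_le' (mob_deg1 s hQ)
  · intro b hb hb'
    by_cases hb0 : b = 0
    · apply g1
      rw [hb0] at hb
      unfold cj2 at hb
      rw [eval_reflect_zero, mob_coeff_comp s (mob_deg2 s hP hQ), coeff_sub, coeff_C_mul] at hb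
      exact hb
    · have hne : s + b⁻¹ ≠ s := by
        intro h3
        apply hb0
        simpa using h3
      have e2 := mob_eval2 s hP hQ hne
      rw [add_sub_cancel_left, inv_inv, hb, zero_mul] at e2
      refine g3 (s + b⁻¹) (sub_eq_zero.1 e2) ?_
      have d1 : HasDerivAt (fun z : ℂ => P.eval z - s * Q.eval z)
          ((derivative P).eval (s + b⁻¹) - s * (derivative Q).eval (s + b⁻¹)) (s + b⁻¹) :=
        (P.hasDerivAt _).sub ((Q.hasDerivAt _).const_mul s)
      have d2 : HasDerivAt (fun z : ℂ => (cj2 s n P Q).eval (z - s)⁻¹ * (z - s) ^ n) 0 (s + b⁻¹) := by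
        have d3 : HasDerivAt (fun z : ℂ => z - s) 1 (s + b⁻¹) := (hasDerivAt_id _).sub_const s
        have hs0 : s + b⁻¹ - s ≠ 0 := sub_ne_zero.2 hne
        have d4 := d3.inv hs0
        have d5 := ((cj2 s n P Q).hasDerivAt ((s + b⁻¹ - s)⁻¹)).comp (s + b⁻¹) d4
        have d6 := d5.mul (d3.pow n)
        have hbb : (s + b⁻¹ - s)⁻¹ = b := by rw [add_sub_cancel_left, inv_inv]
        refine d6.congr_deriv ?_
        simp only [Function.comp_apply, Pi.inv_apply, hbb, hb, hb', zero_mul, add_zero]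
      have d7 : (fun z : ℂ => P.eval z - s * Q.eval z) =ᶠ[𝓝 (s + b⁻¹)]
          (fun z : ℂ => (cj2 s n P Q).eval (z - s)⁻¹ * (z - s) ^ n) := by
        have d8 : ∀ᶠ z in 𝓝 (s + b⁻¹), z ≠ s := isOpen_ne.mem_nhds hne
        exact d8.mono fun z hz => mob_eval2 s hP hQ hz
      exact sub_eq_zero.1 (d1.unique (d2.congr_of_eventuallyEq d7))
  · exact t2 (interior_subset hinfA)
  · intro b hb
    apply t3
    show rat (cj1 s n P Q) (cj2 s n P Q) (b : OnePoint ℂ) ∈ interior (φ '' A0)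
    rw [rat_coe, hb]
    unfold pt
    rw [if_pos rfl]
    exact hinfA

theorem lim_cj {n : ℕ} (hn : 2 ≤ n) {P Q : ℂ[X]} (hP : P.natDegree ≤ n) (hQ : Q.natDegree ≤ n) (s : ℂ)
    (hL : Lim n (cj1 s n P Q) (cj2 s n P Q)) : Lim n P Q := by
  obtain ⟨φ, -, -, -, hφ⟩ := exists_mob s
  intro ε hε
  have hK : 0 < (1 + ‖s‖) * shM (-s) n := by
    have := shM_pos (-s) n
    positivity
  obtain ⟨ρ', hρ', hlt⟩ := exists_small hK hε
  rw [mul_assoc] at hlt
  obtain ⟨P', Q', hcop, hdeg, hnear, hhyp⟩ := hL ρ' hρ'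
  have hPd : P'.natDegree ≤ n := by rw [← hdeg]; exact le_max_left _ _
  have hQd : Q'.natDegree ≤ n := by rw [← hdeg]; exact le_max_right _ _
  have hc1 : cj1 s n (sj1 s n P' Q') (sj2 s n P') = P' := cj1_sj s n P' Q'
  have hc2 : cj2 s n (sj1 s n P' Q') (sj2 s n P') = Q' := cj2_sj s n P' Q'
  have hback := cj_back s (sj1_deg s hPd hQd) (sj2_deg s hPd)
    (by rw [hc1, hc2]; exact hcop) (by rw [hc1, hc2]; exact hdeg)
  obtain ⟨-, -, h3⟩ := hφ n (sj1 s n P' Q') (sj2 s n P') hback.1 hback.2 (by omega)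
  rw [hc1, hc2] at h3
  have hc1d : (cj1 s n P Q).natDegree ≤ n := natDegree_reflect_le' (mob_deg1 s hQ)
  have hc2d : (cj2 s n P Q).natDegree ≤ n :=
    natDegree_reflect_le' (mob_deg1 s (mob_deg2 s hP hQ))
  have hn' := near_sj s hPd hQd hc1d hc2d hρ' hlt hnear
  rw [sj1_cj, sj2_cj] at hn'
  exact ⟨sj1 s n P' Q', sj2 s n P', hback.1, hback.2, hn', (hypMap_conj φ h3).1 hhyp⟩

end Pool.Agent.H84.BR
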