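import Pool.Agent.H84.BR.Cfg
import Pool.Agent.H44.Fatou.Coset

/-!
[H84 BR EXA]  BARRIER, chapter IV: estimates for quotients of polynomials, and the finite set of exit values.

`quot_close`. Proof. `K` compact, `K ⊆ closedBall 0 R1`, `R = R1 + 1`. If `F = A' - P` satisfies `‖F.eval w‖ ≤ η` for `‖w‖ ≤ R` then `‖(derivative F).eval z‖ ≤ η` for `‖z‖ ≤ R1` (Cauchy estimate on the circle
of radius `1`, `Complex.norm_deriv_le_of_forall_mem_sphere_norm_le`); the same for `B' - Q`. On `K`: `‖Q‖ ≥ q > 0` (compactness), `‖P‖, ‖Q‖, ‖P'‖, ‖Q'‖ ≤ M`, `M ≥ 1`. For `η ≤ q / 2`, `η ≤ 1`: `‖B'‖ ≥ q / 2`,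
`A' / B' - P / Q = (A' Q - P B') / (B' Q)` with `A' Q - P B' = (A' - P) Q - P (B' - Q)`, of norm `≤ 2 M η`, so the difference is `≤ 4 M η / q^2`. Derivatives: `(Tf A B)' = (A' B - A B') / B^2`
(`Polynomial.hasDerivAt`, `HasDerivAt.div`): numerators `N' = A'' B' - A' B''`, `N = P' Q - P Q'` (dashes for derivatives) differ by at most `C η` with `C` depending on `M` (products of quantities
differing by `≤ η` and of size `≤ M + 1`: `≤ 2 (2 M + 1) η`), and `N' / B'^2 - N / Q^2 = (N' Q^2 - N B'^2) / (B'^2 Q^2)`. Choose `η` small. (A soft proof is also possible: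
continuity of `(a, b, a', b') ↦ (a / b, (a' b - a b') / b^2)` uniformly on a compact set where `b ≠ 0`.)

`flat_set`: `deriv (Tf A' B') c = (Wr A' B').eval c / (B'.eval c)^2` for `B' c ≠ 0`, and `Wr A' B' ≠ 0` (`wr_ne_zero` in H44/Fatou/Coset.lean), so there are finitely many `c ∈ V` with derivative `0`. For each of them there is at
most one `k` with `(∀ i < k, g^[i] c ∈ V)` and `g^[k] c ∉ V`. `S` = the image of this finite set under `c ↦ u (g^[k c] c)` with `k c` this `k` if it exists (`Nat.find` or `Classical.choose`), `0` otherwise.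
-/

set_option autoImplicit false

open Filter Topology Polynomial Set
open scoped ContDiff

namespace Pool.Agent.H84.BR

open Pool.Agent.H44.Fatou Pool.Agent.H32.BT

private theorem deriv_Tf' {P Q : ℂ[X]} {z : ℂ} (hz : Q.eval z ≠ 0) :
    deriv (Tf P Q) z = ((derivative P).eval z * Q.eval z - P.eval z * (derivative Q).eval z)
      / (Q.eval z) ^ 2 := by
  have h1 : HasDerivAt (Tf P Q) (((derivative P).eval z * Q.eval z
      - P.eval z * (derivative Q).eval z) / (Q.eval z) ^ 2) z :=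
    (P.hasDerivAt z).fun_div (Q.hasDerivAt z) hz
  exact h1.deriv

private theorem deriv_small {F : ℂ[X]} {z : ℂ} {η R : ℝ} (hR : ‖z‖ + 1 ≤ R)
    (h : ∀ w : ℂ, ‖w‖ ≤ R → ‖F.eval w‖ ≤ η) : ‖(derivative F).eval z‖ ≤ η := by
  have h1 := Complex.norm_deriv_le_of_forall_mem_sphere_norm_le (c := z) (R := 1) (C := η)
    (f := fun w => F.eval w) one_pos F.differentiable.diffContOnCl (by
      intro w hw
      apply h
      rw [mem_sphere_iff_norm] at hw
      have : w = (w - z) + z := by ring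
      rw [this]
      have := norm_add_le (w - z) z
      linarith)
  rw [Polynomial.deriv, div_one] at h1
  exact h1

theorem quot_close {P Q : ℂ[X]} {K : Set ℂ} (hK : IsCompact K) (hQ : ∀ z ∈ K, Q.eval z ≠ 0) {ε : ℝ} (hε : 0 < ε) :
    ∃ η R : ℝ, 0 < η ∧ ∀ A' B' : ℂ[X],
      (∀ w : ℂ, ‖w‖ ≤ R → ‖A'.eval w - P.eval w‖ ≤ η ∧ ‖B'.eval w - Q.eval w‖ ≤ η) →
      ∀ z ∈ K, B'.eval z ≠ 0 ∧ ‖Tf A' B' z - Tf P Q z‖ ≤ ε ∧
        ‖deriv (Tf A' B') z - deriv (Tf P Q) z‖ ≤ ε := by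
  obtain ⟨R1, hR1⟩ := hK.isBounded.exists_norm_le
  set X : ℂ → ℂ × ℂ × ℂ × ℂ := fun z =>
    (P.eval z, Q.eval z, (derivative P).eval z, (derivative Q).eval z) with hX
  have hXc : Continuous X := by
    refine P.continuous.prodMk (Q.continuous.prodMk ((derivative P).continuous.prodMk
      (derivative Q).continuous))
  have hL : IsCompact (X '' K) := hK.image hXc
  have hO : IsOpen {x : ℂ × ℂ × ℂ × ℂ | x.2.1 ≠ 0} :=
    isOpen_ne.preimage (continuous_fst.comp continuous_snd)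
  have hLO : X '' K ⊆ {x : ℂ × ℂ × ℂ × ℂ | x.2.1 ≠ 0} := by
    rintro _ ⟨z, hz, rfl⟩
    exact hQ z hz
  obtain ⟨δ1, hδ1, hthick⟩ := hL.exists_thickening_subset_open hO hLO
  set Φ : ℂ × ℂ × ℂ × ℂ → ℂ × ℂ := fun x =>
    (x.1 / x.2.1, (x.2.2.1 * x.2.1 - x.1 * x.2.2.2) / x.2.1 ^ 2) with hΦ
  have hΦc : ∀ x ∈ X '' K, ContinuousAt Φ x := by
    intro x hx
    have hx0 : x.2.1 ≠ 0 := hLO hx
    have hx0' : x.2.1 ^ 2 ≠ 0 := pow_ne_zero 2 hx0
    have c1 : ContinuousAt (fun x : ℂ × ℂ × ℂ × ℂ => x.1) x := continuousAt_fst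
    have c2 : ContinuousAt (fun x : ℂ × ℂ × ℂ × ℂ => x.2.1) x :=
      (continuous_fst.comp continuous_snd).continuousAt
    have c3 : ContinuousAt (fun x : ℂ × ℂ × ℂ × ℂ => x.2.2.1) x :=
      (continuous_fst.comp (continuous_snd.comp continuous_snd)).continuousAt
    have c4 : ContinuousAt (fun x : ℂ × ℂ × ℂ × ℂ => x.2.2.2) x :=
      (continuous_snd.comp (continuous_snd.comp continuous_snd)).continuousAt
    exact (c1.div c2 hx0).prodMk (((c3.mul c2).sub (c1.mul c4)).div (c2.pow 2) hx0')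
  have huc := hL.uniformContinuousAt_of_continuousAt Φ hΦc (Metric.dist_mem_uniformity hε)
  obtain ⟨δ2, hδ2, hδ2'⟩ := Metric.mem_uniformity_dist.1 huc
  refine ⟨min δ1 δ2 / 2, R1 + 1, by positivity, ?_⟩
  intro A' B' hAB z hz
  have hη1 : min δ1 δ2 / 2 < δ1 := by
    have := min_le_left δ1 δ2
    linarith
  have hη2 : min δ1 δ2 / 2 < δ2 := by
    have := min_le_right δ1 δ2
    linarith
  have hzR := hR1 z hz
  have eA : ‖A'.eval z - P.eval z‖ ≤ min δ1 δ2 / 2 := (hAB z (by linarith)).1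
  have eB : ‖B'.eval z - Q.eval z‖ ≤ min δ1 δ2 / 2 := (hAB z (by linarith)).2
  have eA' : ‖(derivative A').eval z - (derivative P).eval z‖ ≤ min δ1 δ2 / 2 := by
    have := deriv_small (F := A' - P) (z := z) (R := R1 + 1) (η := min δ1 δ2 / 2) (by linarith)
      (fun w hw => by rw [eval_sub]; exact (hAB w hw).1)
    rwa [derivative_sub, eval_sub] at this
  have eB' : ‖(derivative B').eval z - (derivative Q).eval z‖ ≤ min δ1 δ2 / 2 := by
    have := deriv_small (F := B' - Q) (z := z) (R := R1 + 1) (η := min δ1 δ2 / 2) (by linarith)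
      (fun w hw => by rw [eval_sub]; exact (hAB w hw).2)
    rwa [derivative_sub, eval_sub] at this
  set Y : ℂ × ℂ × ℂ × ℂ :=
    (A'.eval z, B'.eval z, (derivative A').eval z, (derivative B').eval z) with hY
  have hdist : dist Y (X z) ≤ min δ1 δ2 / 2 := by
    rw [Prod.dist_eq, Prod.dist_eq, Prod.dist_eq, dist_eq_norm, dist_eq_norm, dist_eq_norm,
      dist_eq_norm]
    exact max_le eA (max_le eB (max_le eA' eB'))
  have hB0 : B'.eval z ≠ 0 := by
    have h1 : Y ∈ Metric.thickening δ1 (X '' K) :=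
      Metric.mem_thickening_iff.2 ⟨X z, ⟨z, hz, rfl⟩, hdist.trans_lt hη1⟩
    exact hthick h1
  have hmain : dist (Φ (X z)) (Φ Y) < ε := by
    have h1 : dist (X z) Y < δ2 := by
      rw [dist_comm]; exact hdist.trans_lt hη2
    exact hδ2' h1 ⟨z, hz, rfl⟩
  rw [Prod.dist_eq, max_lt_iff, dist_comm, dist_eq_norm, dist_comm (Φ (X z)).2, dist_eq_norm]
    at hmain
  refine ⟨hB0, hmain.1.le, ?_⟩
  rw [deriv_Tf' hB0, deriv_Tf' (hQ z hz)]
  exact hmain.2.le

theorem deriv_Tf {P Q : ℂ[X]} {z : ℂ} (hz : Q.eval z ≠ 0) :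
    deriv (Tf P Q) z = (Wr P Q).eval z / (Q.eval z) ^ 2 := by
  rw [deriv_Tf' hz, Wr, eval_sub, eval_mul, eval_mul]

theorem flat_set {A' B' : ℂ[X]} (hc : IsCoprime A' B') (hd : 2 ≤ max A'.natDegree B'.natDegree) {V : Set ℂ}
    (hB : ∀ z ∈ V, B'.eval z ≠ 0) (u : ℂ → ℝ) :
    ∃ S : Finset ℝ, ∀ c ∈ V, deriv (Tf A' B') c = 0 → ∀ k : ℕ, (∀ i < k, (Tf A' B')^[i] c ∈ V) →
      (Tf A' B')^[k] c ∉ V → u ((Tf A' B')^[k] c) ∈ S := by
  classical
  have hW : Wr A' B' ≠ 0 := wr_ne_zero hc (by omega)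
  have hfin : {c | c ∈ V ∧ deriv (Tf A' B') c = 0}.Finite := by
    refine (Polynomial.finite_setOfPred_isRoot hW).subset ?_
    rintro c ⟨hcV, hd0⟩
    rw [deriv_Tf (hB c hcV), div_eq_zero_iff] at hd0
    rcases hd0 with h | h
    · exact h
    · exact absurd (pow_eq_zero_iff (two_ne_zero)|>.1 h) (hB c hcV)
  let kf : ℂ → ℕ := fun c =>
    if h : ∃ k, (∀ i < k, (Tf A' B')^[i] c ∈ V) ∧ (Tf A' B')^[k] c ∉ V then Nat.find h else 0
  refine ⟨hfin.toFinset.image (fun c => u ((Tf A' B')^[kf c] c)), ?_⟩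
  intro c hcV hd0 k hk1 hk2
  rw [Finset.mem_image]
  refine ⟨c, by rw [Set.Finite.mem_toFinset]; exact ⟨hcV, hd0⟩, ?_⟩
  have h : ∃ k, (∀ i < k, (Tf A' B')^[i] c ∈ V) ∧ (Tf A' B')^[k] c ∉ V := ⟨k, hk1, hk2⟩
  have hk : kf c = k := by
    change (if h : ∃ k, (∀ i < k, (Tf A' B')^[i] c ∈ V) ∧ (Tf A' B')^[k] c ∉ V
      then Nat.find h else 0) = k
    rw [dif_pos h]
    refine le_antisymm (Nat.find_min' h ⟨hk1, hk2⟩) ?_
    by_contra hlt
    push Not at hlt
    exact (Nat.find_spec h).2 (hk1 _ hlt)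
  rw [hk]

end Pool.Agent.H84.BR
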