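import Pool.Agent.H84.BR.Emb
import Pool.Agent.H84.BR.Stg
import Pool.Agent.H84.BR.Chr

/-!
BARRIER (MP_8f2e1c_an): the theorem.
-/

set_option autoImplicit false

open Filter Topology Polynomial Set

namespace Pool.Agent.H84.BR

open Pool.Agent.H44.Fatou Pool.Agent.H32.BT
open Pool.Agent.H85.LD (Nd)

/-- if some map of degree `n ≥ 2` with a sink is not a limit of hyperbolic maps of degree `n`, then the rate `1/d` cannot be improved -/
theorem barrier {n : ℕ} (hn : 2 ≤ n) {P Q : ℂ[X]} (h : IsCoprime P Q) (hd : max P.natDegree Q.natDegree = n)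
    (hs : ∃ z m, IsSink (rat P Q) z m) (hL : ¬ Lim n P Q) : ∃ c : ℝ, 0 < c ∧ ∃ d0 : ℕ, ∀ d : ℕ, d0 ≤ d →
    ∃ P1 Q1 : ℂ[X], P1.natDegree ≤ d ∧ Q1.natDegree ≤ d ∧ (P1 ≠ 0 ∨ Q1 ≠ 0) ∧
      ∀ P' Q' : ℂ[X], IsCoprime P' Q' → max P'.natDegree Q'.natDegree = d → Hyp P' Q' →
        c / (d : ℝ) * (Nd d P1 + Nd d Q1) ≤ Nd d (P1 - P') + Nd d (Q1 - Q') := by
  obtain ⟨z, m, hz⟩ := hs
  obtain ⟨s, A, hG⟩ := good_chart hn h hd hz
  have hP : P.natDegree ≤ n := by rw [← hd]; exact le_max_left _ _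
  have hQ : Q.natDegree ≤ n := by rw [← hd]; exact le_max_right _ _
  have hL' : ¬ Lim n (cj1 s n P Q) (cj2 s n P Q) := fun hc => hL (lim_cj hn hP hQ s hc)
  have hQ0 : cj2 s n P Q ≠ 0 := by
    intro h0
    have h1 := hG.degQ
    rw [h0, natDegree_zero] at h1
    omega
  obtain ⟨c, hc, d0, hd0⟩ := embed hG.degP hG.degQ.le hQ0 (straight hG) hL'
  refine ⟨c, hc, max d0 1, fun d hdd => ?_⟩
  obtain ⟨P1, Q1, k1, k2, k3, k4⟩ := hd0 d (le_of_max_le_left hdd)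
  refine ⟨P1, Q1, k1, k2, k3, fun P' Q' h1 h2 h3 => k4 P' Q' h1 h2 ?_⟩
  exact (hyp_iff h1 (by rw [h2]; exact le_of_max_le_right hdd)).1 h3

end Pool.Agent.H84.BR
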