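import Pool.Agent.H84.BR.Gst

/-!
[H84 BR MUA]  BARRIER, chapter IV: the Beltrami coefficients `mu m`: size and support.

`muG_zero`: if `z ∉ tsupport u` or `z ∈ U1 u` then `muG z = 0`. In `U1 u`: `G = g` near `z` (`G_on`), `g` is holomorphic (`Tf_holo`, `Cfg.den`, `U1_sub`), so
`dzb G z = 0` (`Filter.EventuallyEq.fderiv_eq`, `wirt_holo`). Outside `tsupport u`: `G = T` near `z` (`G_off`); if `Q z ≠ 0` the same. If `Q z = 0`: `Tf P Q` is not
continuous at `z` (the value is `0` by `div_zero` and `|P/Q| → ∞`: `P z ≠ 0` by `coprime_eval`, `Tendsto.div_atTop`-like argument, or: if it were continuous at `z` then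
`P = T * Q → 0` at `z`, but `P z ≠ 0`), so `fderiv ℝ (Tf P Q) z = 0` (`fderiv_zero_of_not_differentiableAt`) and `dzb = 0`.
`mu_off`: `z ∉ tsupport u → mu m z = 0` (then `z ∉ U1 u`, both cases give `muG z = 0`).
`mu_bd`: `‖mu m z‖ ≤ δ`: induction; `muG`: zero or `z ∈ tsupport u \ U1 u` and `Cfg.dil`; in `U1 u`: `‖conj a / a‖ ≤ 1`.
`mu_A`: `mu m z = 0` if `(z : OnePoint ℂ) ∈ A` (then `z ∉ tsupport u`, `U0.off`).
`mu_succ_off`: `mu (m + 1) z = muG z` for `z ∉ U1 u`; `mu_zero_U1 : z ∈ U1 u → mu 0 z = 0`.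
-/

set_option autoImplicit false

open Filter Topology Polynomial Set ComplexConjugate
open scoped ContDiff

namespace Pool.Agent.H84.BR

open Pool.Agent.H44.Fatou Pool.Agent.H32.BT Pool.Agent.H73.BR

variable {n : ℕ} {P Q A' B' : ℂ[X]} {A : Set (OnePoint ℂ)} {u : ℂ → ℝ} {s : ℝ → ℝ} {δ : ℝ}

theorem muG_zero (h : Cfg n P Q A u A' B' s δ) {z : ℂ} (hz : z ∉ tsupport u ∨ z ∈ U1 u) :
    muG P Q A' B' u s z = 0 := by
  have key : dzb (Gf P Q A' B' u s) z = 0 := by
    rcases hz with hz | hz
    · have h1 : fderiv ℝ (Gf P Q A' B' u s) z = fderiv ℝ (Tf P Q) z :=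
        Filter.EventuallyEq.fderiv_eq (G_off h hz)
      have h2 : dzb (Gf P Q A' B' u s) z = dzb (Tf P Q) z := by
        unfold dzb
        rw [h1]
      rw [h2]
      by_cases hQ : Q.eval z = 0
      · have h3 : ¬ DifferentiableAt ℝ (Tf P Q) z := by
          intro hd
          have hc : ContinuousAt (Tf P Q) z := hd.continuousAt
          have hQ0 : Q ≠ 0 := by
            intro h0
            have h4 := h.gd.cop
            have h5 := h.gd.n2
            have h6 := h.gd.deg
            rw [h0, isCoprime_zero_right] at h4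
            rw [h0, natDegree_zero, natDegree_eq_zero_of_isUnit h4, max_self] at h6
            omega
          have hfin : ({y : ℂ | Q.IsRoot y} \ {z}).Finite :=
            (finite_setOf_isRoot hQ0).subset diff_subset
          have hev : ∀ᶠ y in 𝓝[≠] z, Q.eval y ≠ 0 := by
            have h6 : ({y : ℂ | Q.IsRoot y} \ {z})ᶜ ∈ 𝓝 z :=
              hfin.isClosed.isOpen_compl.mem_nhds (fun h7 => h7.2 rfl)
            filter_upwards [mem_nhdsWithin_of_mem_nhds h6, self_mem_nhdsWithin] with y hy1 hy2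
            intro h7
            exact hy1 ⟨h7, hy2⟩
          have hl1 : Tendsto (fun y => P.eval y) (𝓝[≠] z) (𝓝 (P.eval z)) :=
            (P.continuous.continuousAt).tendsto.mono_left nhdsWithin_le_nhds
          have hl2 : Tendsto (fun y => Tf P Q y * Q.eval y) (𝓝[≠] z)
              (𝓝 (Tf P Q z * Q.eval z)) :=
            (hc.mul Q.continuous.continuousAt).tendsto.mono_left nhdsWithin_le_nhds
          have hl3 : Tendsto (fun y => P.eval y) (𝓝[≠] z) (𝓝 (Tf P Q z * Q.eval z)) := by
            refine hl2.congr' ?_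
            filter_upwards [hev] with y hy
            unfold Tf
            exact div_mul_cancel₀ _ hy
          have h8 : P.eval z = Tf P Q z * Q.eval z := tendsto_nhds_unique hl1 hl3
          rw [hQ, mul_zero] at h8
          rcases coprime_eval h.gd.cop z with h9 | h9
          · exact h9 h8
          · exact h9 hQ
        unfold dzb
        rw [fderiv_zero_of_not_differentiableAt h3]
        simp
      · exact (wirt_holo (Tf_holo hQ).1).2
    · have h1 : fderiv ℝ (Gf P Q A' B' u s) z = fderiv ℝ (Tf A' B') z :=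
        Filter.EventuallyEq.fderiv_eq (G_on h hz)
      have h2 : dzb (Gf P Q A' B' u s) z = dzb (Tf A' B') z := by
        unfold dzb
        rw [h1]
      rw [h2]
      exact (wirt_holo (Tf_holo (h.den z ((U1_sub u h.u0.smooth.continuous).1 hz))).1).2
  unfold muG
  rw [key, zero_div]

theorem mu_off (h : Cfg n P Q A u A' B' s δ) (m : ℕ) {z : ℂ} (hz : z ∉ tsupport u) :
    mu P Q A' B' u s m z = 0 := by
  cases m with
  | zero => exact muG_zero h (Or.inl hz)
  | succ m =>
    have h1 : z ∉ U1 u := fun h2 => hz ((U1_sub u h.u0.smooth.continuous).1 h2)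
    simp only [mu]
    rw [if_neg h1]
    exact muG_zero h (Or.inl hz)

theorem mu_bd (h : Cfg n P Q A u A' B' s δ) (m : ℕ) (z : ℂ) : ‖mu P Q A' B' u s m z‖ ≤ δ := by
  have h0 : ∀ z : ℂ, ‖muG P Q A' B' u s z‖ ≤ δ := by
    intro z
    by_cases hz : z ∈ tsupport u ∧ z ∉ U1 u
    · obtain ⟨h1, h2⟩ := h.dil z hz.1 hz.2
      unfold muG
      rw [norm_div, div_le_iff₀ (norm_pos_iff.2 h1)]
      exact h2
    · have h3 : z ∉ tsupport u ∨ z ∈ U1 u := by
        by_contra hc
        push Not at hc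
        exact hz hc
      rw [muG_zero h h3, norm_zero]
      exact h.dpos.le
  induction m generalizing z with
  | zero => exact h0 z
  | succ m ih =>
    simp only [mu]
    by_cases hz : z ∈ U1 u
    · rw [if_pos hz, norm_mul]
      have h1 : ‖conj (deriv (Tf A' B') z) / deriv (Tf A' B') z‖ ≤ 1 := by
        rw [norm_div, Complex.norm_conj]
        exact div_self_le_one _
      calc ‖mu P Q A' B' u s m (Tf A' B' z)‖ * ‖conj (deriv (Tf A' B') z) / deriv (Tf A' B') z‖
          ≤ δ * 1 := mul_le_mul (ih _) h1 (norm_nonneg _) h.dpos.le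
        _ = δ := mul_one δ
    · rw [if_neg hz]
      exact h0 z

theorem mu_A (h : Cfg n P Q A u A' B' s δ) (m : ℕ) {z : ℂ} (hz : (z : OnePoint ℂ) ∈ A) :
    mu P Q A' B' u s m z = 0 := by
  exact mu_off h m (fun h1 => h.u0.off z h1 hz)

theorem mu_succ_off (m : ℕ) {z : ℂ} (hz : z ∉ U1 u) :
    mu P Q A' B' u s (m + 1) z = muG P Q A' B' u s z := by
  simp only [mu]
  rw [if_neg hz]

theorem mu_succ_on (m : ℕ) {z : ℂ} (hz : z ∈ U1 u) :
    mu P Q A' B' u s (m + 1) z = mu P Q A' B' u s m (Tf A' B' z) *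
      (conj (deriv (Tf A' B') z) / deriv (Tf A' B') z) := by
  simp only [mu]
  rw [if_pos hz]

theorem mu_zero_U1 (h : Cfg n P Q A u A' B' s δ) {z : ℂ} (hz : z ∈ U1 u) : mu P Q A' B' u s 0 z = 0 := by
  exact muG_zero h (Or.inr hz)

end Pool.Agent.H84.BR
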