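import Pool.Agent.H84.BR.Mua

/-!
[H84 BR MUB]  BARRIER, chapter IV: the Beltrami coefficients `mu m` are smooth.

Write `g = Tf A' B'`, `G = Gf ...`.
`muG_smooth`: `muG` is `C^∞`. The set `{z ∉ tsupport u} ∪ U1 u` is open and `muG = 0` on it (`muG_zero`). At `z ∈ tsupport u \ U1 u`: `Q z ≠ 0` (`pole_off`), `G` is
smooth near `z` (`G_smooth`; `Q ≠ 0` near `z`), so `dz G`, `dzb G` are smooth at `z` (`ContDiffAt.fderiv_right`, evaluation at `1` and `I`), and `dz G z ≠ 0` (`Cfg.dil`):
the quotient is smooth at `z` (`ContDiffAt.div`).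
`near_A`: if `(p : OnePoint ℂ) ∈ interior A` then `mu m = 0` near `p` (`mu_A`, `continuous_coe`).
`near_out`: let `p ∉ U1 u` and suppose that `s y = s (u p)` for `y` near `u p`. Then for every `m`, `mu m = 0` near `p`. Proof: `s ∘ u` is constant near `p`
(`U0.smooth.continuous`), so near `p`: if `p ∉ tsupport u` use `mu_off` (open set). If `p ∈ tsupport u`: `G = T + s (u p) * (g - T)` near `p` is holomorphic at all points near
`p` (`pole_off`, `Cfg.den`: `Q`, `B'` are not zero near `p`), so `muG = 0` near `p` (`wirt_holo` at each of these points, `G` being equal to this function near each of them).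
`m = 0`: done. `m + 1`: points `y ∉ U1 u` near `p`: `mu (m + 1) y = muG y = 0`. Points `y ∈ U1 u` near `p`: then `p ∈ closure (U1 u)` (otherwise there are no such
points near `p`), so `u p = 1`, `G p = g p` (`U1_sub`, `G_one`), `(g p : OnePoint ℂ) ∈ interior A` (`Cfg.ent`), `g` is continuous at `p`, so `g y ∈ interior A` and `mu m (g y) = 0`
(`mu_A`).
`near_crit`: for `c ∈ U1 u` with `deriv g c = 0` and every `m`: `mu m = 0` near `g c`. More generally (induction on `m`, for all `j ≥ 1`): if `g^[i] c ∈ U1 u` for all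
`i < j` then `mu m = 0` near `g^[j] c`. If `g^[j] c ∉ U1 u`: `near_out` with `Cfg.flat`. If `v = g^[j] c ∈ U1 u`: `m = 0`: `mu 0 = 0` on the open set `U1 u`. `m + 1`: near `v`
all points are in `U1 u`, `mu (m + 1) y = mu m (g y) * _`, `g y` is near `g v = g^[j + 1] c`, where `mu m = 0` by the induction hypothesis.
`mu_smooth`: induction on `m`. `m + 1`, at `z`. Case `z ∈ U1 u`: near `z` `mu (m + 1) y = mu m (g y) * (conj (deriv g y) / deriv g y)`. If `deriv g z ≠ 0` this is smooth at `z`
(`g` holomorphic near `z`, `deriv g` is smooth: it is a rational function, or `AnalyticAt`; `conj` is smooth, `starL'`/`Complex.conjCLE`). If `deriv g z = 0`: `near_crit` with `j = 1`: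
`mu m (g y) = 0` for `y` near `z`, so `mu (m + 1) = 0` near `z`. Case `z ∉ U1 u`: we show `mu (m + 1) = muG` near `z`: for `y ∉ U1 u` by definition; if `z ∉ closure (U1 u)` all
`y` near `z` are like this. If `z ∈ closure (U1 u)`: `z ∈ tsupport u`, `u z = 1`, `G z = g z ∈ interior A` (`Cfg.ent`), so for `y ∈ U1 u` near `z` `g y ∈ interior A`, `mu m (g y) = 0` and
`mu (m + 1) y = 0 = muG y` (`muG_zero`).
-/

set_option autoImplicit false

open Filter Topology Polynomial Set ComplexConjugate
open scoped ContDiff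

namespace Pool.Agent.H84.BR

open Pool.Agent.H44.Fatou Pool.Agent.H32.BT Pool.Agent.H73.BR

variable {n : ℕ} {P Q A' B' : ℂ[X]} {A : Set (OnePoint ℂ)} {u : ℂ → ℝ} {s : ℝ → ℝ} {δ : ℝ}

theorem muG_smooth (h : Cfg n P Q A u A' B' s δ) : ContDiff ℝ ∞ (muG P Q A' B' u s) := by
  rw [contDiff_iff_contDiffAt]
  intro z
  by_cases hz : z ∈ tsupport u ∧ z ∉ U1 u
  · have hQ : Q.eval z ≠ 0 := pole_off h hz.1
    have hG := G_smooth h hQ
    have hf : ContDiffAt ℝ ∞ (fderiv ℝ (Gf P Q A' B' u s)) z := hG.fderiv_right (by simp)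
    have h1 : ContDiffAt ℝ ∞ (fun y => fderiv ℝ (Gf P Q A' B' u s) y 1) z :=
      hf.clm_apply contDiffAt_const
    have h2 : ContDiffAt ℝ ∞ (fun y => fderiv ℝ (Gf P Q A' B' u s) y Complex.I) z :=
      hf.clm_apply contDiffAt_const
    have h3 : ContDiffAt ℝ ∞ (dzb (Gf P Q A' B' u s)) z := by
      unfold dzb
      exact (h1.add (contDiffAt_const.mul h2)).div_const 2
    have h4 : ContDiffAt ℝ ∞ (dz (Gf P Q A' B' u s)) z := by
      unfold dz
      exact (h1.sub (contDiffAt_const.mul h2)).div_const 2
    have h5 : muG P Q A' B' u s = fun y =>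
        dzb (Gf P Q A' B' u s) y * (dz (Gf P Q A' B' u s) y)⁻¹ := by
      funext y
      rw [← div_eq_mul_inv]
      rfl
    rw [h5]
    exact h3.mul (h4.inv (h.dil z hz.1 hz.2).1)
  · have h3 : z ∈ (tsupport u)ᶜ ∪ U1 u := by
      by_contra hc
      rw [mem_union, not_or, mem_compl_iff, not_not] at hc
      exact hz hc
    have ho : IsOpen ((tsupport u)ᶜ ∪ U1 u) :=
      (isClosed_tsupport u).isOpen_compl.union isOpen_interior
    have h4 : muG P Q A' B' u s =ᶠ[𝓝 z] fun _ => 0 := by
      filter_upwards [ho.mem_nhds h3] with y hy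
      exact muG_zero h hy
    exact contDiffAt_const.congr_of_eventuallyEq h4

theorem near_A (h : Cfg n P Q A u A' B' s δ) (m : ℕ) {p : ℂ} (hp : (p : OnePoint ℂ) ∈ interior A) :
    ∀ᶠ y in 𝓝 p, mu P Q A' B' u s m y = 0 := by
  have h1 : ∀ᶠ y : ℂ in 𝓝 p, (y : OnePoint ℂ) ∈ interior A :=
    (OnePoint.continuous_coe.continuousAt (x := p)).eventually (isOpen_interior.mem_nhds hp)
  filter_upwards [h1] with y hy
  exact mu_A h m (interior_subset hy)

theorem near_out (h : Cfg n P Q A u A' B' s δ) {p : ℂ} (hp : p ∉ U1 u)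
    (hs : ∀ᶠ y in 𝓝 (u p), s y = s (u p)) (m : ℕ) : ∀ᶠ y in 𝓝 p, mu P Q A' B' u s m y = 0 := by
  by_cases hpt : p ∈ tsupport u
  · have hQp : Q.eval p ≠ 0 := pole_off h hpt
    have hBp : B'.eval p ≠ 0 := h.den p hpt
    have hsu : ∀ᶠ y in 𝓝 p, s (u y) = s (u p) :=
      (h.u0.smooth.continuous.continuousAt (x := p)).eventually hs
    have hG0 : ∀ᶠ y in 𝓝 p, muG P Q A' B' u s y = 0 := by
      filter_upwards [eventually_eventually_nhds.2 hsu,
        Q.continuous.continuousAt.eventually_ne hQp,
        B'.continuous.continuousAt.eventually_ne hBp] with y h1 h2 h3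
      have h4 : Gf P Q A' B' u s =ᶠ[𝓝 y] fun w =>
          Tf P Q w + (s (u p) : ℂ) * (Tf A' B' w - Tf P Q w) := by
        filter_upwards [h1] with w hw
        unfold Gf
        rw [hw]
      have h5 : DifferentiableAt ℂ (fun w => Tf P Q w +
          (s (u p) : ℂ) * (Tf A' B' w - Tf P Q w)) y :=
        (Tf_holo h2).1.add ((differentiableAt_const _).mul ((Tf_holo h3).1.sub (Tf_holo h2).1))
      have h6 : dzb (Gf P Q A' B' u s) y = 0 := by
        have h7 := (wirt_holo h5).2
        unfold dzb at h7 ⊢
        rw [h4.fderiv_eq]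
        exact h7
      unfold muG
      rw [h6, zero_div]
    cases m with
    | zero => exact hG0
    | succ m =>
      by_cases hcl : p ∈ closure (U1 u)
      · have hu1 : u p = 1 := (U1_sub u h.u0.smooth.continuous).2.2 p hcl
        have hgA : (Tf A' B' p : OnePoint ℂ) ∈ interior A := by
          rw [← G_one h hu1]
          exact h.ent p hpt hp
        have hgc : ContinuousAt (Tf A' B') p := (Tf_holo hBp).1.continuousAt
        have h8 := hgc.eventually (near_A h m hgA)
        filter_upwards [hG0, h8] with y h9 h10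
        by_cases hy : y ∈ U1 u
        · rw [mu_succ_on m hy, h10, zero_mul]
        · rw [mu_succ_off m hy]
          exact h9
      · filter_upwards [hG0, isClosed_closure.isOpen_compl.mem_nhds hcl] with y h9 h10
        rw [mu_succ_off m (fun hy => h10 (subset_closure hy))]
        exact h9
  · filter_upwards [(isClosed_tsupport u).isOpen_compl.mem_nhds hpt] with y hy
    exact mu_off h m hy

theorem near_crit (h : Cfg n P Q A u A' B' s δ) {c : ℂ} (hc : deriv (Tf A' B') c = 0) (m : ℕ) :
    ∀ j : ℕ, 1 ≤ j → (∀ i < j, (Tf A' B')^[i] c ∈ U1 u) →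
      ∀ᶠ y in 𝓝 ((Tf A' B')^[j] c), mu P Q A' B' u s m y = 0 := by
  induction m with
  | zero =>
    intro j hj hi
    by_cases hv : (Tf A' B')^[j] c ∈ U1 u
    · filter_upwards [isOpen_interior.mem_nhds hv] with y hy
      exact mu_zero_U1 h hy
    · exact near_out h hv (h.flat c (hi 0 hj) hc j hi hv) 0
  | succ m ih =>
    intro j hj hi
    by_cases hv : (Tf A' B')^[j] c ∈ U1 u
    · have hi' : ∀ i < j + 1, (Tf A' B')^[i] c ∈ U1 u := by
        intro i hij
        rcases Nat.lt_succ_iff_lt_or_eq.1 hij with h1 | h1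
        · exact hi i h1
        · rw [h1]
          exact hv
      have h1 := ih (j + 1) (Nat.le_succ_of_le hj) hi'
      rw [Function.iterate_succ_apply'] at h1
      have hB : B'.eval ((Tf A' B')^[j] c) ≠ 0 :=
        h.den _ ((U1_sub u h.u0.smooth.continuous).1 hv)
      have hgc : ContinuousAt (Tf A' B') ((Tf A' B')^[j] c) := (Tf_holo hB).1.continuousAt
      filter_upwards [isOpen_interior.mem_nhds hv, hgc.eventually h1] with y hy h2
      rw [mu_succ_on m hy, h2, zero_mul]
    · exact near_out h hv (h.flat c (hi 0 hj) hc j hi hv) (m + 1)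

theorem mu_smooth (h : Cfg n P Q A u A' B' s δ) (m : ℕ) : ContDiff ℝ ∞ (mu P Q A' B' u s m) := by
  induction m with
  | zero => exact muG_smooth h
  | succ m ih =>
    rw [contDiff_iff_contDiffAt]
    intro z
    by_cases hz : z ∈ U1 u
    · have hB : B'.eval z ≠ 0 := h.den z ((U1_sub u h.u0.smooth.continuous).1 hz)
      have hg : ContDiffAt ℝ ∞ (Tf A' B') z := (Tf_holo hB).2
      by_cases hd : deriv (Tf A' B') z = 0
      · have h1 := near_crit h hd m 1 le_rfl (by
          intro i hi
          have h0 : i = 0 := by omega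
          rw [h0]
          exact hz)
        rw [Function.iterate_one] at h1
        have h2 : mu P Q A' B' u s (m + 1) =ᶠ[𝓝 z] fun _ => 0 := by
          filter_upwards [isOpen_interior.mem_nhds hz, hg.continuousAt.eventually h1] with y hy h3
          rw [mu_succ_on m hy, h3, zero_mul]
        exact contDiffAt_const.congr_of_eventuallyEq h2
      · have h1 : ContDiffAt ℝ ∞ (fun y => mu P Q A' B' u s m (Tf A' B' y)) z :=
          ih.contDiffAt.comp z hg
        have h2 : ContDiffAt ℝ ∞ (fun y => fderiv ℝ (Tf A' B') y 1) z :=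
          (hg.fderiv_right (by simp)).clm_apply contDiffAt_const
        have h3 : deriv (Tf A' B') =ᶠ[𝓝 z] fun y => fderiv ℝ (Tf A' B') y 1 := by
          filter_upwards [B'.continuous.continuousAt.eventually_ne hB] with y hy
          have h4 := (Tf_holo (P := A') hy).1
          rw [h4.fderiv_restrictScalars ℝ, ContinuousLinearMap.coe_restrictScalars',
            fderiv_apply_one_eq_deriv]
        have h4 : ContDiffAt ℝ ∞ (deriv (Tf A' B')) z := h2.congr_of_eventuallyEq h3
        have h5 : ContDiffAt ℝ ∞ (fun y => conj (deriv (Tf A' B') y)) z :=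
          Complex.conjCLE.contDiff.contDiffAt.comp z h4
        have h6 : mu P Q A' B' u s (m + 1) =ᶠ[𝓝 z] fun y =>
            mu P Q A' B' u s m (Tf A' B' y) *
              (conj (deriv (Tf A' B') y) * (deriv (Tf A' B') y)⁻¹) := by
          filter_upwards [isOpen_interior.mem_nhds hz] with y hy
          rw [← div_eq_mul_inv]
          exact mu_succ_on m hy
        exact (h1.mul (h5.mul (h4.inv hd))).congr_of_eventuallyEq h6
    · have h1 : mu P Q A' B' u s (m + 1) =ᶠ[𝓝 z] muG P Q A' B' u s := by
        by_cases hcl : z ∈ closure (U1 u)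
        · have hzt : z ∈ tsupport u := (U1_sub u h.u0.smooth.continuous).2.1 hcl
          have hu1 : u z = 1 := (U1_sub u h.u0.smooth.continuous).2.2 z hcl
          have hgA : (Tf A' B' z : OnePoint ℂ) ∈ interior A := by
            rw [← G_one h hu1]
            exact h.ent z hzt hz
          have hgc : ContinuousAt (Tf A' B') z := (Tf_holo (h.den z hzt)).1.continuousAt
          filter_upwards [hgc.eventually (near_A h m hgA)] with y hy
          by_cases hyU : y ∈ U1 u
          · rw [mu_succ_on m hyU, hy, zero_mul, muG_zero h (Or.inr hyU)]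
          · exact mu_succ_off m hyU
        · filter_upwards [isClosed_closure.isOpen_compl.mem_nhds hcl] with y hy
          exact mu_succ_off m (fun hyU => hy (subset_closure hyU))
      exact (muG_smooth h).contDiffAt.congr_of_eventuallyEq h1

end Pool.Agent.H84.BR
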