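import Pool.Agent.H84.BR.Mua

/-!
[H84 BR MUC]  BARRIER, chapter IV: the relation between `mu m`, `G` and `mu (m + 1)`; the sets where the coefficients differ are small.

`mu_rel`: at `z` with `Q z ≠ 0`, `G = Gf ...`, `g = Tf A' B'`. Three cases.
(1) `z ∈ U1 u`: `G = g` near `z`, so `dz G z = deriv g z`, `dzb G z = 0`, `G z = g z` (`G_on`, `wirt_holo`, `Filter.EventuallyEq.fderiv_eq`); claim
`mu m (g z) conj (g' z) = mu (m + 1) z * g' z`: `mu_succ_on`; if `g' z = 0` both sides are `0`.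
(2) `z ∉ U1 u`, `z ∈ tsupport u`: `G z ∈ interior A` (`Cfg.ent`), so `mu m (G z) = 0` (`mu_A`, `interior_subset`); `mu (m + 1) z = muG z = dzb G z / dz G z` and `dz G z ≠ 0` (`Cfg.dil`).
(3) `z ∉ tsupport u`: `G = T` near `z`, `dzb G z = 0` (`Tf_holo`, `wirt_holo`), `mu (m + 1) z = 0` (`mu_off`), and `mu m (G z) = 0`: `Gs z = (G z : OnePoint ℂ)` (`Q z ≠ 0`),
`Gs_ent` (`z ∉ U1 u` as `U1 u ⊆ tsupport u`).

`Nset`: `N 0 = (U1 u)ᶜ`, `N (k + 1) = U1 u ∩ g ⁻¹' N k`: measurable (`g` is measurable: quotient of continuous functions), pairwise disjoint (by induction: `N i ∩ N j = ∅` for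
`i < j`), `N (k + 1) ⊆ U1 u` bounded of finite measure. `mu_ne`: `mu (m + 1) z ≠ mu m z → z ∈ N (m + 1)`. `m = 0`: if `z ∉ U1 u` both are `muG z`; so `z ∈ U1 u`, `mu 0 z = 0`
(`mu_zero_U1`), `mu 1 z ≠ 0`, so `mu 0 (g z) ≠ 0`, `g z ∉ U1 u`. Step: `z ∈ U1 u` (otherwise both are `muG z`) and `mu (m + 1) (g z) ≠ mu m (g z)`.
`mu_vol`: `mu m z ≠ mu m' z` with `m, m' ≥ M` gives `z ∈ ⋃ k ≥ M, N (k + 1)` (telescoping), whose measure is at most `∑' k ≥ M, volume (N (k + 1))`, a tail of a convergent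
series (`∑' k, volume (N (k + 1)) ≤ volume (U1 u) < ∞` by disjointness, `measure_iUnion`; `ENNReal.tendsto_tsum_compl_atTop_zero` or `tendsto_measure_iInter`).
-/

set_option autoImplicit false

open Filter Topology Polynomial Set ComplexConjugate MeasureTheory
open scoped ContDiff ENNReal

namespace Pool.Agent.H84.BR

open Pool.Agent.H44.Fatou Pool.Agent.H32.BT Pool.Agent.H73.BR

variable {n : ℕ} {P Q A' B' : ℂ[X]} {A : Set (OnePoint ℂ)} {u : ℂ → ℝ} {s : ℝ → ℝ} {δ : ℝ}

theorem mu_rel (h : Cfg n P Q A u A' B' s δ) (m : ℕ) {z : ℂ} (hz : Q.eval z ≠ 0) :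
    dzb (Gf P Q A' B' u s) z + mu P Q A' B' u s m (Gf P Q A' B' u s z) * conj (dz (Gf P Q A' B' u s) z) =
      mu P Q A' B' u s (m + 1) z * (dz (Gf P Q A' B' u s) z +
        mu P Q A' B' u s m (Gf P Q A' B' u s z) * conj (dzb (Gf P Q A' B' u s) z)) := by
  by_cases hU : z ∈ U1 u
  · have hB : B'.eval z ≠ 0 := h.den z ((U1_sub u h.u0.smooth.continuous).1 hU)
    have hw := wirt_holo (Tf_holo (P := A') hB).1
    have hfd : fderiv ℝ (Gf P Q A' B' u s) z = fderiv ℝ (Tf A' B') z := (G_on h hU).fderiv_eq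
    have h1 : dz (Gf P Q A' B' u s) z = deriv (Tf A' B') z := by
      rw [← hw.1]
      unfold dz
      rw [hfd]
    have h2 : dzb (Gf P Q A' B' u s) z = 0 := by
      rw [← hw.2]
      unfold dzb
      rw [hfd]
    have h3 : Gf P Q A' B' u s z = Tf A' B' z := (G_on h hU).self_of_nhds
    rw [h1, h2, h3, mu_succ_on m hU, map_zero, mul_zero, add_zero, zero_add]
    by_cases hd : deriv (Tf A' B') z = 0
    · rw [hd, map_zero, mul_zero, mul_zero]
    · rw [mul_assoc, div_mul_cancel₀ _ hd]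
  · by_cases ht : z ∈ tsupport u
    · have h1 : mu P Q A' B' u s m (Gf P Q A' B' u s z) = 0 :=
        mu_A h m (interior_subset (h.ent z ht hU))
      rw [h1, mu_succ_off m hU, zero_mul, zero_mul, add_zero, add_zero]
      unfold muG
      rw [div_mul_cancel₀ _ (h.dil z ht hU).1]
    · have hw := wirt_holo (Tf_holo (P := P) hz).1
      have hfd : fderiv ℝ (Gf P Q A' B' u s) z = fderiv ℝ (Tf P Q) z := (G_off h ht).fderiv_eq
      have h2 : dzb (Gf P Q A' B' u s) z = 0 := by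
        rw [← hw.2]
        unfold dzb
        rw [hfd]
      have h3 : Gs P Q A' B' u s z = (Gf P Q A' B' u s z : OnePoint ℂ) := by
        show (if Q.eval z = 0 then OnePoint.infty else (Gf P Q A' B' u s z : OnePoint ℂ)) = _
        rw [if_neg hz]
      have h4 : mu P Q A' B' u s m (Gf P Q A' B' u s z) = 0 := by
        apply mu_A h m
        rw [← h3]
        exact interior_subset (Gs_ent h hU)
      rw [h2, h4, mu_off h (m + 1) ht, zero_mul, zero_mul, add_zero]

/-- the set of points which leave `U1` exactly at time `k` -/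
def Nset (g : ℂ → ℂ) (V : Set ℂ) : ℕ → Set ℂ
  | 0 => Vᶜ
  | k + 1 => V ∩ g ⁻¹' (Nset g V k)

theorem Nset_meas {g : ℂ → ℂ} (hg : Measurable g) {V : Set ℂ} (hV : MeasurableSet V) (k : ℕ) :
    MeasurableSet (Nset g V k) := by
  induction k with
  | zero => exact hV.compl
  | succ k ih => exact hV.inter (hg ih)

theorem Nset_disj (g : ℂ → ℂ) (V : Set ℂ) : Pairwise (Function.onFun Disjoint (Nset g V)) := by
  have key : ∀ i j : ℕ, i < j → Disjoint (Nset g V i) (Nset g V j) := by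
    intro i
    induction i with
    | zero =>
      intro j hj
      obtain ⟨k, rfl⟩ : ∃ k, j = k + 1 := ⟨j - 1, by omega⟩
      rw [Set.disjoint_left]
      intro z h1 h2
      exact h1 h2.1
    | succ i ih =>
      intro j hj
      obtain ⟨k, rfl⟩ : ∃ k, j = k + 1 := ⟨j - 1, by omega⟩
      have h3 := ih k (by omega)
      rw [Set.disjoint_left] at h3 ⊢
      intro z h1 h2
      exact h3 h1.2 h2.2
  intro i j hij
  rcases lt_or_gt_of_ne hij with h1 | h1
  · exact key i j h1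
  · exact (key j i h1).symm

theorem mu_ne (h : Cfg n P Q A u A' B' s δ) (m : ℕ) {z : ℂ}
    (hz : mu P Q A' B' u s (m + 1) z ≠ mu P Q A' B' u s m z) : z ∈ Nset (Tf A' B') (U1 u) (m + 1) := by
  induction m generalizing z with
  | zero =>
    have hU : z ∈ U1 u := by
      by_contra hU
      exact hz (mu_succ_off 0 hU)
    refine ⟨hU, ?_⟩
    show Tf A' B' z ∈ (U1 u)ᶜ
    intro hgU
    apply hz
    rw [mu_succ_on 0 hU, mu_zero_U1 h hgU, zero_mul, mu_zero_U1 h hU]
  | succ m ih =>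
    have hU : z ∈ U1 u := by
      by_contra hU
      exact hz (by rw [mu_succ_off (m + 1) hU, mu_succ_off m hU])
    refine ⟨hU, ?_⟩
    show Tf A' B' z ∈ Nset (Tf A' B') (U1 u) (m + 1)
    apply ih
    intro h1
    apply hz
    rw [mu_succ_on (m + 1) hU, mu_succ_on m hU, h1]

theorem mu_vol (h : Cfg n P Q A u A' B' s δ) (ε : ℝ≥0∞) (hε : 0 < ε) : ∃ M, ∀ m ≥ M, ∀ m' ≥ M,
    volume {z | mu P Q A' B' u s m z ≠ mu P Q A' B' u s m' z} ≤ ε := by
  have hg : Measurable (Tf A' B') := by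
    unfold Tf
    exact A'.continuous.measurable.div B'.continuous.measurable
  have hV : MeasurableSet (U1 u) := isOpen_interior.measurableSet
  have hN : ∀ k, MeasurableSet (Nset (Tf A' B') (U1 u) k) := Nset_meas hg hV
  set W : ℕ → Set ℂ := fun M => ⋃ k : ℕ, Nset (Tf A' B') (U1 u) (M + k + 1) with hW
  have hWm : ∀ M, MeasurableSet (W M) := fun M => MeasurableSet.iUnion fun k => hN _
  have hWa : Antitone W := by
    intro M M' hMM z hz
    obtain ⟨k, hk⟩ := mem_iUnion.1 hz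
    refine mem_iUnion.2 ⟨M' - M + k, ?_⟩
    have h1 : M + (M' - M + k) + 1 = M' + k + 1 := by omega
    rw [h1]
    exact hk
  have hfin : volume (W 0) ≠ ⊤ := by
    have h1 : W 0 ⊆ tsupport u := by
      intro z hz
      obtain ⟨k, hk⟩ := mem_iUnion.1 hz
      exact (U1_sub u h.u0.smooth.continuous).1 hk.1
    exact ((measure_mono h1).trans_lt (IsCompact.measure_lt_top h.u0.cpt)).ne
  have hempty : ⋂ M, W M = ∅ := by
    apply eq_empty_of_forall_notMem
    intro z hz
    rw [mem_iInter] at hz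
    obtain ⟨k, hk⟩ := mem_iUnion.1 (hz 0)
    obtain ⟨k', hk'⟩ := mem_iUnion.1 (hz (0 + k + 1))
    have h1 := Nset_disj (Tf A' B') (U1 u)
      (show 0 + k + 1 ≠ 0 + k + 1 + k' + 1 by omega)
    exact Set.disjoint_left.1 h1 hk hk'
  have hlim := tendsto_measure_iInter_atTop (μ := (volume : Measure ℂ))
    (fun M => (hWm M).nullMeasurableSet) hWa ⟨0, hfin⟩
  rw [hempty, measure_empty] at hlim
  obtain ⟨M, hM⟩ := (hlim.eventually (ge_mem_nhds hε)).exists
  refine ⟨M, ?_⟩
  intro m hm m' hm'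
  refine le_trans (measure_mono ?_) hM
  intro z hz
  by_contra hzW
  apply hz
  have hstep : ∀ k, mu P Q A' B' u s (M + k) z = mu P Q A' B' u s M z := by
    intro k
    induction k with
    | zero => rfl
    | succ k ih =>
      by_contra hne
      apply hzW
      refine mem_iUnion.2 ⟨k, mu_ne h (M + k) ?_⟩
      intro h1
      apply hne
      rw [← ih, ← h1]
      rfl
  obtain ⟨k, rfl⟩ : ∃ k, m = M + k := ⟨m - M, by omega⟩
  obtain ⟨k', rfl⟩ : ∃ k, m' = M + k := ⟨m' - M, by omega⟩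
  rw [hstep, hstep]

end Pool.Agent.H84.BR
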