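import Pool.Agent.H84.BR.Mub
import Pool.Agent.H84.BR.Muc

/-!
[H84 BR PHI]  BARRIER, chapter V: the straightening homeomorphism.

`exists_phi`: apply `Pool.Agent.H73.BR.beltrami_limit` (constant `K`) to the sequence `mu m`: smooth (`mu_smooth`), `‖mu m z‖ ≤ δ` (`mu_bd`), zero for `R0 < ‖z‖` (`mu_off`: then `z ∉ tsupport u`), measures (`mu_vol`).
`Str.hol`: on `O` all `mu m` vanish (`mu_off`). `Str.con`: `O = {z | Q.eval z ≠ 0}` open, `G = Gf ..` is `C^1` on `O` (`G_smooth`, `ContDiffAt.contDiffWithinAt`, `.of_le`), relation `mu_rel`.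
-/

set_option autoImplicit false

open Filter Topology Polynomial Set ComplexConjugate
open scoped ContDiff

namespace Pool.Agent.H84.BR

open Pool.Agent.H44.Fatou Pool.Agent.H32.BT Pool.Agent.H73.BR

/-- what is used of the homeomorphism `φ` -/
structure Str (P Q A' B' : ℂ[X]) (u : ℂ → ℝ) (s : ℝ → ℝ) (φ : ℂ ≃ₜ ℂ) (ρ : ℝ) : Prop where
  near : ∀ z, ‖φ z - z‖ ≤ ρ
  hol : ∀ O : Set ℂ, IsOpen O → (∀ z ∈ O, z ∉ tsupport u) → DifferentiableOn ℂ φ O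
  con : DifferentiableOn ℂ (fun w => φ (Gf P Q A' B' u s (φ.symm w))) (φ '' {z | Q.eval z ≠ 0})

/-- the new denominator -/
noncomputable def Bh (φ : ℂ → ℂ) (Q : ℂ[X]) : ℂ[X] := C Q.leadingCoeff * ∏ b ∈ Q.roots.toFinset, (X - C (φ b))

theorem exists_phi : ∃ K : ℝ, 0 < K ∧ ∀ {n : ℕ} {P Q A' B' : ℂ[X]} {A : Set (OnePoint ℂ)} {u : ℂ → ℝ} {s : ℝ → ℝ} {δ : ℝ},
    Cfg n P Q A u A' B' s δ → ∀ R0 : ℝ, 0 < R0 → (∀ z ∈ tsupport u, ‖z‖ ≤ R0) → K * δ ≤ 1 →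
      ∃ φ : ℂ ≃ₜ ℂ, Str P Q A' B' u s φ (K * δ * R0) := by
  obtain ⟨K, hK, hbl⟩ := beltrami_limit
  refine ⟨K, hK, ?_⟩
  intro n P Q A' B' A u s δ h R0 hR0 hu hKδ
  have hoff : ∀ m z, R0 < ‖z‖ → mu P Q A' B' u s m z = 0 := fun m z hz =>
    mu_off h m fun hz' => by
      have := hu z hz'
      linarith
  obtain ⟨φ, h1, h2, h3⟩ := hbl δ R0 h.dpos hKδ hR0 (mu P Q A' B' u s) (fun m => mu_smooth h m)
    (fun m z => mu_bd h m z) hoff (fun ε hε => mu_vol h ε hε)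
  refine ⟨φ, h1, ?_, ?_⟩
  · intro O hO hz
    exact h2 O hO fun m z hzO => mu_off h m (hz z hzO)
  · have hO : IsOpen {z : ℂ | Q.eval z ≠ 0} := isOpen_ne_fun Q.continuous continuous_const
    refine h3 {z : ℂ | Q.eval z ≠ 0} (Gf P Q A' B' u s) hO ?_ ?_
    · intro z hz
      exact ((G_smooth h hz).of_le (by simp)).contDiffWithinAt
    · intro m z hz
      exact mu_rel h m hz

end Pool.Agent.H84.BR
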