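import Pool.Agent.H84.BR.Phi
import Pool.Agent.H84.BR.Pgr

/-!
[H84 BR RAT]  BARRIER, chapter V: the straightened map is a quotient of polynomials of degree `n`.

Write `F w = φ (G (φ.symm w))`, `G = Gf P Q A' B' u s`. `h : Cfg ..`, `hφ : Str .. φ ρ`.
`Bh_deg`, `Bh_root`: the roots of `Q` are simple (`GD.sep`: `Polynomial.rootMultiplicity` one, `nodup_roots`-type lemma or `Polynomial.nodup_roots_iff_of_splits`/`Separable`), so `card Q.roots.toFinset = Q.natDegree = n`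
(`IsAlgClosed.splits`, `card_roots'`, `Polynomial.splits_iff_card_roots`); `Q.leadingCoeff ≠ 0`.
`F_pole`: at a root `b` of `Q`. `b ∉ tsupport u` (`pole_off`), so near `b` `G = T = P / Q` (`G_off`), `φ` is differentiable at `b` (`Str.hol` with `O = (tsupport u)ᶜ`). `(a)`: `‖T z‖ ‖z - b‖ ≤ C1` near `b`: `Q z = (z - b) Q1 z` with `Q1 b ≠ 0`
(`Q' b ≠ 0`), `T z (z - b) = P z / Q1 z` for `z ≠ b`. `(b)`: `‖φ z - φ b‖ ≤ C2 ‖z - b‖` near `b` (`HasDerivAt.isBigO_sub`). With `z = φ.symm w → b` as `w → φ b` (continuity), `‖F w‖ ≤ ‖T z‖ + ρ` (`Str.near`), `‖w - φ b‖ ≤ C2 ‖z - b‖`: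
`‖F w‖ ‖w - φ b‖ ≤ C2 (C1 + ρ ‖z - b‖)`, bounded.
`F_top`: `‖F w‖ ≥ ‖G z‖ - ρ = ‖T z‖ - ρ → ∞` as `w → φ b`, `w ≠ φ b` (`z → b`, `z ≠ b`, `P b ≠ 0` by `coprime_eval`, `Q z → 0`, `Q z ≠ 0` near `b`).
`F_large`: for large `‖w‖`, `z = φ.symm w` has `‖z‖ ≥ ‖w‖ - ρ`, is not in `tsupport u` (compact) and is no root of `Q`, `G z = T z`, and `T` is bounded near infinity since `P.natDegree ≤ Q.natDegree` (`Polynomial.div_tendsto...` or `isBigO_of_degree_le`).
`exists_num`: `H w = F w * (Bh φ Q).eval w` is holomorphic off `φ '' roots` (`Str.con`: this set is the complement of `φ '' {Q ≠ 0}`, open), bounded near each `φ b` (`F_pole`; `(Bh φ Q).eval w = (w - φ b) * _`, the other factor being bounded near `φ b`);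
`entire_ext`, `poly_growth` (`‖H w‖ ≤ C ‖w‖^n` for large `w`: `F_large` and `natDegree (Bh φ Q) = n`) give a polynomial `a` of degree `≤ n` with `F w * (Bh φ Q).eval w = a.eval w` for `w` outside the roots of `Bh φ Q`.
Coprime: if `a (φ b) = 0` for a root `b` then `a = (X - C (φ b)) * a1`, `Bh φ Q = (X - C (φ b)) * B1` with `B1 (φ b) ≠ 0` (simple roots, `φ` injective), so `F w = a1 w / B1 w` near `φ b`, bounded, against `F_top`.
No common root gives `IsCoprime` (`Polynomial.isCoprime_of...` or: `IsCoprime.prod_right` with `(irreducible_X_sub_C _).coprime_iff_not_dvd`, `dvd_iff_isRoot`; the constant is a unit).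
-/

set_option autoImplicit false

open Filter Topology Polynomial Set ComplexConjugate
open scoped ContDiff

namespace Pool.Agent.H84.BR

open Pool.Agent.H44.Fatou Pool.Agent.H32.BT Pool.Agent.H73.BR

theorem gd_ne {n : ℕ} {P Q : ℂ[X]} {A : Set (OnePoint ℂ)} (h : GD n P Q A) : Q ≠ 0 := by
  rintro rfl
  have h1 := h.degQ
  have h2 := h.n2
  rw [natDegree_zero] at h1
  omega

theorem roots_nd {n : ℕ} {P Q : ℂ[X]} {A : Set (OnePoint ℂ)} (h : GD n P Q A) : Q.roots.Nodup := by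
  classical
  rw [Multiset.nodup_iff_count_le_one]
  intro a
  rw [count_roots]
  by_contra hcon
  push Not at hcon
  have h1 := (one_lt_rootMultiplicity_iff_isRoot (gd_ne h)).1 hcon
  exact h.sep a h1.1 h1.2

theorem roots_cd {n : ℕ} {P Q : ℂ[X]} {A : Set (OnePoint ℂ)} (h : GD n P Q A) :
    Multiset.card Q.roots = Q.natDegree := splits_iff_card_roots.1 (IsAlgClosed.splits Q)

theorem roots_card {n : ℕ} {P Q : ℂ[X]} {A : Set (OnePoint ℂ)} (h : GD n P Q A) : Q.roots.toFinset.card = n := by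
  rw [Multiset.toFinset_card_of_nodup (roots_nd h), roots_cd h, h.degQ]

theorem Q_prod {n : ℕ} {P Q : ℂ[X]} {A : Set (OnePoint ℂ)} (h : GD n P Q A) : Bh id Q = Q := by
  classical
  unfold Bh
  have h1 : ∏ b ∈ Q.roots.toFinset, (X - C (id b)) = (Q.roots.map fun a => X - C a).prod := by
    show ((Q.roots.toFinset).val.map fun b => X - C (id b)).prod = _
    rw [Multiset.toFinset_val, Multiset.dedup_eq_self.2 (roots_nd h)]
    rfl
  rw [h1]
  exact C_leadingCoeff_mul_prod_multiset_X_sub_C (roots_cd h)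

theorem Bh_deg {n : ℕ} {P Q : ℂ[X]} {A : Set (OnePoint ℂ)} (h : GD n P Q A) (φ : ℂ → ℂ) : (Bh φ Q).natDegree = n := by
  unfold Bh
  rw [natDegree_C_mul (leadingCoeff_ne_zero.2 (gd_ne h)), natDegree_finsetProd_X_sub_C_eq_card,
    roots_card h]

theorem Bh_root {n : ℕ} {P Q : ℂ[X]} {A : Set (OnePoint ℂ)} (h : GD n P Q A) (φ : ℂ → ℂ) (w : ℂ) :
    (Bh φ Q).eval w = 0 ↔ ∃ b : ℂ, Q.eval b = 0 ∧ w = φ b := by
  unfold Bh
  rw [eval_mul, eval_C, eval_prod, mul_eq_zero, or_iff_right (leadingCoeff_ne_zero.2 (gd_ne h)),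
    Finset.prod_eq_zero_iff]
  constructor
  · rintro ⟨b, hb, hb'⟩
    rw [Multiset.mem_toFinset, mem_roots (gd_ne h)] at hb
    refine ⟨b, hb, ?_⟩
    rw [eval_sub, eval_X, eval_C] at hb'
    exact sub_eq_zero.1 hb'
  · rintro ⟨b, hb, rfl⟩
    refine ⟨b, ?_, by simp⟩
    rw [Multiset.mem_toFinset, mem_roots (gd_ne h)]
    exact hb

variable {n : ℕ} {P Q A' B' : ℂ[X]} {A : Set (OnePoint ℂ)} {u : ℂ → ℝ} {s : ℝ → ℝ} {δ ρ : ℝ} {φ : ℂ ≃ₜ ℂ}

theorem rat_tend (φ : ℂ ≃ₜ ℂ) (b : ℂ) : Tendsto φ.symm (𝓝[≠] (φ b)) (𝓝[≠] b) := by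
  rw [tendsto_nhdsWithin_iff]
  constructor
  · have h1 : Tendsto φ.symm (𝓝 (φ b)) (𝓝 (φ.symm (φ b))) := φ.symm.continuous.continuousAt
    rw [φ.symm_apply_apply] at h1
    exact h1.mono_left nhdsWithin_le_nhds
  · filter_upwards [self_mem_nhdsWithin] with w hw hw'
    apply hw
    rw [Set.mem_singleton_iff] at hw' ⊢
    rw [← hw', φ.apply_symm_apply]

theorem root_factor {Q : ℂ[X]} {b : ℂ} (hb : Q.eval b = 0) (hd : (derivative Q).eval b ≠ 0) :
    ∃ Q1 : ℂ[X], Q = (X - C b) * Q1 ∧ Q1.eval b ≠ 0 := by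
  obtain ⟨Q1, hQ1⟩ := dvd_iff_isRoot.2 hb
  refine ⟨Q1, hQ1, ?_⟩
  rw [hQ1, derivative_mul, derivative_sub, derivative_X, derivative_C, eval_add, eval_mul, eval_mul] at hd
  simpa using hd

theorem poly_bd (p : ℂ[X]) {n : ℕ} (hp : p.natDegree ≤ n) :
    ∃ C : ℝ, 0 ≤ C ∧ ∀ w : ℂ, 1 ≤ ‖w‖ → ‖p.eval w‖ ≤ C * ‖w‖ ^ n := by
  refine ⟨∑ i ∈ Finset.range (n + 1), ‖p.coeff i‖, Finset.sum_nonneg fun i _ => norm_nonneg _,
    fun w hw => ?_⟩
  rw [eval_eq_sum_range' (Nat.lt_succ_of_le hp), Finset.sum_mul]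
  refine (norm_sum_le _ _).trans (Finset.sum_le_sum fun i hi => ?_)
  rw [norm_mul, norm_pow]
  have hi' : i ≤ n := Nat.lt_succ_iff.1 (Finset.mem_range.1 hi)
  exact mul_le_mul_of_nonneg_left (pow_le_pow_right₀ hw hi') (norm_nonneg _)

theorem Q_low {n : ℕ} {P Q : ℂ[X]} {A : Set (OnePoint ℂ)} (h : GD n P Q A) :
    ∃ c R : ℝ, 0 < c ∧ ∀ w : ℂ, R ≤ ‖w‖ → c * ‖w‖ ^ n ≤ ‖Q.eval w‖ := by
  classical
  refine ⟨‖Q.leadingCoeff‖ * (1 / 2) ^ n, 2 * ∑ b ∈ Q.roots.toFinset, ‖b‖, ?_, fun w hw => ?_⟩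
  · have := norm_pos_iff.2 (leadingCoeff_ne_zero.2 (gd_ne h))
    positivity
  · have h1 : Q.eval w = Q.leadingCoeff * ∏ b ∈ Q.roots.toFinset, (w - b) := by
      conv_lhs => rw [← Q_prod h]
      unfold Bh
      rw [eval_mul, eval_C, eval_prod]
      simp
    rw [h1, norm_mul, norm_prod, mul_assoc, ← mul_pow]
    refine mul_le_mul_of_nonneg_left ?_ (norm_nonneg _)
    rw [← roots_card h, ← Finset.prod_const]
    refine Finset.prod_le_prod (fun i _ => by positivity) fun b hb => ?_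
    have h2 : ‖b‖ ≤ ∑ b ∈ Q.roots.toFinset, ‖b‖ :=
      Finset.single_le_sum (f := fun b : ℂ => ‖b‖) (fun i _ => norm_nonneg _) hb
    have h3 := norm_sub_norm_le w b
    linarith

theorem F_pole (hG : GD n P Q A) (h : Cfg n P Q A u A' B' s δ) (hφ : Str P Q A' B' u s φ ρ) {b : ℂ} (hb : Q.eval b = 0) :
    ∃ C : ℝ, ∀ᶠ w in 𝓝[≠] (φ b), ‖φ (Gf P Q A' B' u s (φ.symm w))‖ * ‖w - φ b‖ ≤ C := by
  have hbu : b ∉ tsupport u := fun hbu => pole_off h hbu hb
  obtain ⟨Q1, hQ1, hQ1b⟩ := root_factor hb (hG.sep b hb)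
  -- differentiability of `φ` at `b`
  have hdφ : DifferentiableAt ℂ φ b := by
    have h1 := hφ.hol (tsupport u)ᶜ (isClosed_tsupport u).isOpen_compl (fun z hz => hz)
    exact h1.differentiableAt ((isClosed_tsupport u).isOpen_compl.mem_nhds hbu)
  obtain ⟨C2, hC2, hC2'⟩ := (hdφ.hasDerivAt.isBigO_sub).exists_nonneg
  have hcont : ContinuousAt (fun z : ℂ => ‖P.eval z / Q1.eval z‖) b :=
    (P.continuous.continuousAt.div Q1.continuous.continuousAt hQ1b).norm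
  have e1 : ∀ᶠ z in 𝓝 b, ‖P.eval z / Q1.eval z‖ < ‖P.eval b / Q1.eval b‖ + 1 :=
    hcont.eventually_lt continuousAt_const (by simp)
  have e2 := G_off h hbu
  have e3 : ∀ᶠ z in 𝓝 b, ‖z - b‖ < 1 := by
    have : ContinuousAt (fun z : ℂ => ‖z - b‖) b := (continuousAt_id.sub continuousAt_const).norm
    exact this.eventually_lt continuousAt_const (by simp)
  have hρ : 0 ≤ ρ := (norm_nonneg _).trans (hφ.near 0)
  refine ⟨C2 * (‖P.eval b / Q1.eval b‖ + 1 + ρ), ?_⟩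
  have e4 : ∀ᶠ z in 𝓝[≠] b, ‖φ (Gf P Q A' B' u s z)‖ * ‖φ z - φ b‖ ≤
      C2 * (‖P.eval b / Q1.eval b‖ + 1 + ρ) := by
    filter_upwards [nhdsWithin_le_nhds e1, nhdsWithin_le_nhds e2, nhdsWithin_le_nhds e3,
      nhdsWithin_le_nhds hC2'.bound, self_mem_nhdsWithin] with z h1 h2 h3 h4 h5
    have h5' : z - b ≠ 0 := sub_ne_zero.2 h5
    have h6 : ‖φ (Gf P Q A' B' u s z)‖ ≤ ‖Gf P Q A' B' u s z‖ + ρ := by
      have := hφ.near (Gf P Q A' B' u s z)
      have h7 := norm_le_norm_add_norm_sub' (φ (Gf P Q A' B' u s z)) (Gf P Q A' B' u s z)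
      linarith
    have h7 : ‖Gf P Q A' B' u s z‖ * ‖z - b‖ = ‖P.eval z / Q1.eval z‖ := by
      rw [h2, Tf, ← norm_mul]
      congr 1
      rw [hQ1, eval_mul, eval_sub, eval_X, eval_C]
      field_simp
    calc ‖φ (Gf P Q A' B' u s z)‖ * ‖φ z - φ b‖
        ≤ (‖Gf P Q A' B' u s z‖ + ρ) * (C2 * ‖z - b‖) :=
          mul_le_mul h6 h4 (norm_nonneg _) (by positivity)
      _ = C2 * (‖Gf P Q A' B' u s z‖ * ‖z - b‖ + ρ * ‖z - b‖) := by ring
      _ ≤ C2 * (‖P.eval b / Q1.eval b‖ + 1 + ρ) := by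
          apply mul_le_mul_of_nonneg_left _ hC2
          rw [h7]
          have : ρ * ‖z - b‖ ≤ ρ * 1 := mul_le_mul_of_nonneg_left h3.le hρ
          linarith
  filter_upwards [(rat_tend φ b).eventually e4] with w hw
  rw [φ.apply_symm_apply] at hw
  exact hw

theorem F_top (hG : GD n P Q A) (h : Cfg n P Q A u A' B' s δ) (hφ : Str P Q A' B' u s φ ρ) {b : ℂ} (hb : Q.eval b = 0) :
    Tendsto (fun w => ‖φ (Gf P Q A' B' u s (φ.symm w))‖) (𝓝[≠] (φ b)) atTop := by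
  have hbu : b ∉ tsupport u := fun hbu => pole_off h hbu hb
  have hPb : P.eval b ≠ 0 := by
    rcases coprime_eval hG.cop b with h1 | h1
    · exact h1
    · exact absurd hb h1
  obtain ⟨Q1, hQ1, hQ1b⟩ := root_factor hb (hG.sep b hb)
  have e0 : Tendsto (fun z : ℂ => ‖P.eval z / Q1.eval z‖) (𝓝[≠] b) (𝓝 ‖P.eval b / Q1.eval b‖) :=
    ((P.continuous.continuousAt.div Q1.continuous.continuousAt hQ1b).norm).tendsto.mono_left
      nhdsWithin_le_nhds
  have e1 : Tendsto (fun z : ℂ => ‖z - b‖⁻¹) (𝓝[≠] b) atTop := by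
    apply tendsto_inv_nhdsGT_zero.comp
    exact tendsto_norm_sub_self_nhdsNE b
  have e2 : Tendsto (fun z : ℂ => ‖Tf P Q z‖) (𝓝[≠] b) atTop := by
    have h1 := Tendsto.pos_mul_atTop (norm_pos_iff.2 (div_ne_zero hPb hQ1b)) e0 e1
    refine h1.congr' ?_
    filter_upwards [self_mem_nhdsWithin] with z hz
    have hz' : z - b ≠ 0 := sub_ne_zero.2 hz
    rw [← norm_inv, ← norm_mul, Tf]
    congr 1
    conv_rhs => rw [hQ1]
    rw [eval_mul, eval_sub, eval_X, eval_C]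
    field_simp
  have e3 : Tendsto (fun z : ℂ => ‖φ (Gf P Q A' B' u s z)‖) (𝓝[≠] b) atTop := by
    have h1 : Tendsto (fun z : ℂ => ‖Tf P Q z‖ + -ρ) (𝓝[≠] b) atTop :=
      tendsto_atTop_add_const_right _ _ e2
    refine tendsto_atTop_mono' _ ?_ h1
    filter_upwards [nhdsWithin_le_nhds (G_off h hbu)] with z hz
    rw [hz]
    have h2 := hφ.near (Tf P Q z)
    have h3 := norm_le_norm_add_norm_sub (φ (Tf P Q z)) (Tf P Q z)
    linarith
  exact e3.comp (rat_tend φ b)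

theorem F_large (hG : GD n P Q A) (h : Cfg n P Q A u A' B' s δ) (hφ : Str P Q A' B' u s φ ρ) :
    ∃ C R : ℝ, ∀ w : ℂ, R ≤ ‖w‖ → ‖φ (Gf P Q A' B' u s (φ.symm w))‖ ≤ C := by
  obtain ⟨c, R1, hc, hR1⟩ := Q_low hG
  obtain ⟨C1, hC1, hC1'⟩ := poly_bd P hG.degP
  obtain ⟨M, hM⟩ := h.u0.cpt.isBounded.exists_norm_le
  have hρ : 0 ≤ ρ := (norm_nonneg _).trans (hφ.near 0)
  refine ⟨C1 / c + ρ, max R1 (max 1 (M + 1)) + ρ, fun w hw => ?_⟩
  set z := φ.symm w with hz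
  have h1 : ‖w‖ ≤ ‖z‖ + ρ := by
    have h2 := hφ.near z
    rw [hz, φ.apply_symm_apply, ← hz] at h2
    have h3 := norm_le_norm_add_norm_sub' w z
    linarith
  have h2 : max R1 (max 1 (M + 1)) ≤ ‖z‖ := by linarith
  have h3 : R1 ≤ ‖z‖ := (le_max_left _ _).trans h2
  have h4 : 1 ≤ ‖z‖ := (le_max_left _ _).trans ((le_max_right _ _).trans h2)
  have h5 : M + 1 ≤ ‖z‖ := (le_max_right _ _).trans ((le_max_right _ _).trans h2)
  have h6 : z ∉ tsupport u := fun hzu => by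
    have := hM z hzu
    linarith
  have h7 : Gf P Q A' B' u s z = Tf P Q z := (G_off h h6).self_of_nhds
  rw [h7]
  have h8 : ‖Tf P Q z‖ ≤ C1 / c := by
    have h9 := hR1 z h3
    have h10 := hC1' z h4
    have h11 : 0 < ‖z‖ ^ n := by positivity
    have h12 : 0 < ‖Q.eval z‖ := lt_of_lt_of_le (by positivity) h9
    rw [Tf, norm_div, div_le_div_iff₀ h12 hc]
    calc ‖P.eval z‖ * c ≤ (C1 * ‖z‖ ^ n) * c := by gcongr
      _ = C1 * (c * ‖z‖ ^ n) := by ring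
      _ ≤ C1 * ‖Q.eval z‖ := by gcongr
  have h9 := hφ.near (Tf P Q z)
  have h10 := norm_le_norm_add_norm_sub' (φ (Tf P Q z)) (Tf P Q z)
  linarith

theorem exists_num (hG : GD n P Q A) (h : Cfg n P Q A u A' B' s δ) (hφ : Str P Q A' B' u s φ ρ) :
    ∃ a : ℂ[X], a.natDegree ≤ n ∧ IsCoprime a (Bh φ Q) ∧
      ∀ w : ℂ, (Bh φ Q).eval w ≠ 0 → φ (Gf P Q A' B' u s (φ.symm w)) * (Bh φ Q).eval w = a.eval w := by
  classical
  set F : ℂ → ℂ := fun w => φ (Gf P Q A' B' u s (φ.symm w)) with hF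
  set B := Bh φ Q with hB
  have hBr := Bh_root hG φ
  set S : Set ℂ := {w | B.eval w = 0} with hS
  have hB0 : B ≠ 0 := by
    intro h0
    have h1 := Bh_deg hG φ
    rw [← hB, h0, natDegree_zero] at h1
    have := hG.n2
    omega
  have hSf : S.Finite := by
    have : S = ↑(B.roots.toFinset) := by
      ext w
      rw [Finset.mem_coe, Multiset.mem_toFinset, mem_roots hB0]
      rfl
    rw [this]
    exact Finset.finite_toSet _
  have hFd : ∀ w ∉ S, DifferentiableAt ℂ F w := by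
    intro w hw
    have hop : IsOpen (φ '' {z | Q.eval z ≠ 0}) :=
      φ.isOpenMap _ (isOpen_ne_fun Q.continuous continuous_const)
    refine hφ.con.differentiableAt (hop.mem_nhds ?_)
    refine ⟨φ.symm w, ?_, φ.apply_symm_apply w⟩
    intro h0
    apply hw
    show B.eval w = 0
    rw [hBr]
    exact ⟨φ.symm w, h0, (φ.apply_symm_apply w).symm⟩
  have hfac : ∀ b, Q.eval b = 0 → ∃ B1 : ℂ[X], B = (X - C (φ b)) * B1 ∧ B1.eval (φ b) ≠ 0 := by
    intro b hb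
    have hbm : b ∈ Q.roots.toFinset := by
      rw [Multiset.mem_toFinset, mem_roots (gd_ne hG)]
      exact hb
    refine ⟨C Q.leadingCoeff * ∏ b' ∈ Q.roots.toFinset.erase b, (X - C (φ b')), ?_, ?_⟩
    · rw [hB, Bh, ← Finset.mul_prod_erase _ _ hbm]
      ring
    · rw [eval_mul, eval_C, eval_prod]
      refine mul_ne_zero (leadingCoeff_ne_zero.2 (gd_ne hG)) (Finset.prod_ne_zero_iff.2 ?_)
      intro b' hb'
      rw [eval_sub, eval_X, eval_C]
      intro h0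
      have : b = b' := φ.injective (sub_eq_zero.1 h0)
      exact (Finset.mem_erase.1 hb').1 this.symm
  obtain ⟨E, hE, hE'⟩ := entire_ext hSf (H := fun w => F w * B.eval w)
    (fun w hw => (hFd w hw).mul B.differentiable.differentiableAt) (by
      intro w0 hw0
      obtain ⟨b, hb, rfl⟩ := (hBr w0).1 hw0
      obtain ⟨B1, hB1, -⟩ := hfac b hb
      obtain ⟨C1, hC1⟩ := F_pole hG h hφ hb
      have hcont : ContinuousAt (fun z : ℂ => ‖B1.eval z‖) (φ b) := B1.continuous.norm.continuousAt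
      have e1 : ∀ᶠ z in 𝓝 (φ b), ‖B1.eval z‖ < ‖B1.eval (φ b)‖ + 1 :=
        hcont.eventually_lt continuousAt_const (by simp)
      refine ⟨C1 * (‖B1.eval (φ b)‖ + 1), ?_⟩
      filter_upwards [hC1, nhdsWithin_le_nhds e1] with w h1 h2
      have h3 : ‖F w * B.eval w‖ = (‖F w‖ * ‖w - φ b‖) * ‖B1.eval w‖ := by
        conv_lhs => rw [hB1]
        rw [eval_mul, eval_sub, eval_X, eval_C, norm_mul, norm_mul]
        ring
      rw [h3]
      exact mul_le_mul h1 h2.le (norm_nonneg _) (le_trans (by positivity) h1))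
  obtain ⟨C1, R1, hC1⟩ := F_large hG h hφ
  obtain ⟨C2, hC2, hC2'⟩ := poly_bd B (le_of_eq (Bh_deg hG φ))
  obtain ⟨M, hM⟩ := hSf.isBounded.exists_norm_le
  obtain ⟨a, ha, ha'⟩ := poly_growth hE (n := n) (C := |C1| * C2) (R := max R1 (max 1 (M + 1))) (by
    intro w hw
    have h3 : R1 ≤ ‖w‖ := (le_max_left _ _).trans hw
    have h4 : 1 ≤ ‖w‖ := (le_max_left _ _).trans ((le_max_right _ _).trans hw)
    have h5 : M + 1 ≤ ‖w‖ := (le_max_right _ _).trans ((le_max_right _ _).trans hw)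
    have h6 : w ∉ S := fun hws => by
      have := hM w hws
      linarith
    rw [hE' w h6, norm_mul, mul_assoc]
    exact mul_le_mul ((hC1 w h3).trans (le_abs_self _)) (hC2' w h4) (norm_nonneg _) (abs_nonneg _))
  have hrel : ∀ w : ℂ, B.eval w ≠ 0 → F w * B.eval w = a.eval w := by
    intro w hw
    rw [← ha' w]
    exact (hE' w hw).symm
  refine ⟨a, ha, ?_, hrel⟩
  rw [Polynomial.isCoprime_iff_aeval_ne_zero_of_isAlgClosed ℂ ℂ]
  intro w0
  by_contra hcon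
  push Not at hcon
  obtain ⟨k1, k2⟩ := hcon
  rw [coe_aeval_eq_eval] at k1 k2
  obtain ⟨b, hb, rfl⟩ := (hBr w0).1 k2
  obtain ⟨B1, hB1, hB1b⟩ := hfac b hb
  obtain ⟨a1, ha1⟩ := dvd_iff_isRoot.2 (show a.IsRoot (φ b) from k1)
  have h1 := F_top hG h hφ hb
  have h2 : Tendsto (fun w => ‖F w‖) (𝓝[≠] (φ b)) (𝓝 ‖a1.eval (φ b) / B1.eval (φ b)‖) := by
    have h3 : Tendsto (fun w => ‖a1.eval w / B1.eval w‖) (𝓝[≠] (φ b))
        (𝓝 ‖a1.eval (φ b) / B1.eval (φ b)‖) :=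
      ((a1.continuous.continuousAt.div B1.continuous.continuousAt hB1b).norm).tendsto.mono_left
        nhdsWithin_le_nhds
    refine h3.congr' ?_
    filter_upwards [self_mem_nhdsWithin, nhdsWithin_le_nhds
      (B1.continuous.continuousAt.eventually_ne hB1b)] with w h4 h5
    have h4' : w - φ b ≠ 0 := sub_ne_zero.2 h4
    have h6 : B.eval w ≠ 0 := by
      rw [hB1, eval_mul, eval_sub, eval_X, eval_C]
      exact mul_ne_zero h4' h5
    have h7 := hrel w h6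
    rw [ha1, hB1, eval_mul, eval_mul, eval_sub, eval_X, eval_C] at h7
    congr 1
    rw [div_eq_iff h5]
    apply mul_left_cancel₀ h4'
    rw [← h7]
    ring
  exact not_tendsto_nhds_of_tendsto_atTop h1 _ h2

end Pool.Agent.H84.BR
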